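import Pool.Agent.Lib.MP_a950c6_lc.Gadget

/-!
# From a role assignment to a colouring of the components
-/

namespace Pool.Agent.Lib.MP_a950c6_lc

open Finset Classical

variable {m L : ℕ}

/-- Clique vertices at level at least `k`. -/
noncomputable def upper (m k : ℕ) : Finset (Fin m × Bool) := univ.filter fun x => k ≤ num x

lemma mem_upper {k : ℕ} {x : Fin m × Bool} : x ∈ upper m k ↔ k ≤ num x := by simp [upper]

lemma card_upper_lt {k k' : ℕ} (hk : k < 2 * m) (h : k < k') :
    (upper m k').card < (upper m k).card := by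
  obtain ⟨x, hx⟩ := exists_num hk
  apply card_lt_card
  rw [ssubset_iff_of_subset]
  · refine ⟨x, mem_upper.2 hx.ge, fun hx' => ?_⟩
    have := mem_upper.1 hx'
    omega
  · intro y hy
    rw [mem_upper] at hy ⊢
    omega

lemma upper_card_inj {k k' : ℕ} (hk : k < 2 * m) (hk' : k' < 2 * m)
    (h : (upper m k).card = (upper m k').card) : k = k' := by
  rcases lt_trichotomy k k' with h1 | h1 | h1
  · have := card_upper_lt hk h1; omega
  · exact h1
  · have := card_upper_lt hk' h1; omega

section Backward

variable {T C : Type} {seg : C → Fin L} {spec : C → Fin m → Bool} {lst : Fin m → T → Bool}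
  {r : Fin (L + 1) ⊕ C × ((Fin m × Bool) ⊕ (Fin m × Fin 6)) →
    Bool ⊕ T × ((Fin m × Bool) ⊕ (Fin m × Fin 5))}

/-- The two hubs next to a component. -/
def hub0 (seg : C → Fin L) (c : C) : Fin (L + 1) := ⟨(seg c).val, by have := (seg c).isLt; omega⟩
def hub1 (seg : C → Fin L) (c : C) : Fin (L + 1) :=
  ⟨(seg c).val + 1, by have := (seg c).isLt; omega⟩

/-- Neighbours of a pendant vertex of `G`. -/
noncomputable def nbG (seg : C → Fin L) (spec : C → Fin m → Bool) (c : C) (p : Fin m × Fin 6) :
    Finset (Fin (L + 1) ⊕ C × ((Fin m × Bool) ⊕ (Fin m × Fin 6))) :=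
  insert (.inl (hub0 seg c)) (insert (.inl (hub1 seg c))
    ((upper m (levG spec c p)).image fun x => .inr (c, .inl x)))

/-- Neighbours of a pendant vertex of `R`. -/
noncomputable def nbR (lst : Fin m → T → Bool) (t : T) (p : Fin m × Fin 5) :
    Finset (Bool ⊕ T × ((Fin m × Bool) ⊕ (Fin m × Fin 5))) :=
  insert (.inl true) (insert (.inl false)
    ((upper m (levR lst t p)).image fun x => .inr (t, .inl x)))

lemma mem_nbG {c : C} {p : Fin m × Fin 6} {v} :
    v ∈ nbG seg spec c p ↔ (graphG seg spec).Adj (.inr (c, .inr p)) v := by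
  rcases v with h | ⟨c', x⟩
  · simp only [nbG, mem_insert, Sum.inl.injEq, mem_image, reduceCtorEq, and_false, exists_false,
      or_false]
    change h = hub0 seg c ∨ h = hub1 seg c ↔ (seg c).val = h.val ∨ (seg c).val + 1 = h.val
    constructor
    · rintro (rfl | rfl)
      · exact Or.inl rfl
      · exact Or.inr rfl
    · rintro (h' | h')
      · exact Or.inl (Fin.ext h'.symm)
      · exact Or.inr (Fin.ext h'.symm)
  · simp only [nbG, mem_insert, reduceCtorEq, mem_image, Sum.inr.injEq, Prod.mk.injEq, false_or]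
    constructor
    · rintro ⟨y, hy, rfl, rfl⟩
      exact ⟨rfl, mem_upper.1 hy⟩
    · rintro ⟨h1, h2⟩
      cases x with
      | inl y => exact ⟨y, mem_upper.2 h2, h1, rfl⟩
      | inr p' => exact absurd h2 id

lemma mem_nbR {t : T} {p : Fin m × Fin 5} {v} :
    v ∈ nbR lst t p ↔ (graphR lst).Adj (.inr (t, .inr p)) v := by
  rcases v with h | ⟨c', x⟩
  · constructor
    · intro _; trivial
    · intro _
      cases h <;> simp [nbR]
  · simp only [nbR, mem_insert, reduceCtorEq, mem_image, Sum.inr.injEq, Prod.mk.injEq, false_or]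
    constructor
    · rintro ⟨y, hy, rfl, rfl⟩
      exact ⟨rfl, mem_upper.1 hy⟩
    · rintro ⟨h1, h2⟩
      cases x with
      | inl y => exact ⟨y, mem_upper.2 h2, h1, rfl⟩
      | inr p' => exact absurd h2 id

lemma card_nbG (c : C) (p : Fin m × Fin 6) :
    (nbG seg spec c p).card = (upper m (levG spec c p)).card + 2 := by
  have hne : hub0 seg c ≠ hub1 seg c := by
    intro h
    have := congrArg Fin.val h
    simp [hub0, hub1] at this
  rw [nbG, card_insert_of_notMem, card_insert_of_notMem, card_image_of_injective]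
  · intro x y h
    simpa using h
  · simp
  · simp [hne]

lemma card_nbR (t : T) (p : Fin m × Fin 5) :
    (nbR lst t p).card = (upper m (levR lst t p)).card + 2 := by
  rw [nbR, card_insert_of_notMem, card_insert_of_notMem, card_image_of_injective]
  · intro x y h
    simpa using h
  · simp
  · simp

/-- The neighbourhood of a pendant vertex is a clique. -/
lemma clique_nbG {c : C} {p : Fin m × Fin 6} {u v} (hu : u ∈ nbG seg spec c p)
    (hv : v ∈ nbG seg spec c p) (huv : u ≠ v) : (graphG seg spec).Adj u v := by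
  rw [mem_nbG] at hu hv
  rcases u with h | ⟨c1, x⟩ <;> rcases v with h' | ⟨c2, y⟩
  · change (seg c).val = h.val ∨ (seg c).val + 1 = h.val at hu
    change (seg c).val = h'.val ∨ (seg c).val + 1 = h'.val at hv
    change h.val + 1 = h'.val ∨ h'.val + 1 = h.val
    have hne : h.val ≠ h'.val := fun he => huv (congrArg Sum.inl (Fin.ext he))
    omega
  · obtain ⟨h1, h2⟩ := hv
    simp only at h1
    subst h1
    exact hu
  · obtain ⟨h1, h2⟩ := hu
    simp only at h1
    subst h1
    exact hv
  · obtain ⟨h1, h2⟩ := hu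
    obtain ⟨h3, h4⟩ := hv
    simp only at h1 h3
    subst h1
    subst h3
    cases x with
    | inr _ => exact absurd h2 id
    | inl x =>
      cases y with
      | inr _ => exact absurd h4 id
      | inl y => exact ⟨rfl, fun hxy => huv (by rw [hxy])⟩

lemma inj_nbG (hr : IsRoleAssignment (graphG seg spec) (graphR lst) r) {c : C}
    {p : Fin m × Fin 6} : Set.InjOn r (nbG seg spec c p) := by
  intro u hu v hv huv
  by_contra hne
  exact (hr.hom (clique_nbG hu hv hne)).ne huv

/-- Pendant vertices are mapped to pendant vertices. -/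
lemma pendant_image (hm : 0 < m) [Nonempty T]
    (hr : IsRoleAssignment (graphG seg spec) (graphR lst) r) (c : C) (p : Fin m × Fin 6) :
    ∃ t p', r (.inr (c, .inr p)) = .inr (t, .inr p') := by
  have key : ∀ t : T, (graphR lst).Adj (r (.inr (c, .inr p))) (.inr (t, .inr (⟨0, hm⟩, 0))) →
      (graphR lst).Adj (r (.inr (c, .inr p))) (.inr (t, .inr (⟨0, hm⟩, 1))) → False := by
    intro t h1 h2
    obtain ⟨u, hu, hu'⟩ := hr.surj h1
    obtain ⟨v, hv, hv'⟩ := hr.surj h2
    have hne : u ≠ v := by
      rintro rfl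
      rw [hu'] at hv'
      simp at hv'
    have hadj := clique_nbG (mem_nbG.2 hu) (mem_nbG.2 hv) hne
    have := hr.hom hadj
    rw [hu', hv'] at this
    exact this.2
  rcases hcase : r (.inr (c, .inr p)) with b | ⟨t, x | p'⟩
  · exfalso
    apply key (Classical.arbitrary T) <;> rw [hcase] <;> trivial
  · exfalso
    apply key t <;> rw [hcase] <;> exact ⟨rfl, Nat.zero_le _⟩
  · exact ⟨t, p', rfl⟩

lemma image_nbG (hr : IsRoleAssignment (graphG seg spec) (graphR lst) r) {c : C}
    {p : Fin m × Fin 6} {t : T} {p' : Fin m × Fin 5} (h : r (.inr (c, .inr p)) = .inr (t, .inr p')) :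
    (nbG seg spec c p).image r = nbR lst t p' := by
  ext y
  rw [mem_image, mem_nbR, ← h]
  constructor
  · rintro ⟨v, hv, rfl⟩
    exact hr.hom (mem_nbG.1 hv)
  · intro hy
    obtain ⟨v, hv, rfl⟩ := hr.surj hy
    exact ⟨v, mem_nbG.2 hv, rfl⟩

lemma level_image (hr : IsRoleAssignment (graphG seg spec) (graphR lst) r) {c : C}
    {p : Fin m × Fin 6} {t : T} {p' : Fin m × Fin 5} (h : r (.inr (c, .inr p)) = .inr (t, .inr p')) :
    levR lst t p' = levG spec c p := by
  have h1 := image_nbG hr h
  have h2 : ((nbG seg spec c p).image r).card = (nbG seg spec c p).card :=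
    card_image_of_injOn (inj_nbG hr)
  rw [h1, card_nbG, card_nbR] at h2
  exact upper_card_inj (levR_lt _ _ _) (levG_lt _ _ _) (by omega)

/-- A pendant vertex at a given level. -/
def atLevel (x : Fin m × Bool) : Fin m × Fin 6 := (x.1, if x.2 then 2 else 0)

lemma levG_atLevel (c : C) (x : Fin m × Bool) : levG spec c (atLevel x) = num x := by
  obtain ⟨j, b⟩ := x
  cases b <;> simp [levG, atLevel, num]

/-- The colour of a component. -/
theorem exists_colour (hm : 0 < m) [Nonempty T]
    (hr : IsRoleAssignment (graphG seg spec) (graphR lst) r) (c : C) :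
    ∃ t : T, ∀ p, ∃ p', r (.inr (c, .inr p)) = .inr (t, .inr p') ∧
      levR lst t p' = levG spec c p := by
  have hbot : num ((⟨0, hm⟩, false) : Fin m × Bool) = 0 := rfl
  obtain ⟨t, p₀, h0⟩ := pendant_image hm hr c (atLevel (⟨0, hm⟩, false))
  refine ⟨t, fun p => ?_⟩
  obtain ⟨t', p', hp⟩ := pendant_image hm hr c p
  have htop : ((⟨m - 1, by omega⟩, true) : Fin m × Bool) ∈ upper m (levR lst t' p') := by
    rw [mem_upper]
    have := levR_lt lst t' p'
    simp only [num, Bool.toNat_true]
    omega
  have h1 : (.inr (t', .inl (⟨m - 1, by omega⟩, true)) :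
      Bool ⊕ T × ((Fin m × Bool) ⊕ (Fin m × Fin 5))) ∈ nbR lst t' p' := by
    rw [nbR]
    exact mem_insert_of_mem (mem_insert_of_mem (mem_image.2 ⟨_, htop, rfl⟩))
  rw [← image_nbG hr hp] at h1
  obtain ⟨v, hv, hv'⟩ := mem_image.1 h1
  have hsub : nbG seg spec c p ⊆ nbG seg spec c (atLevel (⟨0, hm⟩, false)) := by
    rw [nbG, nbG, levG_atLevel, hbot]
    apply insert_subset_insert
    apply insert_subset_insert
    apply image_subset_image
    intro x _
    rw [mem_upper]; exact Nat.zero_le _
  have h2 : r v ∈ nbR lst t p₀ := by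
    rw [← image_nbG hr h0]
    exact mem_image_of_mem _ (hsub hv)
  rw [hv'] at h2
  have htt : t' = t := by
    simp only [nbR, mem_insert, reduceCtorEq, mem_image, Sum.inr.injEq, Prod.mk.injEq,
      false_or] at h2
    obtain ⟨_, _, h, _⟩ := h2
    exact h.symm
  subst htt
  exact ⟨p', hp, level_image hr hp⟩

variable (hm : 0 < m) [Nontrivial T] (hr : IsRoleAssignment (graphG seg spec) (graphR lst) r)

/-- The colour of a component. -/
noncomputable def colour (c : C) : T := (exists_colour hm hr c).choose

lemma colour_spec (c : C) (p : Fin m × Fin 6) :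
    ∃ p', r (.inr (c, .inr p)) = .inr (colour hm hr c, .inr p') ∧
      levR lst (colour hm hr c) p' = levG spec c p := (exists_colour hm hr c).choose_spec p

/-- The image of the neighbourhood of a pendant vertex, by levels. -/
lemma image_upper (c : C) (k : Fin m × Bool) :
    (nbG seg spec c (atLevel k)).image r =
      insert (.inl true) (insert (.inl false)
        ((upper m (num k)).image fun x => .inr (colour hm hr c, .inl x))) := by
  obtain ⟨p', h1, h2⟩ := colour_spec hm hr c (atLevel k)
  rw [image_nbG hr h1, nbR, h2, levG_atLevel]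

lemma clique_image_lower (c : C) (x : Fin m × Bool) (hx : num x + 1 < 2 * m) :
    r (.inr (c, .inl x)) = .inr (colour hm hr c, .inl x) := by
  obtain ⟨y, hy⟩ := exists_num hx
  have hmem : (.inr (c, .inl x) : Fin (L + 1) ⊕ C × ((Fin m × Bool) ⊕ (Fin m × Fin 6))) ∈
      nbG seg spec c (atLevel x) := by
    rw [mem_nbG]
    exact ⟨rfl, (levG_atLevel c x).le⟩
  have h1 : r (.inr (c, .inl x)) ∈ (nbG seg spec c (atLevel x)).image r :=
    mem_image_of_mem _ hmem
  have h2 : r (.inr (c, .inl x)) ∉ (nbG seg spec c (atLevel y)).image r := by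
    intro h
    obtain ⟨v, hv, hv'⟩ := mem_image.1 h
    have hv2 : v ∈ nbG seg spec c (atLevel x) := by
      rw [nbG, levG_atLevel] at hv ⊢
      simp only [mem_insert, mem_image, mem_upper] at hv ⊢
      rcases hv with h | h | ⟨z, hz, h⟩
      · exact Or.inl h
      · exact Or.inr (Or.inl h)
      · exact Or.inr (Or.inr ⟨z, by omega, h⟩)
    have : v = .inr (c, .inl x) := inj_nbG hr hv2 hmem hv'
    subst this
    rw [mem_nbG] at hv
    have := hv.2
    simp only [cadj, levG_atLevel] at this
    omega
  rw [image_upper hm hr] at h1 h2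
  simp only [mem_insert, mem_image, mem_upper, not_or, not_exists, not_and] at h1 h2
  rcases h1 with h | h | ⟨z, hz, h⟩
  · exact absurd h h2.1
  · exact absurd h h2.2.1
  · have hz2 : num z = num x := by
      by_contra hne
      exact h2.2.2 z (by omega) h
    rw [← h, num_inj hz2]

include hm hr

/-- Component vertices keep their colour, hubs go to hubs. -/
theorem clique_image (c : C) (x : Fin m × Bool) :
    r (.inr (c, .inl x)) = .inr (colour hm hr c, .inl x) := by
  by_cases hx : num x + 1 < 2 * m
  · exact clique_image_lower hm hr c x hx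
  have hx2 := num_lt x
  have hmem : (.inr (c, .inl x) : Fin (L + 1) ⊕ C × ((Fin m × Bool) ⊕ (Fin m × Fin 6))) ∈
      nbG seg spec c (atLevel x) := by
    rw [mem_nbG]
    exact ⟨rfl, (levG_atLevel c x).le⟩
  have h1 : r (.inr (c, .inl x)) ∈ (nbG seg spec c (atLevel x)).image r :=
    mem_image_of_mem _ hmem
  rw [image_upper hm hr] at h1
  have key : ∀ b : Bool, r (.inr (c, .inl x)) ≠ .inl b := by
    intro b hb
    obtain ⟨t', ht'⟩ := exists_ne (colour hm hr c)
    -- three vertices of another colour must be covered by the two hubs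
    have hcov : ∀ i : Fin 5, ∃ h : Fin (L + 1), (h = hub0 seg c ∨ h = hub1 seg c) ∧
        r (.inl h) = .inr (t', .inr (⟨0, hm⟩, i)) := by
      intro i
      have hadj : (graphR lst).Adj (r (.inr (c, .inl x))) (.inr (t', .inr (⟨0, hm⟩, i))) := by
        rw [hb]; trivial
      obtain ⟨v, hv, hv'⟩ := hr.surj hadj
      rcases v with h | ⟨c', y⟩
      · refine ⟨h, ?_, hv'⟩
        have h2 : (seg c).val = h.val ∨ (seg c).val + 1 = h.val := hv
        rcases h2 with h2 | h2
        · exact Or.inl (Fin.ext h2.symm)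
        · exact Or.inr (Fin.ext h2.symm)
      · exfalso
        obtain ⟨h2, h3⟩ := hv
        simp only at h2
        subst h2
        rcases y with y | p
        · have hyx : x ≠ y := h3
          have hy := num_lt y
          have hne : num y ≠ num x := fun h => hyx (num_inj h.symm)
          rw [clique_image_lower hm hr c y (by omega)] at hv'
          simp at hv'
        · obtain ⟨p', h4, _⟩ := colour_spec hm hr c p
          rw [h4] at hv'
          simp only [Sum.inr.injEq, Prod.mk.injEq] at hv'
          exact ht' hv'.1.symm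
    obtain ⟨h0, hh0, e0⟩ := hcov 0
    obtain ⟨h1, hh1, e1⟩ := hcov 1
    obtain ⟨h2, hh2, e2⟩ := hcov 2
    have n01 : h0 ≠ h1 := by
      rintro rfl; rw [e0] at e1; simp at e1
    have n02 : h0 ≠ h2 := by
      rintro rfl; rw [e0] at e2; simp at e2
    have n12 : h1 ≠ h2 := by
      rintro rfl; rw [e1] at e2; simp at e2
    rcases hh0 with rfl | rfl <;> rcases hh1 with rfl | rfl <;> rcases hh2 with rfl | rfl <;>
      simp_all
  simp only [mem_insert, mem_image, mem_upper] at h1
  rcases h1 with h | h | ⟨z, hz, h⟩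
  · exact absurd h (key _)
  · exact absurd h (key _)
  · have hz3 := num_lt z
    have hz2 : z = x := num_inj (by omega)
    rw [← h, hz2]

theorem hub_image (c : C) (h : Fin (L + 1)) (hh : (seg c).val = h.val ∨ (seg c).val + 1 = h.val) :
    ∃ b, r (.inl h) = .inl b := by
  have hx : (.inl h : Fin (L + 1) ⊕ C × ((Fin m × Bool) ⊕ (Fin m × Fin 6))) ∈
      nbG seg spec c (atLevel (⟨0, hm⟩, false)) := by
    rw [mem_nbG]; exact hh
  have h1 := mem_image_of_mem r hx
  rw [image_upper hm hr] at h1
  simp only [mem_insert, mem_image, mem_upper] at h1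
  rcases h1 with h' | h' | ⟨z, _, h'⟩
  · exact ⟨_, h'⟩
  · exact ⟨_, h'⟩
  · exfalso
    rw [← clique_image hm hr c z] at h'
    have hz : (.inr (c, .inl z) : Fin (L + 1) ⊕ C × ((Fin m × Bool) ⊕ (Fin m × Fin 6))) ∈
        nbG seg spec c (atLevel (⟨0, hm⟩, false)) := by
      rw [mem_nbG]
      refine ⟨rfl, ?_⟩
      simp only [cadj, levG_atLevel]
      exact Nat.zero_le _
    have := inj_nbG hr hz hx h'
    cases this

/-- The colouring respects the lists. -/
theorem colour_list (c : C) (j : Fin m) (hs : spec c j = true) :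
    lst j (colour hm hr c) = true := by
  by_contra hne
  have hf : lst j (colour hm hr c) = false := by simpa using hne
  have hcov : ∀ i : Fin 5, levR lst (colour hm hr c) (j, i) ≤ 2 * j.val →
      ∃ i' : Fin 6, (i' = 0 ∨ i' = 1) ∧
        r (.inr (c, .inr (j, i'))) = .inr (colour hm hr c, .inr (j, i)) := by
    intro i hi
    have hadj : (graphR lst).Adj (r (.inr (c, .inl (j, false))))
        (.inr (colour hm hr c, .inr (j, i))) := by
      rw [clique_image hm hr]
      refine ⟨rfl, ?_⟩
      simpa [cadj, num] using hi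
    obtain ⟨v, hv, hv'⟩ := hr.surj hadj
    rcases v with h | ⟨c', y⟩
    · obtain ⟨b, hb⟩ := hub_image hm hr c h hv
      rw [hb] at hv'
      cases hv'
    · obtain ⟨h2, h3⟩ := hv
      simp only at h2
      subst h2
      rcases y with y | p
      · rw [clique_image hm hr] at hv'
        simp at hv'
      · obtain ⟨p', h4, h5⟩ := colour_spec hm hr c p
        rw [h4] at hv'
        simp only [Sum.inr.injEq, Prod.mk.injEq, true_and] at hv'
        subst hv'
        have h6 : levG spec c p ≤ num (j, false) := h3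
        simp only [num, Bool.toNat_false, add_zero] at h6
        have h7 : levR lst (colour hm hr c) (j, i) = 2 * j.val := by
          simp only [levR] at hi ⊢
          omega
        rw [h7] at h5
        obtain ⟨j', i'⟩ := p
        simp only [levG] at h5
        have hj' : j'.val = j.val := by
          split_ifs at h5
          · omega
          · omega
          · have := Bool.toNat_le (spec c j')
            omega
        have hj2 : j' = j := Fin.ext hj'
        subst hj2
        refine ⟨i', ?_, h4⟩
        split_ifs at h5 with g1 g2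
        · rcases Nat.lt_or_ge i'.val 1 with h8 | h8
          · exact Or.inl (Fin.ext (by simp; omega))
          · exact Or.inr (Fin.ext (by simp; omega))
        · omega
        · rw [hs] at h5
          simp at h5
  have l0 : levR lst (colour hm hr c) (j, 0) ≤ 2 * j.val := by simp [levR]
  have l1 : levR lst (colour hm hr c) (j, 1) ≤ 2 * j.val := by simp [levR]
  have l4 : levR lst (colour hm hr c) (j, 4) ≤ 2 * j.val := by simp [levR, hf]
  obtain ⟨h0, hh0, e0⟩ := hcov 0 l0
  obtain ⟨h1, hh1, e1⟩ := hcov 1 l1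
  obtain ⟨h2, hh2, e2⟩ := hcov 4 l4
  have n01 : h0 ≠ h1 := by
    rintro rfl; rw [e0] at e1; simp at e1
  have n02 : h0 ≠ h2 := by
    rintro rfl; rw [e0] at e2; simp at e2
  have n12 : h1 ≠ h2 := by
    rintro rfl; rw [e1] at e2; simp at e2
  rcases hh0 with rfl | rfl <;> rcases hh1 with rfl | rfl <;> rcases hh2 with rfl | rfl <;>
    simp_all

/-- Every hub next to some component sees all colours. -/
theorem colour_cover
    (hall : ∀ h : Fin (L + 1), ∃ c, (seg c).val = h.val ∨ (seg c).val + 1 = h.val)
    (h : Fin (L + 1)) (t : T) :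
    ∃ c, ((seg c).val = h.val ∨ (seg c).val + 1 = h.val) ∧ colour hm hr c = t := by
  obtain ⟨c₀, hh⟩ := hall h
  obtain ⟨b, hb⟩ := hub_image hm hr c₀ h hh
  have hadj : (graphR lst).Adj (r (.inl h)) (.inr (t, .inl (⟨0, hm⟩, false))) := by
    rw [hb]; trivial
  obtain ⟨v, hv, hv'⟩ := hr.surj hadj
  rcases v with h' | ⟨c, y⟩
  · exfalso
    obtain ⟨c₁, hh₁⟩ := hall h'
    obtain ⟨b', hb'⟩ := hub_image hm hr c₁ h' hh₁
    rw [hb'] at hv'
    cases hv'
  · refine ⟨c, hv, ?_⟩
    rcases y with y | p
    · rw [clique_image hm hr] at hv'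
      simp only [Sum.inr.injEq, Prod.mk.injEq] at hv'
      exact hv'.1
    · obtain ⟨p', h4, _⟩ := colour_spec hm hr c p
      rw [h4] at hv'
      simp only [Sum.inr.injEq, Prod.mk.injEq, reduceCtorEq, and_false] at hv'

end Backward

end Pool.Agent.Lib.MP_a950c6_lc
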