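import Pool.Agent.Lib.MP_a950c6_lc.Gadget

/-!
# The graph `G` of the reduction is an interval graph
-/

namespace Pool.Agent.Lib.MP_a950c6_lc

lemma isIntervalGraph_of_nat {V : Type} {G : SimpleGraph V} (a b : V → ℕ) (hab : ∀ v, a v ≤ b v)
    (h : ∀ u v, G.Adj u v ↔ u ≠ v ∧ a u ≤ b v ∧ a v ≤ b u) : IsIntervalGraph G := by
  refine ⟨fun v => a v, fun v => b v, fun v => Nat.cast_le.2 (hab v), fun u v => ?_⟩
  rw [h]
  refine and_congr_right fun _ => ?_
  constructor
  · rintro ⟨h1, h2⟩
    exact ⟨max (a u : ℝ) (a v), ⟨le_max_left _ _, max_le (Nat.cast_le.2 (hab u))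
      (Nat.cast_le.2 h2)⟩, ⟨le_max_right _ _, max_le (Nat.cast_le.2 h1) (Nat.cast_le.2 (hab v))⟩⟩
  · rintro ⟨x, ⟨h1, h2⟩, h3, h4⟩
    exact ⟨Nat.cast_le.1 (h1.trans h4), Nat.cast_le.1 (h3.trans h2)⟩

variable {m L : ℕ} {C : Type}

/-- Position of a pendant vertex among those of its level. -/
def slot (spec : C → Fin m → Bool) (c : C) (p : Fin m × Fin 6) : ℕ :=
  match p.2 with
  | 0 => 0
  | 1 => 1
  | 2 => 0
  | 3 => 1
  | 4 => 2
  | 5 => 2 + (spec c p.1).toNat

/-- Position of a pendant vertex in its component. -/
def ppos (spec : C → Fin m → Bool) (c : C) (p : Fin m × Fin 6) : ℕ :=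
  4 * levG spec c p + slot spec c p

lemma slot_le (spec : C → Fin m → Bool) (c : C) (p : Fin m × Fin 6) : slot spec c p ≤ 3 := by
  obtain ⟨j, x⟩ := p
  have := Bool.toNat_le (spec c j)
  fin_cases x <;> simp [slot]
  omega

lemma ppos_inj (spec : C → Fin m → Bool) (c : C) {p q : Fin m × Fin 6}
    (h : ppos spec c p = ppos spec c q) : p = q := by
  have h1 := slot_le spec c p
  have h2 := slot_le spec c q
  obtain ⟨j, x⟩ := p
  obtain ⟨j', x'⟩ := q
  simp only [ppos, levG] at h
  have hj : j.val = j'.val := by
    have e1 := Bool.toNat_le (spec c j)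
    have e2 := Bool.toNat_le (spec c j')
    split_ifs at h <;> omega
  have hj' : j = j' := Fin.ext hj
  subst hj'
  rcases Bool.eq_false_or_eq_true (spec c j) with hs | hs <;>
    fin_cases x <;> fin_cases x' <;> simp_all [slot] <;> omega

section

variable (seg : C → Fin L) (spec : C → Fin m → Bool) (K : ℕ) (idx : C → Fin K)

/-- Left end of the block of a component. -/
def off (m : ℕ) (c : C) : ℕ := ((seg c).val + 1) * (K * (8 * m)) + (idx c).val * (8 * m)

/-- Left ends of the intervals. -/
def lft : Fin (L + 1) ⊕ C × ((Fin m × Bool) ⊕ (Fin m × Fin 6)) → ℕ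
  | .inl h => h.val * (K * (8 * m))
  | .inr (c, .inl _) => off seg K idx m c
  | .inr (c, .inr p) => off seg K idx m c + ppos spec c p

/-- Right ends of the intervals. -/
def rgt : Fin (L + 1) ⊕ C × ((Fin m × Bool) ⊕ (Fin m × Fin 6)) → ℕ
  | .inl h => (h.val + 2) * (K * (8 * m)) - 1
  | .inr (c, .inl x) => off seg K idx m c + (4 * num x + 3)
  | .inr (c, .inr p) => off seg K idx m c + ppos spec c p

variable {seg spec K idx}

lemma block_bounds (c : C) (x : (Fin m × Bool) ⊕ (Fin m × Fin 6)) :
    off seg K idx m c ≤ lft seg spec K idx (.inr (c, x)) ∧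
      rgt seg spec K idx (.inr (c, x)) < off seg K idx m c + 8 * m ∧
      lft seg spec K idx (.inr (c, x)) ≤ rgt seg spec K idx (.inr (c, x)) := by
  rcases x with x | p
  · have := num_lt x
    simp only [lft, rgt]
    omega
  · have h1 := slot_le spec c p
    have h2 := levG_lt spec c p
    simp only [lft, rgt, ppos]
    omega

lemma off_bounds (c : C) : ((seg c).val + 1) * (K * (8 * m)) ≤ off seg K idx m c ∧
    off seg K idx m c + 8 * m ≤ ((seg c).val + 2) * (K * (8 * m)) := by
  have h := (idx c).isLt
  have h1 : ((idx c).val + 1) * (8 * m) ≤ K * (8 * m) := Nat.mul_le_mul_right _ h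
  constructor
  · simp only [off]; omega
  · simp only [off]
    have : ((seg c).val + 2) * (K * (8 * m)) =
      ((seg c).val + 1) * (K * (8 * m)) + K * (8 * m) := by ring
    rw [this]
    have : ((idx c).val + 1) * (8 * m) = (idx c).val * (8 * m) + 8 * m := by ring
    omega

lemma off_sep (hidx : Function.Injective idx) {c c' : C} (h : c ≠ c') :
    off seg K idx m c + 8 * m ≤ off seg K idx m c' ∨ off seg K idx m c' + 8 * m ≤ off seg K idx m c := by
  have b1 := off_bounds (m := m) (seg := seg) (idx := idx) c
  have b2 := off_bounds (m := m) (seg := seg) (idx := idx) c'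
  rcases lt_trichotomy (seg c).val (seg c').val with hs | hs | hs
  · left
    have : ((seg c).val + 2) * (K * (8 * m)) ≤ ((seg c').val + 1) * (K * (8 * m)) :=
      Nat.mul_le_mul_right _ (by omega)
    omega
  · have hne : (idx c).val ≠ (idx c').val := fun he => h (hidx (Fin.ext he))
    rcases Nat.lt_or_gt_of_ne hne with h1 | h1
    · left
      have : ((idx c).val + 1) * (8 * m) ≤ (idx c').val * (8 * m) := Nat.mul_le_mul_right _ h1
      simp only [off, hs]
      have e : ((idx c).val + 1) * (8 * m) = (idx c).val * (8 * m) + 8 * m := by ring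
      omega
    · right
      have : ((idx c').val + 1) * (8 * m) ≤ (idx c).val * (8 * m) := Nat.mul_le_mul_right _ h1
      simp only [off, hs]
      have e : ((idx c').val + 1) * (8 * m) = (idx c').val * (8 * m) + 8 * m := by ring
      omega
  · right
    have : ((seg c').val + 2) * (K * (8 * m)) ≤ ((seg c).val + 1) * (K * (8 * m)) :=
      Nat.mul_le_mul_right _ (by omega)
    omega

end

theorem graphG_interval [Fintype C] [Nonempty C] (hm : 0 < m) (seg : C → Fin L)
    (spec : C → Fin m → Bool) : IsIntervalGraph (graphG seg spec) := by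
  set K := Fintype.card C with hK
  have hKpos : 0 < K := Fintype.card_pos
  obtain ⟨idx, hinj⟩ : ∃ idx : C → Fin K, Function.Injective idx :=
    ⟨fun c => Fintype.equivFin C c, (Fintype.equivFin C).injective⟩
  obtain ⟨P, hP⟩ : ∃ P, P = K * (8 * m) := ⟨_, rfl⟩
  have hPpos : 0 < P := by rw [hP]; positivity
  have hmono : ∀ x y : ℕ, x < y → x * P + P ≤ y * P := by
    intro x y hxy
    have : (x + 1) * P ≤ y * P := Nat.mul_le_mul_right _ hxy
    nlinarith
  apply isIntervalGraph_of_nat (lft seg spec K idx) (rgt seg spec K idx)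
  · rintro (h | ⟨c, x⟩)
    · simp only [lft, rgt]
      rw [← hP]
      have := hmono h.val (h.val + 2) (by omega)
      omega
    · exact (block_bounds c x).2.2
  · have hubcomp : ∀ (h : Fin (L + 1)) (c : C) (x : (Fin m × Bool) ⊕ (Fin m × Fin 6)),
        ((seg c).val = h.val ∨ (seg c).val + 1 = h.val) ↔
          lft seg spec K idx (.inl h) ≤ rgt seg spec K idx (.inr (c, x)) ∧
            lft seg spec K idx (.inr (c, x)) ≤ rgt seg spec K idx (.inl h) := by
      intro h c x
      obtain ⟨b1, b2, b3⟩ := block_bounds (seg := seg) (spec := spec) (K := K) (idx := idx) c x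
      obtain ⟨b4, b5⟩ := off_bounds (m := m) (seg := seg) (K := K) (idx := idx) c
      rw [← hP] at b4 b5
      have e1 : lft seg spec K idx (.inl h) = h.val * P := by rw [hP]; rfl
      have e2 : rgt seg spec K idx (.inl h) = (h.val + 2) * P - 1 := by rw [hP]; rfl
      rw [e1, e2]
      constructor
      · intro hc
        have h1 : h.val * P ≤ ((seg c).val + 1) * P := Nat.mul_le_mul_right _ (by omega)
        have h2 : ((seg c).val + 2) * P ≤ (h.val + 2) * P := Nat.mul_le_mul_right _ (by omega)
        omega
      · rintro ⟨h1, h2⟩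
        by_contra hcon
        push Not at hcon
        rcases Nat.lt_or_ge (seg c).val h.val with h3 | h3
        · have h4 : ((seg c).val + 2) * P ≤ h.val * P := Nat.mul_le_mul_right _ (by omega)
          omega
        · have h4 : (h.val + 2) * P ≤ ((seg c).val + 1) * P := Nat.mul_le_mul_right _ (by omega)
          have h5 := hmono 0 (h.val + 2) (by omega)
          omega
    rintro (h | ⟨c, x⟩) (h' | ⟨c', x'⟩)
    · change (h.val + 1 = h'.val ∨ h'.val + 1 = h.val) ↔ _
      simp only [lft, rgt, ne_eq, Sum.inl.injEq]
      rw [← hP]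
      constructor
      · intro hh
        refine ⟨fun he => by rw [he] at hh; omega, ?_⟩
        have h1 := hmono h.val (h'.val + 2) (by omega)
        have h2 := hmono h'.val (h.val + 2) (by omega)
        omega
      · rintro ⟨hne, h1, h2⟩
        have hne' : h.val ≠ h'.val := fun he => hne (Fin.ext he)
        by_contra hcon
        rcases Nat.lt_or_ge h.val h'.val with h3 | h3
        · have h4 : (h.val + 2) * P ≤ h'.val * P := Nat.mul_le_mul_right _ (by omega)
          have h5 := hmono 0 (h.val + 2) (by omega)
          omega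
        · have h4 : (h'.val + 2) * P ≤ h.val * P := Nat.mul_le_mul_right _ (by omega)
          have h5 := hmono 0 (h'.val + 2) (by omega)
          omega
    · change ((seg c').val = h.val ∨ (seg c').val + 1 = h.val) ↔ _
      rw [hubcomp h c' x']
      simp
    · change ((seg c).val = h'.val ∨ (seg c).val + 1 = h'.val) ↔ _
      rw [hubcomp h' c x]
      simp only [ne_eq, reduceCtorEq, not_false_eq_true, true_and]
      exact and_comm
    · by_cases hcc : c = c'
      · subst hcc
        have hadj : (graphG seg spec).Adj (.inr (c, x)) (.inr (c, x')) ↔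
            cadj (levG spec c) x x' := by
          change c = c ∧ _ ↔ _
          simp
        rw [hadj]
        rcases x with x | p <;> rcases x' with x' | p'
        · simp only [cadj, lft, rgt, ne_eq, Sum.inr.injEq, Prod.mk.injEq, Sum.inl.injEq, true_and]
          constructor
          · intro h; exact ⟨h, by omega, by omega⟩
          · intro h; exact h.1
        · have h1 := slot_le spec c p'
          simp only [cadj, lft, rgt, ppos, ne_eq, Sum.inr.injEq, Prod.mk.injEq, reduceCtorEq,
            and_false, not_false_eq_true, true_and]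
          omega
        · have h1 := slot_le spec c p
          simp only [cadj, lft, rgt, ppos, ne_eq, Sum.inr.injEq, Prod.mk.injEq, reduceCtorEq,
            and_false, not_false_eq_true, true_and]
          omega
        · simp only [cadj, lft, rgt, ne_eq, Sum.inr.injEq, Prod.mk.injEq, true_and, false_iff,
            not_and]
          intro hne h1 h2
          exact hne (ppos_inj spec c (by omega))
      · have hadj : ¬ (graphG seg spec).Adj (.inr (c, x)) (.inr (c', x')) := by
          rintro ⟨h, _⟩
          exact hcc h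
        constructor
        · intro h; exact absurd h hadj
        · rintro ⟨_, h1, h2⟩
          exfalso
          obtain ⟨b1, b2, b3⟩ := block_bounds (seg := seg) (spec := spec) (K := K) (idx := idx) c x
          obtain ⟨b4, b5, b6⟩ :=
            block_bounds (seg := seg) (spec := spec) (K := K) (idx := idx) c' x'
          rcases off_sep (m := m) (seg := seg) hinj hcc with h3 | h3 <;> omega

end Pool.Agent.Lib.MP_a950c6_lc
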