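import Pool.Agent.Lib.MP_a950c6_lc.Back
import Pool.Agent.Lib.MP_a950c6_lc.Interval

/-!
# Role assignments and hitting sets
-/

namespace Pool.Agent.Lib.MP_a950c6_lc

open Finset Classical

variable {m : ℕ} {T I : Type}

/-- `S` hits all lists. -/
def Hits (lst : Fin m → T → Bool) (S : Finset T) : Prop := ∀ j, ∃ t ∈ S, lst j t = true

lemma exists_onto [Fintype I] (i₀ : I) {S : Finset T} (hS : S.card = Fintype.card I) {t : T}
    (ht : t ∈ S) : ∃ f : I → T, (∀ s ∈ S, ∃ i, f i = s) ∧ f i₀ = t := by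
  have e : I ≃ S := Fintype.equivOfCardEq (by rw [Fintype.card_coe, hS])
  refine ⟨fun i => (Equiv.swap (e i₀) ⟨t, ht⟩ (e i)).1, fun s hs => ?_, by simp⟩
  refine ⟨e.symm (Equiv.swap (e i₀) ⟨t, ht⟩ ⟨s, hs⟩), ?_⟩
  simp

variable [Fintype T] [Fintype I] [DecidableEq I]

theorem role_of_hits (i₀ : I) (hm : 0 < m) (hcard : Fintype.card T = 2 * Fintype.card I)
    {lst : Fin m → T → Bool} {S : Finset T} (hS : S.card = Fintype.card I) (hH : Hits lst S) :
    ∃ r, IsRoleAssignment (graphG (segOf (m := m) (T := T) (I := I)) (specOf i₀)) (graphR lst) r := by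
  choose τ hτS hτ using hH
  choose f hf hf0 using fun j => exists_onto i₀ hS (hτS j)
  have hSc : (Sᶜ).card = Fintype.card I := by rw [card_compl, hS, hcard]; omega
  have hne : (Sᶜ).Nonempty := by
    rw [← card_pos, hSc]; exact Fintype.card_pos_iff.2 ⟨i₀⟩
  obtain ⟨t₁, ht₁⟩ := hne
  obtain ⟨g, hg, -⟩ := exists_onto i₀ hSc ht₁
  let col : CIdx m T I → T := fun c => match c with
    | .inl (_, t) => t
    | .inr (_, false, i) => g i
    | .inr (j, true, i) => f j i
  refine ⟨mkRole lst (specOf i₀) col, mkRole_spec col ?_ (by omega) ?_⟩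
  · rintro (⟨b, t⟩ | ⟨j, b, i⟩) j' hs
    · simp [specOf] at hs
    · cases b
      · simp [specOf] at hs
      · simp only [specOf, Bool.and_eq_true, decide_eq_true_eq] at hs
        obtain ⟨rfl, rfl⟩ := hs
        change lst j' (f j' i) = true
        rw [hf0]; exact hτ j'
  · intro h t
    have hh := h.isLt
    by_cases h0 : h.val ≤ 1
    · refine ⟨.inl (false, t), ?_, rfl⟩
      change 0 = h.val ∨ 0 + 1 = h.val
      omega
    by_cases h1 : 2 * m + 1 ≤ h.val
    · refine ⟨.inl (true, t), ?_, rfl⟩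
      change 2 * m + 1 = h.val ∨ 2 * m + 1 + 1 = h.val
      omega
    -- a hub in the middle
    by_cases ht : t ∈ S
    · -- covered by the second segment of a clause
      have hj : (h.val - 2) / 2 < m := by omega
      obtain ⟨i, hi⟩ := hf ⟨(h.val - 2) / 2, hj⟩ t ht
      refine ⟨.inr (⟨(h.val - 2) / 2, hj⟩, true, i), ?_, hi⟩
      change 2 * ((h.val - 2) / 2) + 1 + 1 = h.val ∨ 2 * ((h.val - 2) / 2) + 1 + 1 + 1 = h.val
      omega
    · obtain ⟨i, hi⟩ := hg t (mem_compl.2 ht)
      have hj : (h.val - 1) / 2 < m := by omega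
      refine ⟨.inr (⟨(h.val - 1) / 2, hj⟩, false, i), ?_, hi⟩
      change 2 * ((h.val - 1) / 2) + 1 + 0 = h.val ∨ 2 * ((h.val - 1) / 2) + 1 + 0 + 1 = h.val
      omega

omit [Fintype T] [Fintype I] [DecidableEq I] in
lemma hub_all (i₀ : I) [Nonempty T] (h : Fin (2 * m + 2 + 1)) :
    ∃ c : CIdx m T I, (segOf c).val = h.val ∨ (segOf c).val + 1 = h.val := by
  have hh := h.isLt
  by_cases h0 : h.val ≤ 1
  · refine ⟨.inl (false, Classical.arbitrary T), ?_⟩
    change 0 = h.val ∨ 0 + 1 = h.val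
    omega
  · have hj : (h.val - 2) / 2 < m ∨ h.val = 2 * m + 2 := by omega
    rcases hj with hj | hj
    · refine ⟨.inr (⟨(h.val - 2) / 2, hj⟩, true, i₀), ?_⟩
      change 2 * ((h.val - 2) / 2) + 1 + 1 = h.val ∨ 2 * ((h.val - 2) / 2) + 1 + 1 + 1 = h.val
      omega
    · refine ⟨.inl (true, Classical.arbitrary T), ?_⟩
      change 2 * m + 1 = h.val ∨ 2 * m + 1 + 1 = h.val
      omega

theorem hits_of_role (i₀ : I) (hm : 0 < m) (hcard : Fintype.card T = 2 * Fintype.card I)
    {lst : Fin m → T → Bool}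
    (h : ∃ r, IsRoleAssignment (graphG (segOf (m := m) (T := T) (I := I)) (specOf i₀))
      (graphR lst) r) :
    ∃ S : Finset T, S.card = Fintype.card I ∧ Hits lst S := by
  obtain ⟨r, hr⟩ := h
  have hI : 0 < Fintype.card I := Fintype.card_pos_iff.2 ⟨i₀⟩
  have : Nontrivial T := Fintype.one_lt_card_iff_nontrivial.1 (by omega)
  set col := colour hm hr with hcol
  have hlist := colour_list hm hr
  have hcov := colour_cover hm hr (hub_all i₀)
  rw [← hcol] at hlist hcov
  let A : Fin m → Finset T := fun j => univ.image fun i => col (.inr (j, false, i))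
  let B : Fin m → Finset T := fun j => univ.image fun i => col (.inr (j, true, i))
  have cA : ∀ j, (A j).card ≤ Fintype.card I := fun j => card_image_le
  have cB : ∀ j, (B j).card ≤ Fintype.card I := fun j => card_image_le
  have compl_of : ∀ X Y : Finset T, X.card ≤ Fintype.card I → Y.card ≤ Fintype.card I →
      (∀ t, t ∈ X ∨ t ∈ Y) → X.card = Fintype.card I ∧ Y = Xᶜ := by
    intro X Y hX hY hXY
    have h1 : Xᶜ ⊆ Y := by
      intro t ht
      rcases hXY t with h | h
      · exact absurd h (mem_compl.1 ht)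
      · exact h
    have h2 := card_le_card h1
    rw [card_compl, hcard] at h2
    have h3 : X.card = Fintype.card I := by omega
    refine ⟨h3, (eq_of_subset_of_card_le h1 ?_).symm⟩
    rw [card_compl, hcard, h3]
    omega
  have hAB : ∀ j, (B j).card = Fintype.card I ∧ A j = (B j)ᶜ := by
    intro j
    apply compl_of _ _ (cB j) (cA j)
    intro t
    have hj := j.isLt
    obtain ⟨c, hc, hct⟩ := hcov ⟨2 * j.val + 2, by omega⟩ t
    rcases c with ⟨b, t'⟩ | ⟨j', b, i⟩
    · cases b
      · change 0 = 2 * j.val + 2 ∨ 0 + 1 = 2 * j.val + 2 at hc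
        omega
      · change 2 * m + 1 = 2 * j.val + 2 ∨ 2 * m + 1 + 1 = 2 * j.val + 2 at hc
        omega
    · cases b
      · change 2 * j'.val + 1 + 0 = 2 * j.val + 2 ∨ 2 * j'.val + 1 + 0 + 1 = 2 * j.val + 2 at hc
        have : j' = j := Fin.ext (by omega)
        subst this
        exact Or.inr (mem_image.2 ⟨i, mem_univ _, hct⟩)
      · change 2 * j'.val + 1 + 1 = 2 * j.val + 2 ∨ 2 * j'.val + 1 + 1 + 1 = 2 * j.val + 2 at hc
        have : j' = j := Fin.ext (by omega)
        subst this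
        exact Or.inl (mem_image.2 ⟨i, mem_univ _, hct⟩)
  have hBA : ∀ j : Fin m, ∀ hj : j.val + 1 < m, A ⟨j.val + 1, hj⟩ = (B j)ᶜ := by
    intro j hj
    refine (compl_of _ _ (cB j) (cA ⟨j.val + 1, hj⟩) ?_).2
    intro t
    obtain ⟨c, hc, hct⟩ := hcov ⟨2 * j.val + 3, by omega⟩ t
    rcases c with ⟨b, t'⟩ | ⟨j', b, i⟩
    · cases b
      · change 0 = 2 * j.val + 3 ∨ 0 + 1 = 2 * j.val + 3 at hc
        omega
      · change 2 * m + 1 = 2 * j.val + 3 ∨ 2 * m + 1 + 1 = 2 * j.val + 3 at hc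
        omega
    · cases b
      · change 2 * j'.val + 1 + 0 = 2 * j.val + 3 ∨ 2 * j'.val + 1 + 0 + 1 = 2 * j.val + 3 at hc
        have : j' = ⟨j.val + 1, hj⟩ := Fin.ext (by simp; omega)
        subst this
        exact Or.inr (mem_image.2 ⟨i, mem_univ _, hct⟩)
      · change 2 * j'.val + 1 + 1 = 2 * j.val + 3 ∨ 2 * j'.val + 1 + 1 + 1 = 2 * j.val + 3 at hc
        have : j' = j := Fin.ext (by omega)
        subst this
        exact Or.inl (mem_image.2 ⟨i, mem_univ _, hct⟩)
  have hB : ∀ k (hk : k < m), B ⟨k, hk⟩ = B ⟨0, hm⟩ := by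
    intro k
    induction k with
    | zero => intro _; rfl
    | succ k ih =>
      intro hk
      rw [← ih (by omega)]
      have h1 := (hAB ⟨k + 1, hk⟩).2
      have h2 := hBA ⟨k, by omega⟩ hk
      rw [h2] at h1
      exact (compl_injective h1).symm
  refine ⟨B ⟨0, hm⟩, (hAB _).1, fun j => ?_⟩
  refine ⟨col (.inr (j, true, i₀)), ?_, ?_⟩
  · rw [← hB j.val j.isLt]
    exact mem_image.2 ⟨i₀, mem_univ _, rfl⟩
  · apply hlist
    simp [specOf]

/-- Some assignment makes a literal of every clause true. -/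
def Satisfiable (lst : Fin m → I × Bool → Bool) : Prop :=
  ∃ v : I → Bool, ∀ j, ∃ t : I × Bool, lst j t = true ∧ v t.1 = t.2

omit [Fintype T] [DecidableEq I] in
theorem sat_iff_hits {lst : Fin m → I × Bool → Bool}
    (hpair : ∀ i, ∃ j, ∀ t, lst j t = true ↔ t.1 = i) :
    Satisfiable lst ↔ ∃ S : Finset (I × Bool), S.card = Fintype.card I ∧ Hits lst S := by
  constructor
  · rintro ⟨v, hv⟩
    refine ⟨univ.image fun i => (i, v i), ?_, fun j => ?_⟩
    · rw [card_image_of_injective _ (fun a b h => (Prod.ext_iff.1 h).1), card_univ]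
    · obtain ⟨t, ht, hvt⟩ := hv j
      exact ⟨t, mem_image.2 ⟨t.1, mem_univ _, Prod.ext rfl hvt⟩, ht⟩
  · rintro ⟨S, hS, hH⟩
    have hex : ∀ i, ∃ b, (i, b) ∈ S := by
      intro i
      obtain ⟨j, hj⟩ := hpair i
      obtain ⟨t, htS, ht⟩ := hH j
      rw [hj] at ht
      exact ⟨t.2, ht ▸ htS⟩
    choose v hv using hex
    refine ⟨v, fun j => ?_⟩
    have hSeq : univ.image (fun i => (i, v i)) = S := by
      apply eq_of_subset_of_card_le
      · intro x hx
        obtain ⟨i, _, rfl⟩ := mem_image.1 hx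
        exact hv i
      · rw [card_image_of_injective _ (fun a b h => (Prod.ext_iff.1 h).1), card_univ, hS]
    obtain ⟨t, htS, ht⟩ := hH j
    rw [← hSeq] at htS
    obtain ⟨i, _, rfl⟩ := mem_image.1 htS
    exact ⟨_, ht, rfl⟩

/-- The reduction: satisfiability of a family of clauses, which contains for every variable `i` the
clause `i ∨ ¬ i`, is equivalent to the existence of a role assignment. -/
theorem sat_iff_role (i₀ : I) (hm : 0 < m) {lst : Fin m → I × Bool → Bool}
    (hpair : ∀ i, ∃ j, ∀ t, lst j t = true ↔ t.1 = i) :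
    Satisfiable lst ↔ ∃ r, IsRoleAssignment
      (graphG (segOf (m := m) (T := I × Bool) (I := I)) (specOf i₀)) (graphR lst) r := by
  have hcard : Fintype.card (I × Bool) = 2 * Fintype.card I := by
    rw [Fintype.card_prod, Fintype.card_bool, mul_comm]
  rw [sat_iff_hits hpair]
  constructor
  · rintro ⟨S, hS, hH⟩
    exact role_of_hits i₀ hm hcard hS hH
  · intro h
    exact hits_of_role i₀ hm hcard h

end Pool.Agent.Lib.MP_a950c6_lc
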