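import Pool.Agent.Lib.MP_a950c6_lc.Defs

/-!
# The graphs of the reduction: definitions
-/

namespace Pool.Agent.Lib.MP_a950c6_lc

variable {m L : ℕ}

/-- The number of a level. -/
def num (x : Fin m × Bool) : ℕ := 2 * x.1.val + x.2.toNat

/-- Adjacency inside a component: a clique with one vertex at each level, and pendant vertices,
each adjacent to the clique vertices at its own and higher levels. -/
def cadj {P : Type} (lev : P → ℕ) : (Fin m × Bool) ⊕ P → (Fin m × Bool) ⊕ P → Prop
  | .inl x, .inl y => x ≠ y
  | .inl x, .inr p => lev p ≤ num x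
  | .inr p, .inl x => lev p ≤ num x
  | .inr _, .inr _ => False

/-- A graph made of hubs and components. -/
def glue {H C P : Type} (hadj : H → H → Prop) (hs : ∀ a b, hadj a b → hadj b a)
    (hi : ∀ a, ¬ hadj a a) (inc : H → C → Prop) (lev : C → P → ℕ) :
    SimpleGraph (H ⊕ C × ((Fin m × Bool) ⊕ P)) where
  Adj u v := match u, v with
    | .inl h, .inl h' => hadj h h'
    | .inl h, .inr c => inc h c.1
    | .inr c, .inl h => inc h c.1
    | .inr c, .inr c' => c.1 = c'.1 ∧ cadj (lev c.1) c.2 c'.2
  symm := ⟨by
    rintro (h | ⟨c, x⟩) (h' | ⟨c', x'⟩) huv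
    · exact hs _ _ huv
    · exact huv
    · exact huv
    · obtain ⟨h1, h2⟩ := huv
      simp only at h1
      subst h1
      refine ⟨rfl, ?_⟩
      cases x <;> cases x' <;> simp only [cadj] at h2 ⊢
      · exact h2.symm
      · exact h2
      · exact h2⟩
  loopless := ⟨by
    rintro (h | ⟨c, x⟩) huv
    · exact hi _ huv
    · obtain ⟨_, h2⟩ := huv
      cases x <;> simp only [cadj] at h2
      exact h2 rfl⟩

/-- Levels of the pendant vertices of a component of `R`. -/
def levR {T : Type} (lst : Fin m → T → Bool) (t : T) (p : Fin m × Fin 5) : ℕ :=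
  2 * p.1.val + if p.2.val < 2 then 0 else if p.2.val < 4 then 1 else (lst p.1 t).toNat

/-- Levels of the pendant vertices of a component of `G`. -/
def levG {C : Type} (spec : C → Fin m → Bool) (c : C) (p : Fin m × Fin 6) : ℕ :=
  2 * p.1.val + if p.2.val < 2 then 0 else if p.2.val < 5 then 1 else (spec c p.1).toNat

/-- The graph `R`: two hubs, and one component for every colour `t`. -/
def graphR {T : Type} (lst : Fin m → T → Bool) :
    SimpleGraph (Bool ⊕ T × ((Fin m × Bool) ⊕ (Fin m × Fin 5))) :=
  glue (fun a b => a ≠ b) (fun _ _ h => h.symm) (fun _ h => h rfl) (fun _ _ => True) (levR lst)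

/-- The graph `G`: a path of `L + 1` hubs, and components attached to consecutive hubs. -/
def graphG {C : Type} (seg : C → Fin L) (spec : C → Fin m → Bool) :
    SimpleGraph (Fin (L + 1) ⊕ C × ((Fin m × Bool) ⊕ (Fin m × Fin 6))) :=
  glue (fun a b => a.val + 1 = b.val ∨ b.val + 1 = a.val) (fun _ _ h => h.symm)
    (fun _ h => by omega) (fun h c => (seg c).val = h.val ∨ (seg c).val + 1 = h.val) (levG spec)

variable {T I : Type}

/-- Indices of the components of `G`: one for every colour in the first and in the last segment,
and one for every element of `I` in each of the `2 * m` segments in between. -/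
abbrev CIdx (m : ℕ) (T I : Type) := (Bool × T) ⊕ (Fin m × Bool × I)

/-- The segment of a component. -/
def segOf : CIdx m T I → Fin (2 * m + 2)
  | .inl (false, _) => ⟨0, by omega⟩
  | .inl (true, _) => ⟨2 * m + 1, by omega⟩
  | .inr (j, b, _) => ⟨2 * j.val + 1 + b.toNat, by
      have := j.isLt
      have := Bool.toNat_le b
      omega⟩

/-- The only restricted component of the second segment of each clause. -/
def specOf [DecidableEq I] (i₀ : I) : CIdx m T I → Fin m → Bool
  | .inr (j, true, i), j' => decide (j' = j) && decide (i = i₀)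
  | _, _ => false

end Pool.Agent.Lib.MP_a950c6_lc
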