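import Mathlib

/-!
# Role assignments and interval graphs
-/

namespace Pool.Agent.Lib.MP_a950c6_lc

/-- `r` is an `R`-role assignment of `G` (a locally surjective homomorphism from `G` to `R`): for
every vertex `u`, the neighbours of `u` are mapped onto the neighbourhood of `r u`. -/
def IsRoleAssignment {V W : Type} (G : SimpleGraph V) (R : SimpleGraph W) (r : V → W) : Prop :=
  ∀ u, r '' G.neighborSet u = R.neighborSet (r u)

/-- `G` is an interval graph: its vertices can be represented by closed intervals of the real line
so that two distinct vertices are adjacent exactly when their intervals intersect. -/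
def IsIntervalGraph {V : Type} (G : SimpleGraph V) : Prop :=
  ∃ a b : V → ℝ, (∀ v, a v ≤ b v) ∧
    ∀ u v, G.Adj u v ↔ u ≠ v ∧ (Set.Icc (a u) (b u) ∩ Set.Icc (a v) (b v)).Nonempty

end Pool.Agent.Lib.MP_a950c6_lc
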