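import Pool.Agent.Lib.MP_75fd85_lc.Red

/-!
# Digit variables and definable predicates for the reduction program
-/

namespace Pool.Agent.Lib.MP_a950c6_lc

set_option linter.unusedSectionVars false
set_option linter.unusedSimpArgs false

open Pool.Agent.Lib.PolyTM Pool.Agent.Lib.PolyTM.Tab Function
open Pool.Agent.Lib.MP_75fd85_lc (dx nv DV PosV Twin ar1 radP_dx good_dx dvar_dx nv_lt nv_append
  idx idx_lt idx_div idx_mid idx_mod consts spx Sc4 sc4 Mem memF Pn shape_spx consts_dx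
  consts_append radS_spx vars_spx eval_ff0 eval_memF inS_dx wf_memF)

/-! ### Comparison of numbers -/

section Lt

variable {L : Type} [DecidableEq L] {W : Type} [DecidableEq W] {N : ℕ} {a : Arr W} {e : Vr L → ℕ}

/-- The first digit is smaller. -/
def ltD : Dg (Vr L) → Dg (Vr L) → Fml (Vr L) W
  | .c _ v, .c _ v' => cst (decide (v < v'))
  | .x x, .x y => .lt x y
  | _, _ => ff0

/-- The first number is smaller. -/
def ltT : List (Dg (Vr L)) → List (Dg (Vr L)) → Fml (Vr L) W
  | d :: ds, d' :: ds' => .or (ltD d d') (.and (eqD d d') (ltT ds ds'))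
  | _, _ => ff0

theorem eval_ltD {d d' : Dg (Vr L)} (hs : Sim d d') :
    (ltD d d' : Fml (Vr L) W).eval N a e = true ↔ d.val e < d'.val e := by
  cases d with
  | c r v =>
    cases d' with
    | c r' v' => simp [ltD, eval_cst, Dg.val]
    | x x => exact absurd hs (by simp [Sim])
  | x x =>
    cases d' with
    | c r' v' => exact absurd hs (by simp [Sim])
    | x y => rw [ltD, Fml.eval_lt]; rfl

theorem eval_ltT {ds ds' : List (Dg (Vr L))} (hs : List.Forall₂ Sim ds ds')
    (h : Good N e ds) (h' : Good N e ds') :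
    (ltT ds ds' : Fml (Vr L) W).eval N a e = true ↔ PolyTM.num N e ds < PolyTM.num N e ds' := by
  induction hs with
  | nil => simp [ltT, ff0, Fml.eval, eval_tt0, PolyTM.num]
  | @cons d d' ds ds' h1 h2 ih =>
    obtain ⟨g1, g2⟩ := h.cons
    obtain ⟨g1', g2'⟩ := h'.cons
    have i2 := (eval_eqT (a := a) h2 g2 g2').2
    rw [ltT, Fml.eval_or, Fml.eval_and, ih g2 g2', eval_ltD h1, eval_eqD h1, PolyTM.num,
      PolyTM.num, ← i2]
    have h3 := num_lt g2
    have h3' := num_lt g2'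
    rw [← i2] at h3'
    constructor
    · rintro (h5 | ⟨h5, h6⟩)
      · have := Nat.mul_le_mul_right (radP N ds) (show d.val e + 1 ≤ d'.val e by omega)
        nlinarith
      · rw [h5]; omega
    · intro h5
      rcases Nat.lt_trichotomy (d.val e) (d'.val e) with h7 | h7 | h7
      · exact Or.inl h7
      · right
        rw [h7] at h5
        exact ⟨h7, by omega⟩
      · exfalso
        have := Nat.mul_le_mul_right (radP N ds) h7
        nlinarith

variable {ar : W → ℕ} {F : List (Vr L)}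

theorem wf_ltD (hF : Scope F) {d d' : Dg (Vr L)} (hs : Sim d d') (hd : InS F [d])
    (hd' : InS F [d']) : (ltD d d' : Fml (Vr L) W).wf ar F = true := by
  cases d with
  | c r v =>
    cases d' with
    | c r' v' => exact wf_cst hF _
    | x x => exact absurd hs (by simp [Sim])
  | x x =>
    cases d' with
    | c r' v' => exact absurd hs (by simp [Sim])
    | x y => exact wf_lt (hd x (by simp)) (hd' y (by simp)) hs.2.2

theorem wf_ltT (hF : Scope F) {ds ds' : List (Dg (Vr L))} (hs : List.Forall₂ Sim ds ds')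
    (hd : InS F ds) (hd' : InS F ds') : (ltT ds ds' : Fml (Vr L) W).wf ar F = true := by
  induction hs with
  | nil => exact wf_not (wf_tt0 hF)
  | @cons d d' ds ds' h1 h2 ih =>
    obtain ⟨g1, g2⟩ := hd.cons
    obtain ⟨g1', g2'⟩ := hd'.cons
    exact wf_or (wf_ltD hF h1 g1 g1') (wf_and (wf_eqD hF h1 g1 g1') (ih g2 g2'))

end Lt

/-! ### Variables -/

/-- Families of digit variables: row or column, and component or level. -/
abbrev Fam : Type := Bool × Bool

/-- Digit variables: a family, a group and an index. -/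
abbrev Xw (B : ℕ) : Type := Fam × Fin 7 × Fin (B + 1)

/-- Parameters: lengths of the groups of digits. -/
structure Pr where
  m1 : ℕ
  m2 : ℕ

namespace Pr

variable (P : Pr)

/-- Number of digits of times and positions. -/
def D : ℕ := P.m1 + P.m2 + 2

abbrev V : Type := Vr (Xw P.D)

/-- A group of variables. -/
def grp (f : Fam) (g : Fin 7) (len : ℕ) : List P.V :=
  ((List.finRange (P.D + 1)).take len).map fun i => .inl (f, g, i)

def xT (f : Fam) : List P.V := P.grp f 0 P.D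
def xI (f : Fam) : List P.V := P.grp f 1 P.D
def zT (f : Fam) : List P.V := P.grp f 2 P.D
def pz (f : Fam) : PosV (Xw P.D) :=
  ⟨.inl (f, 3, 0), P.grp f 4 P.m1, P.grp f 5 P.m2, .inl (f, 6, 0)⟩

theorem mem_grp {f : Fam} {g : Fin 7} {len : ℕ} {x : P.V} (h : x ∈ P.grp f g len) :
    ∃ i, x = .inl (f, g, i) := by
  obtain ⟨i, -, rfl⟩ := List.mem_map.1 h
  exact ⟨i, rfl⟩

theorem grp_length (f : Fam) (g : Fin 7) {len : ℕ} (h : len ≤ P.D + 1) :
    (P.grp f g len).length = len := by
  simp [grp]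
  omega

theorem grp_nodup (f : Fam) (g : Fin 7) (len : ℕ) : (P.grp f g len).Nodup := by
  refine List.Nodup.map ?_ ((List.nodup_finRange _).sublist (List.take_sublist _ _))
  intro i j h
  simpa using h

theorem xT_length (f : Fam) : (P.xT f).length = P.D := P.grp_length _ _ (by omega)
theorem xI_length (f : Fam) : (P.xI f).length = P.D := P.grp_length _ _ (by omega)
theorem zT_length (f : Fam) : (P.zT f).length = P.D := P.grp_length _ _ (by omega)
theorem mid_length (f : Fam) : (P.pz f).mid.length = P.m2 :=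
  P.grp_length _ _ (by simp [D]; omega)
theorem pz_length (f : Fam) : (P.pz f).all.length = P.D := by
  simp only [PosV.all, pz, List.length_cons, List.length_append, List.length_nil]
  rw [P.grp_length _ _ (by simp [D]; omega), P.grp_length _ _ (by simp [D]; omega)]
  simp only [D]
  omega

theorem mem_pz {f : Fam} {x : P.V} (h : x ∈ (P.pz f).all) :
    ∃ g i, x = .inl (f, g, i) ∧ (3 : Fin 7) ≤ g := by
  simp only [PosV.all, pz, List.mem_cons, List.mem_append, List.not_mem_nil, or_false] at h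
  rcases h with h | h | h | h
  · exact ⟨3, 0, h, le_rfl⟩
  · obtain ⟨i, h⟩ := P.mem_grp h
    exact ⟨4, i, h, by decide⟩
  · obtain ⟨i, h⟩ := P.mem_grp h
    exact ⟨5, i, h, by decide⟩
  · exact ⟨6, 0, h, by decide⟩

theorem dv_grp (f : Fam) (g : Fin 7) (len : ℕ) : DV (P.grp f g len) := fun x hx => by
  obtain ⟨i, h⟩ := P.mem_grp hx
  exact ⟨_, h⟩

theorem dv_pz (f : Fam) : DV (P.pz f).all := fun x hx => by
  obtain ⟨g, i, h, -⟩ := P.mem_pz hx
  exact ⟨_, h⟩

theorem pz_nodup (f : Fam) : (P.pz f).all.Nodup := by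
  simp only [PosV.all, pz]
  rw [List.nodup_cons, List.nodup_append, List.nodup_append]
  refine ⟨?_, P.grp_nodup _ _ _, ⟨P.grp_nodup _ _ _, by simp, ?_⟩, ?_⟩
  · simp only [List.mem_append, List.mem_singleton, not_or]
    refine ⟨fun h => ?_, fun h => ?_, by simp⟩
    · obtain ⟨i, h⟩ := P.mem_grp h
      simp at h
    · obtain ⟨i, h⟩ := P.mem_grp h
      simp at h
  · intro x hx y hy
    obtain ⟨i, rfl⟩ := P.mem_grp hx
    simp only [List.mem_singleton] at hy
    rw [hy]
    simp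
  · intro x hx y hy
    obtain ⟨i, rfl⟩ := P.mem_grp hx
    simp only [List.mem_append, List.mem_singleton] at hy
    rcases hy with hy | hy
    · obtain ⟨j, rfl⟩ := P.mem_grp hy
      simp
    · rw [hy]
      simp

/-- Variables of a clause index. -/
def vJ (f : Fam) : List P.V := P.zT f ++ (P.pz f).all
/-- Variables of the index of a propositional variable. -/
def vI (f : Fam) : List P.V := P.xT f ++ P.xI f

theorem mem_vJ {f : Fam} {x : P.V} (h : x ∈ P.vJ f) :
    ∃ g i, x = .inl (f, g, i) ∧ (2 : Fin 7) ≤ g := by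
  rcases List.mem_append.1 h with h | h
  · obtain ⟨i, h⟩ := P.mem_grp h
    exact ⟨_, i, h, le_rfl⟩
  · obtain ⟨g, i, h, hg⟩ := P.mem_pz h
    exact ⟨g, i, h, le_trans (by decide) hg⟩

theorem mem_vI {f : Fam} {x : P.V} (h : x ∈ P.vI f) :
    ∃ g i, x = .inl (f, g, i) ∧ g < (2 : Fin 7) := by
  rcases List.mem_append.1 h with h | h
  · obtain ⟨i, h⟩ := P.mem_grp h
    exact ⟨_, i, h, by decide⟩
  · obtain ⟨i, h⟩ := P.mem_grp h
    exact ⟨_, i, h, by decide⟩

theorem vJ_length (f : Fam) : (P.vJ f).length = P.D + P.D := by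
  rw [vJ, List.length_append, P.zT_length, P.pz_length]
theorem vI_length (f : Fam) : (P.vI f).length = P.D + P.D := by
  rw [vI, List.length_append, P.xT_length, P.xI_length]

theorem vJ_nodup (f : Fam) : (P.vJ f).Nodup := by
  rw [vJ, List.nodup_append]
  refine ⟨P.grp_nodup _ _ _, P.pz_nodup _, fun x hx y hy => ?_⟩
  obtain ⟨i, rfl⟩ := P.mem_grp hx
  obtain ⟨g, j, rfl, hg⟩ := P.mem_pz hy
  intro hxy
  simp only [Sum.inl.injEq, Prod.mk.injEq] at hxy
  rw [← hxy.2.1] at hg
  exact absurd hg (by decide)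

theorem vI_nodup (f : Fam) : (P.vI f).Nodup := by
  rw [vI, List.nodup_append]
  refine ⟨P.grp_nodup _ _ _, P.grp_nodup _ _ _, fun x hx y hy => ?_⟩
  obtain ⟨i, rfl⟩ := P.mem_grp hx
  obtain ⟨j, rfl⟩ := P.mem_grp hy
  simp

theorem vIJ_disj (f f' : Fam) {x : P.V} (h : x ∈ P.vI f) (h' : x ∈ P.vJ f') : False := by
  obtain ⟨g, i, rfl, hg⟩ := P.mem_vI h
  obtain ⟨g', i', h1, hg'⟩ := P.mem_vJ h'
  simp only [Sum.inl.injEq, Prod.mk.injEq] at h1
  rw [← h1.2.1] at hg'
  exact absurd hg (not_lt.2 hg')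

theorem vJ_disj {f f' : Fam} (hf : f ≠ f') {x : P.V} (h : x ∈ P.vJ f) (h' : x ∈ P.vJ f') :
    False := by
  obtain ⟨g, i, rfl, hg⟩ := P.mem_vJ h
  obtain ⟨g', i', h1, hg'⟩ := P.mem_vJ h'
  simp only [Sum.inl.injEq, Prod.mk.injEq] at h1
  exact hf h1.1

theorem vI_disj {f f' : Fam} (hf : f ≠ f') {x : P.V} (h : x ∈ P.vI f) (h' : x ∈ P.vI f') :
    False := by
  obtain ⟨g, i, rfl, hg⟩ := P.mem_vI h
  obtain ⟨g', i', h1, hg'⟩ := P.mem_vI h'
  simp only [Sum.inl.injEq, Prod.mk.injEq] at h1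
  exact hf h1.1

theorem dv_vJ (f : Fam) : DV (P.vJ f) := fun x hx => by
  obtain ⟨g, i, h, -⟩ := P.mem_vJ hx
  exact ⟨_, h⟩

theorem dv_vI (f : Fam) : DV (P.vI f) := fun x hx => by
  obtain ⟨g, i, h, -⟩ := P.mem_vI hx
  exact ⟨_, h⟩

theorem twin_vJ {f f' : Fam} (hf : f ≠ f') : Twin (P.vJ f) (P.vJ f') :=
  ⟨by rw [vJ_length, vJ_length], P.dv_vJ _, P.dv_vJ _, fun _ h h' => P.vJ_disj hf h h'⟩

theorem twin_vI {f f' : Fam} (hf : f ≠ f') : Twin (P.vI f) (P.vI f') :=
  ⟨by rw [vI_length, vI_length], P.dv_vI _, P.dv_vI _, fun _ h h' => P.vI_disj hf h h'⟩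

theorem twin_vIJ (f f' : Fam) : Twin (P.vI f) (P.vJ f') :=
  ⟨by rw [vI_length, vJ_length], P.dv_vI _, P.dv_vJ _, fun _ h h' => P.vIJ_disj _ _ h h'⟩

theorem twin_zx (f f' : Fam) : Twin (P.zT f) (P.xT f') :=
  ⟨by rw [P.zT_length, P.xT_length], P.dv_grp _ _ _, P.dv_grp _ _ _, fun x h h' => P.vIJ_disj f' f
    (List.mem_append.2 (Or.inl h')) (List.mem_append.2 (Or.inl h))⟩

theorem twin_pz (f f' : Fam) : Twin (P.pz f).all (P.xI f') :=
  ⟨by rw [P.pz_length, P.xI_length], P.dv_pz _, P.dv_grp _ _ _, fun x h h' => P.vIJ_disj f' f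
    (List.mem_append.2 (Or.inr h')) (List.mem_append.2 (Or.inr h))⟩

end Pr

/-! ### Definable predicates -/

variable {L : Type} [DecidableEq L]

/-- The array contents for the input word `x`. -/
def GoodArr (x : List Bool) (a : Arr Unit) : Prop :=
  ∀ t, t < x.length + 2 → a () [t] = (x ++ [true, true]).getD t false

/-- A predicate depending on the input word and on the values of variables in `F` is expressed by
a formula. -/
def Df (F : List (Vr L)) (P : List Bool → (Vr L → ℕ) → Prop) : Prop :=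
  ∃ φ : Fml (Vr L) Unit,
    (∀ F', Scope F' → (∀ y ∈ F, y ∈ F') → φ.wf ar1 F' = true) ∧
    ∀ (x : List Bool) (a : Arr Unit) (e : Vr L → ℕ), GoodArr x a →
      (∀ y, e y < x.length + 2) → (φ.eval (x.length + 2) a e = true ↔ P x e)

variable {F : List (Vr L)} {P Q : List Bool → (Vr L → ℕ) → Prop}

theorem Df.congr (h : Df F P)
    (hPQ : ∀ x e, (∀ y, e y < x.length + 2) → (P x e ↔ Q x e)) : Df F Q := by
  obtain ⟨φ, h1, h2⟩ := h
  exact ⟨φ, h1, fun x a e ha he => (h2 x a e ha he).trans (hPQ x e he)⟩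

theorem Df.not (h : Df F P) : Df F fun x e => ¬ P x e := by
  obtain ⟨φ, h1, h2⟩ := h
  exact ⟨.not φ, h1, fun x a e ha he => by rw [Fml.eval_not, h2 x a e ha he]⟩

theorem Df.and (hP : Df F P) (hQ : Df F Q) : Df F fun x e => P x e ∧ Q x e := by
  obtain ⟨φ, h1, h2⟩ := hP
  obtain ⟨ψ, h3, h4⟩ := hQ
  exact ⟨.and φ ψ, fun F' hF' hF => wf_and (h1 F' hF' hF) (h3 F' hF' hF), fun x a e ha he => by
    rw [Fml.eval_and, h2 x a e ha he, h4 x a e ha he]⟩

theorem Df.or (hP : Df F P) (hQ : Df F Q) : Df F fun x e => P x e ∨ Q x e :=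
  ((hP.not).and hQ.not).not.congr fun x e _ => by tauto

theorem Df.tru : Df F fun _ _ => True :=
  ⟨tt0, fun F' hF' _ => wf_tt0 hF', fun x a e _ _ => by simp [eval_tt0]⟩

theorem Df.const (p : Prop) : Df F fun _ _ => p := by
  by_cases hp : p
  · exact Df.tru.congr fun x e _ => by simp [hp]
  · exact Df.tru.not.congr fun x e _ => by simp [hp]

/-- Equality of numbers. -/
theorem Df.eqT {ds ds' : List (Dg (Vr L))} (hs : List.Forall₂ Sim ds ds')
    (h : ∀ N e, (∀ y, e y < N) → Good N e ds) (h' : ∀ N e, (∀ y, e y < N) → Good N e ds')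
    (hF : InS F ds) (hF' : InS F ds') :
    Df F fun x e => PolyTM.num (x.length + 2) e ds = PolyTM.num (x.length + 2) e ds' :=
  ⟨PolyTM.eqT ds ds', fun F' hS hFF => wf_eqT hS hs (fun y hy => hFF y (hF y hy))
    (fun y hy => hFF y (hF' y hy)),
    fun x a e _ he => (eval_eqT hs (h _ _ he) (h' _ _ he)).1⟩

/-- The second number is one larger. -/
theorem Df.sucT {ds ds' : List (Dg (Vr L))} (hs : List.Forall₂ Sim ds ds')
    (hd : Dvar ds) (hd' : Dvar ds')
    (h : ∀ N e, (∀ y, e y < N) → Good N e ds) (h' : ∀ N e, (∀ y, e y < N) → Good N e ds')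
    (hF : InS F ds) (hF' : InS F ds') :
    Df F fun x e => PolyTM.num (x.length + 2) e ds + 1 = PolyTM.num (x.length + 2) e ds' :=
  ⟨PolyTM.sucT ds ds', fun F' hS hFF => wf_sucT hS hs (fun y hy => hFF y (hF y hy))
    (fun y hy => hFF y (hF' y hy)),
    fun x a e _ he => eval_sucT hs hd hd' (h _ _ he) (h' _ _ he)⟩

/-- The first number is smaller. -/
theorem Df.ltT {ds ds' : List (Dg (Vr L))} (hs : List.Forall₂ Sim ds ds')
    (h : ∀ N e, (∀ y, e y < N) → Good N e ds) (h' : ∀ N e, (∀ y, e y < N) → Good N e ds')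
    (hF : InS F ds) (hF' : InS F ds') :
    Df F fun x e => PolyTM.num (x.length + 2) e ds < PolyTM.num (x.length + 2) e ds' :=
  ⟨MP_a950c6_lc.ltT ds ds', fun F' hS hFF => wf_ltT hS hs (fun y hy => hFF y (hF y hy))
    (fun y hy => hFF y (hF' y hy)),
    fun x a e _ he => eval_ltT hs (h _ _ he) (h' _ _ he)⟩

/-- The number is zero. -/
theorem Df.zeroT {ds : List (Dg (Vr L))} (hd : Dvar ds)
    (h : ∀ N e, (∀ y, e y < N) → Good N e ds) (hF : InS F ds) :
    Df F fun x e => PolyTM.num (x.length + 2) e ds = 0 :=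
  ⟨PolyTM.zeroT ds, fun F' hS hFF => wf_zeroT hS (fun y hy => hFF y (hF y hy)),
    fun x a e _ he => eval_zeroT hd (h _ _ he)⟩

/-- The number is maximal. -/
theorem Df.maxT {ds : List (Dg (Vr L))} (hd : Dvar ds)
    (h : ∀ N e, (∀ y, e y < N) → Good N e ds) (hF : InS F ds) :
    Df F fun x e => PolyTM.num (x.length + 2) e ds + 1 = radP (x.length + 2) ds :=
  ⟨PolyTM.maxT ds, fun F' hS hFF => wf_maxT hS (fun y hy => hFF y (hF y hy)),
    fun x a e _ he => eval_maxT hd (h _ _ he)⟩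

end Pool.Agent.Lib.MP_a950c6_lc
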