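import Pool.Agent.Lib.MP_a950c6_lc.Kinds

/-!
# Programs writing graphs given by definable relations
-/

namespace Pool.Agent.Lib.MP_a950c6_lc

set_option linter.unusedSectionVars false
set_option linter.unusedSimpArgs false

open Pool.Agent.Lib.PolyTM Pool.Agent.Lib.PolyTM.Tab Function
open Pool.Agent.Lib.MP_75fd85_lc (dx nv DV PosV Twin ar1 radP_dx good_dx dvar_dx nv_lt nv_append
  idx idx_lt idx_div idx_mid idx_mod consts spx Sc4 sc4 Mem memF Pn shape_spx consts_dx
  consts_append radS_spx vars_spx eval_ff0 eval_memF inS_dx wf_memF flatMap_fin)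

abbrev PrgV (P : Pr) : Type := PolyTM.Stmt P.V Unit

variable (P : Pr) (r U : ℕ)

/-- Digit specification of the indices of a vertex. -/
def spV (β : Bool) : List (Sp P.V) :=
  (.inl r :: spx (P.vJ (fc β))) ++ ((.inl U :: spx (P.vI (fc β))) ++
    (.inl r :: spx (P.vJ (fl β))))

/-- Digits of the indices of a vertex. -/
def dV (β : Bool) (σ u τ : ℕ) : List (Dg P.V) :=
  dJ P r (fc β) σ ++ (dK P U (fc β) u ++ dJ P r (fl β) τ)

/-- Variables of the indices of a vertex. -/
def vV (β : Bool) : List P.V := P.vJ (fc β) ++ (P.vI (fc β) ++ P.vJ (fl β))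

variable {P r U}

theorem shape_spV {β : Bool} {ds : List (Dg P.V)} (h : Shape (spV P r U β) ds) :
    ∃ σ < r, ∃ u < U, ∃ τ < r, ds = dV P r U β σ u τ := by
  obtain ⟨ds1, ds2, rfl, h1, h2⟩ := h.append_inv
  obtain ⟨ds3, ds4, rfl, h3, h4⟩ := h2.append_inv
  cases h1 with
  | c _ σ hσ _ ds h1 =>
    cases h3 with
    | c _ u hu _ ds' h3 =>
      cases h4 with
      | c _ τ hτ _ ds'' h4 =>
        exact ⟨σ, hσ, u, hu, τ, hτ, by rw [shape_spx h1, shape_spx h3, shape_spx h4]; rfl⟩

theorem vars_spV (β : Bool) : vars (spV P r U β) = vV P β := by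
  rw [spV, vars_append, vars_append, vars, vars, vars, vars_spx, vars_spx, vars_spx]
  rfl

theorem consts_dV (β : Bool) (σ u τ : ℕ) : consts (dV P r U β σ u τ) = [σ, u, τ] := by
  rw [dV, consts_append, consts_append, dJ, dK, dJ, consts, consts, consts, consts_dx, consts_dx,
    consts_dx]
  rfl

theorem radS_spV (N : ℕ) (β : Bool) : radS N (spV P r U β) =
    (r * (N ^ P.D * N ^ P.D)) * ((U * (N ^ P.D * N ^ P.D)) * (r * (N ^ P.D * N ^ P.D))) := by
  rw [spV, radS_append, radS_append, radS, radS, radS, radS_spx, radS_spx, radS_spx, P.vJ_length,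
    P.vI_length, P.vJ_length, pow_add]

theorem num_dV {N : ℕ} {e : P.V → ℕ} (β : Bool) (σ u τ : ℕ) :
    PolyTM.num N e (dV P r U β σ u τ) =
      PolyTM.num N e (dJ P r (fc β) σ) * ((U * (N ^ P.D * N ^ P.D)) * (r * (N ^ P.D * N ^ P.D))) +
        (PolyTM.num N e (dK P U (fc β) u) * (r * (N ^ P.D * N ^ P.D)) +
          PolyTM.num N e (dJ P r (fl β) τ)) := by
  rw [dV, num_append, num_append, radP_append, radP_dK, radP_dJ]

theorem vV_nodup (β : Bool) : (vV P β).Nodup := by
  rw [vV, List.nodup_append, List.nodup_append]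
  refine ⟨P.vJ_nodup _, ⟨P.vI_nodup _, P.vJ_nodup _, fun x hx y hy h => ?_⟩,
    fun x hx y hy h => ?_⟩
  · exact P.vIJ_disj _ _ hx (h ▸ hy)
  · subst h
    rcases List.mem_append.1 hy with hy | hy
    · exact P.vIJ_disj _ _ hy hx
    · exact P.vJ_disj (by simp) hx hy

theorem mem_vV {β : Bool} {y : P.V} (h : y ∈ vV P β) : ∃ δ g i, y = .inl ((β, δ), g, i) := by
  rcases List.mem_append.1 h with h | h
  · obtain ⟨g, i, rfl, -⟩ := P.mem_vJ h; exact ⟨_, g, i, rfl⟩
  · rcases List.mem_append.1 h with h | h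
    · obtain ⟨g, i, rfl, -⟩ := P.mem_vI h; exact ⟨_, g, i, rfl⟩
    · obtain ⟨g, i, rfl, -⟩ := P.mem_vJ h; exact ⟨_, g, i, rfl⟩

theorem vV_disj {y : P.V} (h : y ∈ vV P false) (h' : y ∈ vV P true) : False := by
  obtain ⟨δ, g, i, rfl⟩ := mem_vV h
  obtain ⟨δ', g', i', h1⟩ := mem_vV h'
  simp at h1

theorem inF_vV (β : Bool) {F : List P.V} (h : ∀ y ∈ vV P β, y ∈ F) : InF P F β :=
  ⟨fun y hy => h y (List.mem_append.2 (Or.inl hy)),
    fun y hy => h y (List.mem_append.2 (Or.inr (List.mem_append.2 (Or.inl hy)))),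
    fun y hy => h y (List.mem_append.2 (Or.inr (List.mem_append.2 (Or.inr hy))))⟩

variable {Kd : Type}

variable (P r U) in
/-- Run the body for all kinds and all indices. -/
def allK (ks : List Kd) (β : Bool) (B : Kd → ℕ → ℕ → ℕ → PrgV P) : PrgV P :=
  seqs (ks.map fun κ => enumP (spV P r U β) fun ds => match consts ds with
    | [σ, u, τ] => B κ σ u τ
    | _ => .skip)

/-- All kinds with all indices. -/
def QL (ks : List Kd) (m n : ℕ) : List (Kd × Fin m × Fin n × Fin m) :=
  ks.flatMap fun κ => (List.finRange m).flatMap fun j => (List.finRange n).flatMap fun i =>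
    (List.finRange m).map fun p => (κ, j, i, p)

theorem mem_QL {ks : List Kd} {m n : ℕ} (q : Kd × Fin m × Fin n × Fin m) :
    q ∈ QL ks m n ↔ q.1 ∈ ks := by
  obtain ⟨κ, j, i, p⟩ := q
  simp [QL]

theorem nodup_QL {ks : List Kd} (hks : ks.Nodup) (m n : ℕ) : (QL ks m n).Nodup := by
  unfold QL
  rw [List.nodup_flatMap]
  refine ⟨fun κ _ => ?_, hks.imp_of_mem ?_⟩
  · rw [List.nodup_flatMap]
    refine ⟨fun j _ => ?_, (List.nodup_finRange _).imp_of_mem ?_⟩
    · rw [List.nodup_flatMap]
      refine ⟨fun i _ => ?_, (List.nodup_finRange _).imp_of_mem ?_⟩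
      · exact (List.nodup_finRange _).map fun a b h => by simpa using h
      · intro i i' _ _ hii
        simp only [Function.onFun, List.disjoint_left, List.mem_map]
        rintro _ ⟨p, -, rfl⟩ ⟨p', -, h⟩
        simp only [Prod.mk.injEq] at h
        exact hii h.2.2.1.symm
    · intro j j' _ _ hjj
      simp only [Function.onFun, List.disjoint_left, List.mem_flatMap, List.mem_map]
      rintro _ ⟨i, -, p, -, rfl⟩ ⟨i', -, p', -, h⟩
      simp only [Prod.mk.injEq] at h
      exact hjj h.2.1.symm
  · intro κ κ' _ _ hκ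
    simp only [Function.onFun, List.disjoint_left, List.mem_flatMap, List.mem_map]
    rintro _ ⟨j, -, i, -, p, -, rfl⟩ ⟨j', -, i', -, p', -, h⟩
    simp only [Prod.mk.injEq] at h
    exact hκ h.1.symm

variable {N : ℕ} {a : Arr Unit} {e : P.V → ℕ}

/-- Hypothesis on the body. -/
def BOK (P : Pr) (r U : ℕ) (ks : List Kd) (β : Bool) (N : ℕ) (a : Arr Unit) (e : P.V → ℕ)
    (B : Kd → ℕ → ℕ → ℕ → PrgV P) (f : Kd → ℕ → ℕ → ℕ → List Bool) : Prop :=
  ∀ κ ∈ ks, ∀ σ < r, ∀ u < U, ∀ τ < r, ∀ e', (∀ y, y ∉ vV P β → e' y = e y) →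
    (∀ y, e' y < N) → Emits N a (B κ σ u τ) e' (f κ (PolyTM.num N e' (dJ P r (fc β) σ))
      (PolyTM.num N e' (dK P U (fc β) u)) (PolyTM.num N e' (dJ P r (fl β) τ)))

theorem flatMap_map_eq {α β γ : Type} (l : List α) (g : α → β) (f : β → List γ) :
    (l.map g).flatMap f = l.flatMap fun x => f (g x) := by
  rw [List.flatMap_map]

theorem emits_allK (ks : List Kd) (β : Bool) (B : Kd → ℕ → ℕ → ℕ → PrgV P)
    (f : Kd → ℕ → ℕ → ℕ → List Bool) (he : ∀ y, e y < N) (hB : BOK P r U ks β N a e B f) :
    Emits N a (allK P r U ks β B) e ((QL ks (r * (N ^ P.D * N ^ P.D))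
      (U * (N ^ P.D * N ^ P.D))).flatMap fun q => f q.1 q.2.1.val q.2.2.1.val q.2.2.2.val) := by
  set m := r * (N ^ P.D * N ^ P.D) with hm
  set n := U * (N ^ P.D * N ^ P.D) with hn
  unfold QL
  rw [List.flatMap_assoc]
  refine Emits.seqs ks fun κ hκ => ?_
  have h := Emits.enum (N := N) (a := a) (spV P r U β) (by rw [vars_spV]; exact vV_nodup β)
    (fun ds => match consts ds with
      | [σ, u, τ] => B κ σ u τ
      | _ => .skip) e (fun x => f κ (x / (n * m)) (x / m % n) (x % m)) (by
      intro ds e' hs h1 h2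
      obtain ⟨σ, hσ, u, hu, τ, hτ, rfl⟩ := shape_spV hs
      rw [vars_spV] at h1 h2
      have he' : ∀ y, e' y < N := fun y => by
        by_cases hy : y ∈ vV P β
        · exact h2 y hy
        · rw [h1 y hy]; exact he y
      rw [consts_dV]
      have key := hB κ hκ σ hσ u hu τ hτ e' h1 he'
      have b1 := num_lt (good_dJ (P := P) (r := r) (fl β) hτ _ e' he')
      have b2 := num_lt (good_dK (P := P) (U := U) (fc β) hu _ e' he')
      rw [radP_dJ, ← hm] at b1
      rw [radP_dK, ← hn] at b2
      have e1 := num_dV (P := P) (r := r) (U := U) (N := N) (e := e') β σ u τ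
      rw [← hm, ← hn] at e1
      simp only
      rw [e1]
      set A := PolyTM.num N e' (dJ P r (fc β) σ)
      set B' := PolyTM.num N e' (dK P U (fc β) u)
      set C := PolyTM.num N e' (dJ P r (fl β) τ)
      have hm0 : 0 < m := by omega
      have hn0 : 0 < n := by omega
      have hlt : B' * m + C < n * m := by
        have := Nat.mul_le_mul_right m (show B' + 1 ≤ n by omega)
        rw [Nat.add_mul] at this
        omega
      have c1 : (A * (n * m) + (B' * m + C)) / (n * m) = A := by
        rw [Nat.mul_comm A, Nat.mul_add_div (by positivity), Nat.div_eq_of_lt hlt, Nat.add_zero]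
      have c2 : (A * (n * m) + (B' * m + C)) % m = C := by
        rw [show A * (n * m) + (B' * m + C) = m * (A * n + B') + C by ring, Nat.mul_add_mod,
          Nat.mod_eq_of_lt b1]
      have c3 : (A * (n * m) + (B' * m + C)) / m % n = B' := by
        rw [show A * (n * m) + (B' * m + C) = m * (A * n + B') + C by ring,
          Nat.mul_add_div hm0, Nat.div_eq_of_lt b1, Nat.add_zero, Nat.mul_comm A n,
          Nat.mul_add_mod, Nat.mod_eq_of_lt b2]
      rw [c1, c2, c3]
      exact key)
  rw [radS_spV, ← hm, ← hn, range_mul_flatMap] at h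
  have h3 : ((List.finRange m).flatMap fun j => (List.finRange n).flatMap fun i =>
      (List.finRange m).map fun p => (κ, j, i, p)).flatMap
        (fun q => f q.1 q.2.1.val q.2.2.1.val q.2.2.2.val) =
      (List.range m).flatMap fun t => (List.range (n * m)).flatMap fun k =>
        f κ ((t * (n * m) + k) / (n * m)) ((t * (n * m) + k) / m % n) ((t * (n * m) + k) % m) := by
    rw [List.flatMap_assoc]
    refine (flatMap_fin m _ _ fun j => ?_).symm
    rw [range_mul_flatMap, List.flatMap_assoc]
    refine flatMap_fin n _ _ fun i => ?_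
    rw [List.flatMap_map]
    refine flatMap_fin m _ _ fun p => ?_
    have hm0 : 0 < m := by have := p.isLt; omega
    have hn0 : 0 < n := by have := i.isLt; omega
    have hlt : i.val * m + p.val < n * m := by
      have := Nat.mul_le_mul_right m (show i.val + 1 ≤ n from i.isLt)
      rw [Nat.add_mul] at this
      have := p.isLt
      omega
    have c1 : (j.val * (n * m) + (i.val * m + p.val)) / (n * m) = j.val := by
      rw [Nat.mul_comm j.val, Nat.mul_add_div (by positivity), Nat.div_eq_of_lt hlt, Nat.add_zero]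
    have c2 : (j.val * (n * m) + (i.val * m + p.val)) % m = p.val := by
      rw [show j.val * (n * m) + (i.val * m + p.val) = m * (j.val * n + i.val) + p.val by ring,
        Nat.mul_add_mod, Nat.mod_eq_of_lt p.isLt]
    have c3 : (j.val * (n * m) + (i.val * m + p.val)) / m % n = i.val := by
      rw [show j.val * (n * m) + (i.val * m + p.val) = m * (j.val * n + i.val) + p.val by ring,
        Nat.mul_add_div hm0, Nat.div_eq_of_lt p.isLt, Nat.add_zero, Nat.mul_comm j.val n,
        Nat.mul_add_mod, Nat.mod_eq_of_lt i.isLt]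
    rw [c1, c2, c3]
  rw [h3]
  exact h

theorem wf_allK (ks : List Kd) (β : Bool) (B : Kd → ℕ → ℕ → ℕ → PrgV P) {F : List P.V}
    (hF : ∀ y ∈ vV P β, y ∉ F)
    (hB : ∀ κ σ u τ, σ < r → u < U → τ < r →
      (B κ σ u τ).wf ar1 ((vV P β).reverse ++ F) = true) :
    (allK P r U ks β B).wf ar1 F = true := by
  unfold allK
  refine wf_seqs _ fun s hs => ?_
  obtain ⟨κ, -, rfl⟩ := List.mem_map.1 hs
  refine wf_enumP _ (by rw [vars_spV]; exact vV_nodup β) (by rw [vars_spV]; exact hF) _
    fun ds hds => ?_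
  obtain ⟨σ, hσ, u, hu, τ, hτ, rfl⟩ := shape_spV hds
  rw [consts_dV, vars_spV]
  exact hB κ σ u τ hσ hu hτ

open Classical in
/-- The word of a graph given by a list of vertices. -/
noncomputable def listWord {V : Type} (l : List V) (adj : V → V → Prop) : List Bool :=
  List.replicate l.length true ++ false :: l.flatMap fun u => l.map fun v => decide (adj u v)

theorem flatMap_true' {α : Type} (l : List α) : (l.flatMap fun _ => [true]) =
    List.replicate l.length true := MP_75fd85_lc.flatMap_true l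

theorem flatMap_ite {α β : Type} (l : List α) (p : α → Bool) (g : α → List β) :
    (l.flatMap fun x => if p x = true then g x else []) = (l.filter p).flatMap g := by
  induction l with
  | nil => rfl
  | cons x l ih =>
    rw [List.flatMap_cons, ih, List.filter_cons]
    cases p x <;> simp

/-- Rule for conditional statements. -/
theorem emits_ite {φ : Fml P.V Unit} {s t : PrgV P} {p : Prop} [Decidable p] {l1 l2 : List Bool}
    (hv : φ.eval N a e = true ↔ p) (h1 : p → Emits N a s e l1) (h2 : ¬p → Emits N a t e l2) :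
    Emits N a (.ite (.fml φ) s t) e (if decide p = true then l1 else l2) := by
  refine Emits.ite ?_
  change Emits N a (if φ.eval N a e = true then s else t) e _
  by_cases h : p
  · rw [if_pos (hv.2 h), if_pos (decide_eq_true h)]
    exact h1 h
  · rw [if_neg (fun h' => h (hv.1 h')), if_neg (by simpa using h)]
    exact h2 h

open Classical in
/-- Graphs with definable validity and adjacency can be written by a program. -/
theorem exists_prog (ks : List Kd) (valN : List Bool → Kd → ℕ → ℕ → ℕ → Prop)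
    (adjN : List Bool → Kd → ℕ → ℕ → ℕ → Kd → ℕ → ℕ → ℕ → Prop)
    (hval : ∀ β κ σ u τ, σ < r → u < U → τ < r →
      Df (vV P β) fun x e => valN x κ (nJ P r (fc β) σ x e) (nK P U (fc β) u x e)
        (nJ P r (fl β) τ x e))
    (hadj : ∀ κ σ u τ κ' σ' u' τ', σ < r → u < U → τ < r → σ' < r → u' < U → τ' < r →
      Df (vV P false ++ vV P true) fun x e => adjN x κ (nJ P r (fc false) σ x e)
        (nK P U (fc false) u x e) (nJ P r (fl false) τ x e) κ' (nJ P r (fc true) σ' x e)
        (nK P U (fc true) u' x e) (nJ P r (fl true) τ' x e)) :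
    ∃ G : PrgV P, G.wf ar1 [] = true ∧ ∀ (x : List Bool) (a : Arr Unit) (e : P.V → ℕ),
      GoodArr x a → (∀ y, e y < x.length + 2) → Emits (x.length + 2) a G e
        (listWord ((QL ks (mX P r x) (mX P U x)).filter fun q =>
          decide (valN x q.1 q.2.1.val q.2.2.1.val q.2.2.2.val))
          fun q q' => adjN x q.1 q.2.1.val q.2.2.1.val q.2.2.2.val q'.1 q'.2.1.val q'.2.2.1.val
            q'.2.2.2.val) := by
  have hval' : ∀ β κ σ u τ, ∃ φ : Fml P.V Unit, σ < r → u < U → τ < r →
      (∀ F', Scope F' → (∀ y ∈ vV P β, y ∈ F') → φ.wf ar1 F' = true) ∧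
      ∀ (x : List Bool) (a : Arr Unit) (e : P.V → ℕ), GoodArr x a →
        (∀ y, e y < x.length + 2) → (φ.eval (x.length + 2) a e = true ↔
          valN x κ (nJ P r (fc β) σ x e) (nK P U (fc β) u x e) (nJ P r (fl β) τ x e)) := by
    intro β κ σ u τ
    by_cases h : σ < r ∧ u < U ∧ τ < r
    · obtain ⟨φ, h1, h2⟩ := hval β κ σ u τ h.1 h.2.1 h.2.2
      exact ⟨φ, fun _ _ _ => ⟨h1, h2⟩⟩
    · exact ⟨tt0, fun h1 h2 h3 => absurd ⟨h1, h2, h3⟩ h⟩
  have hadj' : ∀ κ σ u τ κ' σ' u' τ', ∃ φ : Fml P.V Unit, σ < r → u < U → τ < r → σ' < r →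
      u' < U → τ' < r →
      (∀ F', Scope F' → (∀ y ∈ vV P false ++ vV P true, y ∈ F') → φ.wf ar1 F' = true) ∧
      ∀ (x : List Bool) (a : Arr Unit) (e : P.V → ℕ), GoodArr x a →
        (∀ y, e y < x.length + 2) → (φ.eval (x.length + 2) a e = true ↔
          adjN x κ (nJ P r (fc false) σ x e)
        (nK P U (fc false) u x e) (nJ P r (fl false) τ x e) κ' (nJ P r (fc true) σ' x e)
        (nK P U (fc true) u' x e) (nJ P r (fl true) τ' x e)) := by
    intro κ σ u τ κ' σ' u' τ'
    by_cases h : σ < r ∧ u < U ∧ τ < r ∧ σ' < r ∧ u' < U ∧ τ' < r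
    · obtain ⟨φ, h1, h2⟩ := hadj κ σ u τ κ' σ' u' τ' h.1 h.2.1 h.2.2.1 h.2.2.2.1 h.2.2.2.2.1
        h.2.2.2.2.2
      exact ⟨φ, fun _ _ _ _ _ _ => ⟨h1, h2⟩⟩
    · exact ⟨tt0, fun h1 h2 h3 h4 h5 h6 => absurd ⟨h1, h2, h3, h4, h5, h6⟩ h⟩
  choose fv hfv using hval'
  choose fa hfa using hadj'
  refine ⟨.seq (allK P r U ks false fun κ σ u τ =>
      .ite (.fml (fv false κ σ u τ)) (.emit tt0) .skip)
    (.seq (.emit ff0) (allK P r U ks false fun κ σ u τ =>
      .ite (.fml (fv false κ σ u τ)) (allK P r U ks true fun κ' σ' u' τ' =>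
        .ite (.fml (fv true κ' σ' u' τ')) (.emit (fa κ σ u τ κ' σ' u' τ')) .skip) .skip)),
    ?_, fun x a e ha he => ?_⟩
  · have hs0 : Scope ([] : List P.V) := fun i => by simp
    have hs : ∀ {F : List P.V}, Scope F → ∀ β, Scope ((vV P β).reverse ++ F) := by
      intro F hF β i hi
      rcases List.mem_append.1 hi with hi | hi
      · obtain ⟨δ, g, j, h⟩ := mem_vV (List.mem_reverse.1 hi)
        simp at h
      · exact hF i hi
    simp only [Stmt.wf, Bool.and_eq_true]
    refine ⟨?_, wf_not (wf_tt0 hs0), ?_⟩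
    · refine wf_allK _ _ _ (by simp) fun κ σ u τ hσ hu hτ => ?_
      simp only [Stmt.wf, Cond.wf, Bool.and_eq_true, and_true]
      exact ⟨(hfv false κ σ u τ hσ hu hτ).1 _ (hs hs0 _) (fun y hy => by simp [hy]),
        wf_tt0 (hs hs0 _)⟩
    · refine wf_allK _ _ _ (by simp) fun κ σ u τ hσ hu hτ => ?_
      simp only [Stmt.wf, Cond.wf, Bool.and_eq_true, and_true]
      refine ⟨(hfv false κ σ u τ hσ hu hτ).1 _ (hs hs0 _) (fun y hy => by simp [hy]), ?_⟩
      refine wf_allK _ _ _ (fun y hy hy' => ?_) fun κ' σ' u' τ' hσ' hu' hτ' => ?_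
      · simp only [List.append_nil, List.mem_reverse] at hy'
        exact vV_disj hy' hy
      · simp only [Stmt.wf, Cond.wf, Bool.and_eq_true, and_true]
        refine ⟨(hfv true κ' σ' u' τ' hσ' hu' hτ').1 _ (hs (hs hs0 _) _)
          (fun y hy => by simp [hy]),
          (hfa κ σ u τ κ' σ' u' τ' hσ hu hτ hσ' hu' hτ').1 _ (hs (hs hs0 _) _) (fun y hy => ?_)⟩
        rcases List.mem_append.1 hy with hy | hy <;> simp [hy]
  · have hff : Emits (x.length + 2) a (.emit (ff0 : Fml P.V Unit)) e [false] := by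
      have := Emits.emit (N := x.length + 2) (a := a) (e := e) (ff0 : Fml P.V Unit)
      rwa [eval_ff0] at this
    have k1 := emits_allK (r := r) (U := U) (a := a) ks false (fun κ σ u τ =>
      .ite (.fml (fv false κ σ u τ)) (.emit tt0) .skip)
      (fun κ j i p => if decide (valN x κ j i p) = true then [true] else []) he (by
        intro κ _ σ hσ u hu τ hτ e' _ he'
        refine emits_ite ((hfv false κ σ u τ hσ hu hτ).2 x a e' ha he') (fun h => ?_)
          fun h => Emits.skip
        have := Emits.emit (N := x.length + 2) (a := a) (e := e') (tt0 : Fml P.V Unit)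
        rwa [eval_tt0] at this)
    rw [flatMap_ite (QL ks _ _) (fun q => decide (valN x q.1 q.2.1.val q.2.2.1.val q.2.2.2.val))
      (fun _ => [true]), flatMap_true'] at k1
    have k2 := emits_allK (r := r) (U := U) (a := a) ks false (fun κ σ u τ =>
      .ite (.fml (fv false κ σ u τ)) (allK P r U ks true fun κ' σ' u' τ' =>
        .ite (.fml (fv true κ' σ' u' τ')) (.emit (fa κ σ u τ κ' σ' u' τ')) .skip) .skip)
      (fun κ j i p => if decide (valN x κ j i p) = true then
        ((QL ks (mX P r x) (mX P U x)).flatMap fun q' =>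
          if decide (valN x q'.1 q'.2.1.val q'.2.2.1.val q'.2.2.2.val) = true then
            [decide (adjN x κ j i p q'.1 q'.2.1.val q'.2.2.1.val q'.2.2.2.val)] else []) else [])
      he (by
        intro κ _ σ hσ u hu τ hτ e' _ he'
        refine emits_ite ((hfv false κ σ u τ hσ hu hτ).2 x a e' ha he') (fun h => ?_)
          fun h => Emits.skip
        refine emits_allK (r := r) (U := U) (a := a) ks true _
            (fun κ' j' i' p' => if decide (valN x κ' j' i' p') = true then
            [decide (adjN x κ (nJ P r (fc false) σ x e') (nK P U (fc false) u x e')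
              (nJ P r (fl false) τ x e') κ' j' i' p')] else []) he' ?_
        intro κ' _ σ' hσ' u' hu' τ' hτ' e'' h1 he''
        refine emits_ite ((hfv true κ' σ' u' τ' hσ' hu' hτ').2 x a e'' ha he'') (fun h' => ?_)
          fun h => Emits.skip
        have n1 : nJ P r (fc false) σ x e' = nJ P r (fc false) σ x e'' := by
          refine num_congr fun y hy => (h1 y fun hy' => ?_).symm
          simp only [dJ, List.mem_cons, reduceCtorEq, false_or] at hy
          obtain ⟨z, hz, hzy⟩ := List.mem_map.1 hy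
          cases hzy
          obtain ⟨g, i, rfl, -⟩ := P.mem_vJ hz
          obtain ⟨δ, g', i', h2⟩ := mem_vV hy'
          simp at h2
        have n2 : nJ P r (fl false) τ x e' = nJ P r (fl false) τ x e'' := by
          refine num_congr fun y hy => (h1 y fun hy' => ?_).symm
          simp only [dJ, List.mem_cons, reduceCtorEq, false_or] at hy
          obtain ⟨z, hz, hzy⟩ := List.mem_map.1 hy
          cases hzy
          obtain ⟨g, i, rfl, -⟩ := P.mem_vJ hz
          obtain ⟨δ, g', i', h2⟩ := mem_vV hy'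
          simp at h2
        have n3 : nK P U (fc false) u x e' = nK P U (fc false) u x e'' := by
          refine num_congr fun y hy => (h1 y fun hy' => ?_).symm
          simp only [dK, List.mem_cons, reduceCtorEq, false_or] at hy
          obtain ⟨z, hz, hzy⟩ := List.mem_map.1 hy
          cases hzy
          obtain ⟨g, i, rfl, -⟩ := P.mem_vI hz
          obtain ⟨δ, g', i', h2⟩ := mem_vV hy'
          simp at h2
        have h3 := (hfa κ σ u τ κ' σ' u' τ' hσ hu hτ hσ' hu' hτ').2 x a e'' ha he''
        have h4 := Emits.emit (N := x.length + 2) (a := a) (e := e'')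
          (fa κ σ u τ κ' σ' u' τ')
        have h5 : (fa κ σ u τ κ' σ' u' τ').eval (x.length + 2) a e'' =
            decide (adjN x κ (nJ P r (fc false) σ x e') (nK P U (fc false) u x e')
          (nJ P r (fl false) τ x e') κ' (nJ P r (fc true) σ' x e'') (nK P U (fc true) u' x e'')
        (nJ P r (fl true) τ' x e'')) := by
          rw [Bool.eq_iff_iff, h3, decide_eq_true_iff, n1, n2, n3]
        rw [h5] at h4
        exact h4)
    simp only [flatMap_ite (QL ks (mX P r x) (mX P U x))
      (fun q => decide (valN x q.1 q.2.1.val q.2.2.1.val q.2.2.2.val))] at k2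
    simp only [MP_75fd85_lc.flatMap_single] at k2
    have key := k1.seq (hff.seq k2)
    simpa [listWord] using key

end Pool.Agent.Lib.MP_a950c6_lc
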