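import Pool.Agent.Lib.MP_a950c6_lc.Construction

/-!
# From a colouring of the components to a role assignment
-/

namespace Pool.Agent.Lib.MP_a950c6_lc

open Finset

lemma IsRoleAssignment.hom {V W : Type} {G : SimpleGraph V} {R : SimpleGraph W} {r : V → W}
    (h : IsRoleAssignment G R r) {u v : V} (huv : G.Adj u v) : R.Adj (r u) (r v) := by
  have : r v ∈ r '' G.neighborSet u := ⟨v, huv, rfl⟩
  rw [h u] at this
  exact this

lemma IsRoleAssignment.surj {V W : Type} {G : SimpleGraph V} {R : SimpleGraph W} {r : V → W}
    (h : IsRoleAssignment G R r) {u : V} {y : W} (hy : R.Adj (r u) y) :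
    ∃ v, G.Adj u v ∧ r v = y := by
  have : y ∈ R.neighborSet (r u) := hy
  rw [← h u] at this
  exact this

lemma isRoleAssignment_of {V W : Type} {G : SimpleGraph V} {R : SimpleGraph W} {r : V → W}
    (h1 : ∀ u v, G.Adj u v → R.Adj (r u) (r v))
    (h2 : ∀ u y, R.Adj (r u) y → ∃ v, G.Adj u v ∧ r v = y) : IsRoleAssignment G R r := by
  intro u
  ext y
  constructor
  · rintro ⟨v, hv, rfl⟩
    exact h1 u v hv
  · intro hy
    exact h2 u y hy

variable {m L : ℕ}

lemma num_lt (x : Fin m × Bool) : num x < 2 * m := by
  have h1 := x.1.isLt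
  have h2 := Bool.toNat_le x.2
  simp only [num]
  omega

lemma num_inj {x y : Fin m × Bool} (h : num x = num y) : x = y := by
  obtain ⟨i, a⟩ := x
  obtain ⟨j, b⟩ := y
  have ha := Bool.toNat_le a
  have hb := Bool.toNat_le b
  simp only [num] at h
  have h1 : i.val = j.val := by omega
  have h2 : a.toNat = b.toNat := by omega
  have h3 : a = b := by
    cases a <;> cases b <;> simp_all
  rw [Fin.ext h1, h3]

lemma exists_num {k : ℕ} (h : k < 2 * m) : ∃ x : Fin m × Bool, num x = k := by
  rcases Nat.mod_two_eq_zero_or_one k with h0 | h1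
  · exact ⟨(⟨k / 2, by omega⟩, false), by simp only [num, Bool.toNat_false]; omega⟩
  · exact ⟨(⟨k / 2, by omega⟩, true), by simp only [num, Bool.toNat_true]; omega⟩

lemma levR_lt {T : Type} (lst : Fin m → T → Bool) (t : T) (p : Fin m × Fin 5) :
    levR lst t p < 2 * m := by
  have h1 := p.1.isLt
  have h2 := Bool.toNat_le (lst p.1 t)
  simp only [levR]
  split_ifs <;> omega

lemma levG_lt {C : Type} (spec : C → Fin m → Bool) (c : C) (p : Fin m × Fin 6) :
    levG spec c p < 2 * m := by
  have h1 := p.1.isLt
  have h2 := Bool.toNat_le (spec c p.1)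
  simp only [levG]
  split_ifs <;> omega

/-! ### From a colouring to a role assignment -/

section Forward

variable {T C : Type} {seg : C → Fin L} {spec : C → Fin m → Bool} {lst : Fin m → T → Bool}

/-- Images of the pendant vertices. -/
def pim (lst : Fin m → T → Bool) (spec : C → Fin m → Bool) (c : C) (t : T) (p : Fin m × Fin 6) :
    Fin m × Fin 5 :=
  (p.1, match p.2 with
    | 0 => 0
    | 1 => 1
    | 2 => 2
    | 3 => 3
    | 4 => if lst p.1 t then 4 else 2
    | 5 => if spec c p.1 then 2 else if lst p.1 t then 0 else 4)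

lemma levR_pim (c : C) (t : T) (p : Fin m × Fin 6) :
    levR lst t (pim lst spec c t p) = levG spec c p := by
  obtain ⟨j, x⟩ := p
  fin_cases x
  · simp [pim, levR, levG]
  · simp [pim, levR, levG]
  · simp [pim, levR, levG]
  · simp [pim, levR, levG]
  · rcases Bool.eq_false_or_eq_true (lst j t) with h | h <;> simp [pim, levR, levG, h]
  · rcases Bool.eq_false_or_eq_true (lst j t) with h | h <;>
      rcases Bool.eq_false_or_eq_true (spec c j) with h' | h' <;> simp [pim, levR, levG, h, h']

lemma pim_surj (c : C) (t : T) (hc : ∀ j, spec c j = true → lst j t = true) (p : Fin m × Fin 5) :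
    ∃ p', pim lst spec c t p' = p := by
  obtain ⟨j, x⟩ := p
  fin_cases x
  · exact ⟨(j, 0), rfl⟩
  · exact ⟨(j, 1), rfl⟩
  · exact ⟨(j, 2), rfl⟩
  · exact ⟨(j, 3), rfl⟩
  · cases h : lst j t with
    | true => exact ⟨(j, 4), by simp [pim, h]⟩
    | false =>
      have h' : spec c j = false := by
        by_contra hne
        have := hc j (by simpa using hne)
        rw [h] at this
        cases this
      exact ⟨(j, 5), by simp [pim, h, h']⟩

/-- The role assignment given by a colouring of the components. -/
def mkRole (lst : Fin m → T → Bool) (spec : C → Fin m → Bool) (col : C → T) :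
    Fin (L + 1) ⊕ C × ((Fin m × Bool) ⊕ (Fin m × Fin 6)) →
      Bool ⊕ T × ((Fin m × Bool) ⊕ (Fin m × Fin 5))
  | .inl h => .inl (decide (h.val % 2 = 0))
  | .inr (c, .inl x) => .inr (col c, .inl x)
  | .inr (c, .inr p) => .inr (col c, .inr (pim lst spec c (col c) p))

theorem mkRole_spec (col : C → T) (hcol : ∀ c j, spec c j = true → lst j (col c) = true)
    (hL : 1 ≤ L) (hcov : ∀ h : Fin (L + 1), ∀ t, ∃ c, ((seg c).val = h.val ∨
      (seg c).val + 1 = h.val) ∧ col c = t) :
    IsRoleAssignment (graphG seg spec) (graphR lst) (mkRole lst spec col) := by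
  have cimg : ∀ (c : C) (x y : (Fin m × Bool) ⊕ (Fin m × Fin 6)), cadj (levG spec c) x y →
      (graphR lst).Adj (mkRole (L := L) lst spec col (.inr (c, x)))
        (mkRole (L := L) lst spec col (.inr (c, y))) := by
    intro c x y hxy
    cases x with
    | inl x =>
      cases y with
      | inl y => exact ⟨rfl, hxy⟩
      | inr p =>
        refine ⟨rfl, ?_⟩
        change levR lst (col c) (pim lst spec c (col c) p) ≤ num x
        rw [levR_pim]; exact hxy
    | inr p =>
      cases y with
      | inl y =>
        refine ⟨rfl, ?_⟩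
        change levR lst (col c) (pim lst spec c (col c) p) ≤ num y
        rw [levR_pim]; exact hxy
      | inr p' => exact absurd hxy id
  have hubs : ∀ (c : C) (b : Bool), ∃ h : Fin (L + 1), ((seg c).val = h.val ∨
      (seg c).val + 1 = h.val) ∧ decide (h.val % 2 = 0) = b := by
    intro c b
    have hs := (seg c).isLt
    by_cases hp : decide ((seg c).val % 2 = 0) = b
    · exact ⟨⟨(seg c).val, by omega⟩, Or.inl rfl, hp⟩
    · refine ⟨⟨(seg c).val + 1, by omega⟩, Or.inr rfl, ?_⟩
      cases b <;> simp only [decide_eq_true_eq, decide_eq_false_iff_not, not_not] at hp ⊢ <;> omega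
  apply isRoleAssignment_of
  · rintro (h | ⟨c, x⟩) (h' | ⟨c', x'⟩) huv
    · change decide (h.val % 2 = 0) ≠ decide (h'.val % 2 = 0)
      change h.val + 1 = h'.val ∨ h'.val + 1 = h.val at huv
      intro he
      rw [decide_eq_decide] at he
      omega
    · cases x' <;> trivial
    · cases x <;> trivial
    · obtain ⟨h1, h2⟩ := huv
      simp only at h1
      subst h1
      exact cimg c x x' h2
  · rintro (h | ⟨c, x⟩) (b | ⟨t, y⟩) hy
    · -- hub to hub
      have hb : decide (h.val % 2 = 0) ≠ b := hy
      have hh := h.isLt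
      by_cases h0 : h.val = 0
      · refine ⟨.inl ⟨1, by omega⟩, Or.inl (by simp [h0]), ?_⟩
        change Sum.inl (decide ((1 : ℕ) % 2 = 0)) = _
        rw [h0] at hb
        cases b <;> simp_all
      · refine ⟨.inl ⟨h.val - 1, by omega⟩, Or.inr (by simp; omega), ?_⟩
        change Sum.inl (decide ((h.val - 1) % 2 = 0)) = _
        congr 1
        cases b <;> simp only [ne_eq, decide_eq_true_eq, decide_eq_false_iff_not, not_not] at hb ⊢ <;>
          omega
    · -- hub to component
      obtain ⟨c, hc, hct⟩ := hcov h t
      cases y with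
      | inl y => exact ⟨.inr (c, .inl y), hc, by rw [← hct]; rfl⟩
      | inr p =>
        obtain ⟨p', hp'⟩ := pim_surj c t (fun j hj => hct ▸ hcol c j hj) p
        refine ⟨.inr (c, .inr p'), hc, ?_⟩
        change Sum.inr (col c, Sum.inr (pim lst spec c (col c) p')) = _
        rw [hct, hp']
    · -- component to hub
      obtain ⟨h, hh, hhb⟩ := hubs c b
      refine ⟨.inl h, hh, ?_⟩
      change Sum.inl (decide (h.val % 2 = 0)) = _
      rw [hhb]
    · -- inside a component
      have ht : col c = t := by
        cases x <;> exact hy.1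
      subst ht
      cases x with
      | inl x =>
        cases y with
        | inl y =>
          have h2 : x ≠ y := hy.2
          exact ⟨.inr (c, .inl y), ⟨rfl, h2⟩, rfl⟩
        | inr p =>
          have h2 : levR lst (col c) p ≤ num x := hy.2
          obtain ⟨p', hp'⟩ := pim_surj c (col c) (hcol c) p
          refine ⟨.inr (c, .inr p'), ⟨rfl, ?_⟩, ?_⟩
          · change levG spec c p' ≤ num x
            rw [← levR_pim (lst := lst) c (col c) p', hp']
            exact h2
          · change Sum.inr (col c, Sum.inr (pim lst spec c (col c) p')) = _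
            rw [hp']
      | inr p =>
        cases y with
        | inl y =>
          have h2 : levR lst (col c) (pim lst spec c (col c) p) ≤ num y := hy.2
          rw [levR_pim] at h2
          exact ⟨.inr (c, .inl y), ⟨rfl, h2⟩, rfl⟩
        | inr p' => exact absurd hy.2 id

end Forward

end Pool.Agent.Lib.MP_a950c6_lc
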