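import Pool.Agent.Lib.MP_a950c6_lc.Kinds
import Pool.Agent.Lib.MP_a950c6_lc.Chain

/-!
# Vertices of the two graphs by kinds and indices
-/

namespace Pool.Agent.Lib.MP_a950c6_lc

set_option linter.unusedSectionVars false
set_option linter.unusedSimpArgs false

variable {m n : ℕ}

/-- Vertices of `G`. -/
abbrev VG (m n : ℕ) : Type :=
  Fin (2 * m + 2 + 1) ⊕ CIdx m (Fin n × Bool) (Fin n) × ((Fin m × Bool) ⊕ (Fin m × Fin 6))

/-- Vertices of `R`. -/
abbrev VR (m n : ℕ) : Type :=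
  Bool ⊕ (Fin n × Bool) × ((Fin m × Bool) ⊕ (Fin m × Fin 5))

/-- The component with given kind and indices. -/
def comp : CK → Fin m → Fin n → CIdx m (Fin n × Bool) (Fin n)
  | .ext s b, _, i => .inl (s, (i, b))
  | .mid b, j, i => .inr (j, b, i)

theorem posH_lt (h : HK) (j : Fin m) : posH m h j.val < 2 * m + 2 + 1 := by
  have := j.isLt
  rcases h with _ | b | b
  · simp [posH]
  · simp only [posH]; cases b <;> simp <;> omega
  · simp only [posH]; cases b <;> simp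

/-- The vertex of `G` with given kind and indices. -/
def toG : GK → Fin m → Fin n → Fin m → VG m n
  | .hub h, j, _, _ => .inl ⟨posH m h j.val, posH_lt h j⟩
  | .cl c b, j, i, p => .inr (comp c j i, .inl (p, b))
  | .pd c a, j, i, p => .inr (comp c j i, .inr (p, a))

/-- The vertex of `R` with given kind and indices. -/
def toR : RK → Fin m → Fin n → Fin m → VR m n
  | .hub b, _, _, _ => .inl b
  | .cl c b, _, i, p => .inr ((i, c), .inl (p, b))
  | .pd c a, _, i, p => .inr ((i, c), .inr (p, a))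

theorem seg_comp (c : CK) (j : Fin m) (i : Fin n) :
    (segOf (comp c j i)).val = posH m c.hk j.val := by
  rcases c with ⟨s, b⟩ | b
  · cases s <;> simp [comp, segOf, CK.hk, posH]
  · simp [comp, segOf, CK.hk, posH]

theorem comp_eq (c c' : CK) (j j' : Fin m) (i i' : Fin n) :
    comp c j i = comp c' j' i' ↔ ceq c j.val i.val c' j'.val i'.val := by
  rcases c with ⟨s, b⟩ | b <;> rcases c' with ⟨s', b'⟩ | b'
  · simp only [comp, ceq, Sum.inl.injEq, Prod.mk.injEq, Fin.ext_iff]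
    tauto
  · simp [comp, ceq]
  · simp [comp, ceq]
  · simp only [comp, ceq, Sum.inr.injEq, Prod.mk.injEq, Fin.ext_iff]
    tauto

theorem lev_iff (i₀ : Fin n) (h0 : i₀.val = 0) (c : CK) (j : Fin m) (i : Fin n) (p' p : Fin m)
    (a : Fin 6) (b : Bool) :
    levG (specOf i₀) (comp c j i) (p', a) ≤ num (p, b) ↔
      lowP (oneG c a j.val i.val p'.val) p'.val p.val b := by
  have hs : specOf i₀ (comp c j i) p' = true ↔ (c = .mid true ∧ p'.val = j.val ∧ i.val = 0) := by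
    rcases c with ⟨s, b⟩ | b
    · simp [comp, specOf]
    · cases b
      · simp [comp, specOf]
      · simp [comp, specOf, Fin.ext_iff, h0]
  unfold levG num lowP oneG
  simp only
  by_cases h1 : a.val < 2
  · rw [if_pos h1]
    have h2 : ¬ (2 ≤ a.val) := by omega
    cases b <;> simp [h2] <;> omega
  · rw [if_neg h1]
    by_cases h3 : a.val < 5
    · rw [if_pos h3]
      have h2 : 2 ≤ a.val := by omega
      cases b <;> simp [h2, h3] <;> omega
    · rw [if_neg h3]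
      have h2 : 2 ≤ a.val := by omega
      cases hb : specOf i₀ (comp c j i) p'
      · have h4 : ¬ (c = .mid true ∧ p'.val = j.val ∧ i.val = 0) := by
          rw [← hs, hb]; simp
        cases b <;> simp [h2, h3, h4] <;> omega
      · have h4 : (c = .mid true ∧ p'.val = j.val ∧ i.val = 0) := hs.1 hb
        cases b <;> simp [h2, h3, h4] <;> omega

theorem adjG_iff (i₀ : Fin n) (h0 : i₀.val = 0) (κ κ' : GK) (j j' : Fin m) (i i' : Fin n)
    (p p' : Fin m) :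
    (graphG (segOf (m := m) (T := Fin n × Bool) (I := Fin n)) (specOf i₀)).Adj
      (toG κ j i p) (toG κ' j' i' p') ↔
    adjGN m κ j.val i.val p.val κ' j'.val i'.val p'.val := by
  rcases κ with h | ⟨c, b⟩ | ⟨c, a⟩ <;> rcases κ' with h' | ⟨c', b'⟩ | ⟨c', a'⟩
  · exact Iff.rfl
  · change (segOf (comp c' j' i')).val = _ ∨ (segOf (comp c' j' i')).val + 1 = _ ↔ _
    rw [seg_comp]
    rfl
  · change (segOf (comp c' j' i')).val = _ ∨ (segOf (comp c' j' i')).val + 1 = _ ↔ _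
    rw [seg_comp]
    rfl
  · change (segOf (comp c j i)).val = _ ∨ (segOf (comp c j i)).val + 1 = _ ↔ _
    rw [seg_comp]
    rfl
  · change comp c j i = comp c' j' i' ∧ (p, b) ≠ (p', b') ↔ _
    rw [comp_eq]
    simp only [adjGN, ne_eq, Prod.mk.injEq, Fin.ext_iff]
  · change comp c j i = comp c' j' i' ∧ levG (specOf i₀) (comp c j i) (p', a') ≤ num (p, b) ↔ _
    simp only [adjGN]
    rw [← comp_eq, ← lev_iff i₀ h0]
    constructor
    · rintro ⟨h1, h2⟩
      exact ⟨h1, h1 ▸ h2⟩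
    · rintro ⟨h1, h2⟩
      exact ⟨h1, h1 ▸ h2⟩
  · change (segOf (comp c j i)).val = _ ∨ (segOf (comp c j i)).val + 1 = _ ↔ _
    rw [seg_comp]
    rfl
  · change comp c j i = comp c' j' i' ∧ levG (specOf i₀) (comp c j i) (p, a) ≤ num (p', b') ↔ _
    simp only [adjGN]
    rw [← comp_eq, ← lev_iff i₀ h0]
    constructor
    · rintro ⟨h1, h2⟩
      exact ⟨h1.symm, h2⟩
    · rintro ⟨h1, h2⟩
      exact ⟨h1.symm, h2⟩
  · change comp c j i = comp c' j' i' ∧ False ↔ _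
    simp [adjGN]

theorem levR_iff {lst : Fin m → Fin n × Bool → Bool} {ls : ℕ → ℕ → Bool → Prop}
    (hl : ∀ p i c, lst p (i, c) = true ↔ ls p.val i.val c) (i : Fin n) (c : Bool) (p' p : Fin m)
    (a : Fin 5) (b : Bool) :
    levR lst (i, c) (p', a) ≤ num (p, b) ↔
      lowP (2 ≤ a.val ∧ (a.val < 4 ∨ ls p'.val i.val c)) p'.val p.val b := by
  unfold levR num lowP
  simp only
  by_cases h1 : a.val < 2
  · rw [if_pos h1]
    have h2 : ¬ (2 ≤ a.val) := by omega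
    cases b <;> simp [h2] <;> omega
  · rw [if_neg h1]
    by_cases h3 : a.val < 4
    · rw [if_pos h3]
      have h2 : 2 ≤ a.val := by omega
      cases b <;> simp [h2, h3] <;> omega
    · rw [if_neg h3]
      have h2 : 2 ≤ a.val := by omega
      cases hb : lst p' (i, c)
      · have h4 : ¬ ls p'.val i.val c := by
          rw [← hl, hb]; simp
        cases b <;> simp [h2, h3, h4] <;> omega
      · have h4 : ls p'.val i.val c := (hl _ _ _).1 hb
        cases b <;> simp [h2, h3, h4] <;> omega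

theorem adjR_iff {lst : Fin m → Fin n × Bool → Bool} {ls : ℕ → ℕ → Bool → Prop}
    (hl : ∀ p i c, lst p (i, c) = true ↔ ls p.val i.val c) (κ κ' : RK) (j j' : Fin m)
    (i i' : Fin n) (p p' : Fin m) :
    (graphR lst).Adj (toR κ j i p) (toR κ' j' i' p') ↔
      adjRN ls κ j.val i.val p.val κ' j'.val i'.val p'.val := by
  rcases κ with b | ⟨c, b⟩ | ⟨c, a⟩ <;> rcases κ' with b' | ⟨c', b'⟩ | ⟨c', a'⟩
  · exact Iff.rfl
  · exact Iff.rfl
  · exact Iff.rfl
  · exact Iff.rfl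
  · change (i, c) = (i', c') ∧ (p, b) ≠ (p', b') ↔ _
    simp only [adjRN, ne_eq, Prod.mk.injEq, Fin.ext_iff]
    tauto
  · change (i, c) = (i', c') ∧ levR lst (i, c) (p', a') ≤ num (p, b) ↔ _
    simp only [adjRN]
    rw [← levR_iff hl]
    simp only [Prod.mk.injEq, Fin.ext_iff]
    constructor
    · rintro ⟨⟨h1, h2⟩, h3⟩
      obtain rfl := Fin.ext h1
      subst h2
      exact ⟨⟨rfl, rfl⟩, h3⟩
    · rintro ⟨⟨h1, h2⟩, h3⟩
      obtain rfl := Fin.ext h2
      subst h1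
      exact ⟨⟨rfl, rfl⟩, h3⟩
  · exact Iff.rfl
  · change (i, c) = (i', c') ∧ levR lst (i, c) (p, a) ≤ num (p', b') ↔ _
    simp only [adjRN]
    rw [← levR_iff hl]
    simp only [Prod.mk.injEq, Fin.ext_iff]
    constructor
    · rintro ⟨⟨h1, h2⟩, h3⟩
      exact ⟨⟨h2.symm, h1.symm⟩, h3⟩
    · rintro ⟨⟨h1, h2⟩, h3⟩
      exact ⟨⟨h2.symm, h1.symm⟩, h3⟩
  · change (i, c) = (i', c') ∧ False ↔ _
    simp [adjRN]

theorem posH_inj {h h' : HK} {j j' : Fin m} (hp : posH m h j.val = posH m h' j'.val)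
    (hv : valG (.hub h) j.val 0 0) (hv' : valG (.hub h') j'.val 0 0) : h = h' ∧ j = j' := by
  have := j.isLt
  have := j'.isLt
  rcases h with _ | b | b <;> rcases h' with _ | b' | b' <;> simp only [posH, valG] at hp hv hv'
  · exact ⟨rfl, Fin.ext (by omega)⟩
  · omega
  · omega
  · omega
  · cases b <;> cases b' <;> simp at hp <;> first | omega | exact ⟨rfl, Fin.ext (by omega)⟩
  · cases b <;> cases b' <;> simp at hp <;> omega
  · omega
  · cases b <;> cases b' <;> simp at hp <;> omega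
  · cases b <;> cases b' <;> simp at hp <;> exact ⟨rfl, Fin.ext (by omega)⟩

theorem comp_inj {c c' : CK} {j j' : Fin m} {i i' : Fin n} (hc : comp c j i = comp c' j' i')
    (hv : ∀ s b, c = .ext s b → j.val = 0) (hv' : ∀ s b, c' = .ext s b → j'.val = 0) :
    c = c' ∧ j = j' ∧ i = i' := by
  rcases c with ⟨s, b⟩ | b <;> rcases c' with ⟨s', b'⟩ | b' <;>
    simp only [comp, Sum.inl.injEq, Sum.inr.injEq, Prod.mk.injEq, reduceCtorEq] at hc
  · obtain ⟨rfl, rfl, rfl⟩ := hc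
    exact ⟨rfl, Fin.ext ((hv _ _ rfl).trans (hv' _ _ rfl).symm), rfl⟩
  · obtain ⟨rfl, rfl, rfl⟩ := hc
    exact ⟨rfl, rfl, rfl⟩

theorem toG_inj {κ κ' : GK} {j j' : Fin m} {i i' : Fin n} {p p' : Fin m}
    (hv : valG κ j.val i.val p.val) (hv' : valG κ' j'.val i'.val p'.val)
    (h : toG κ j i p = toG κ' j' i' p') : κ = κ' ∧ j = j' ∧ i = i' ∧ p = p' := by
  rcases κ with h1 | ⟨c, b⟩ | ⟨c, a⟩ <;> rcases κ' with h1' | ⟨c', b'⟩ | ⟨c', a'⟩ <;>
    simp only [toG, Sum.inl.injEq, Sum.inr.injEq, Prod.mk.injEq, reduceCtorEq, Fin.mk.injEq,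
      and_false] at h
  · have e1 : i.val = 0 ∧ p.val = 0 ∧ valG (.hub h1) j.val 0 0 := by
      rcases h1 with _ | b | b <;> simp only [valG] at hv ⊢ <;> simp [hv]
    have e2 : i'.val = 0 ∧ p'.val = 0 ∧ valG (.hub h1') j'.val 0 0 := by
      rcases h1' with _ | b | b <;> simp only [valG] at hv' ⊢ <;> simp [hv']
    obtain ⟨h2, h3⟩ := posH_inj h e1.2.2 e2.2.2
    exact ⟨by rw [h2], h3, Fin.ext (by omega), Fin.ext (by omega)⟩
  · obtain ⟨h2, rfl, rfl⟩ := h
    obtain ⟨rfl, h3, h4⟩ := comp_inj h2 (by rintro s b'' rfl; exact hv) (by rintro s b'' rfl; exact hv')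
    exact ⟨rfl, h3, h4, rfl⟩
  · obtain ⟨h2, rfl, rfl⟩ := h
    obtain ⟨rfl, h3, h4⟩ := comp_inj h2 (by rintro s b'' rfl; exact hv) (by rintro s b'' rfl; exact hv')
    exact ⟨rfl, h3, h4, rfl⟩

theorem comp_surj (hm : 0 < m) (c : CIdx m (Fin n × Bool) (Fin n)) :
    ∃ k j i, comp k j i = c ∧ ∀ s b, k = .ext s b → j.val = 0 := by
  rcases c with ⟨s, i, b⟩ | ⟨j, b, i⟩
  · exact ⟨.ext s b, ⟨0, hm⟩, i, rfl, fun _ _ _ => rfl⟩
  · exact ⟨.mid b, j, i, rfl, by simp⟩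

theorem toG_surj (hm : 0 < m) (hn : 0 < n) (v : VG m n) :
    ∃ κ j i p, toG κ j i p = v ∧ valG κ j.val i.val p.val := by
  rcases v with ⟨h, hh⟩ | ⟨c, ⟨p, b⟩ | ⟨p, a⟩⟩
  · rcases Nat.eq_zero_or_pos h with rfl | h0
    · exact ⟨.hub .a, ⟨0, hm⟩, ⟨0, hn⟩, ⟨0, hm⟩, rfl, rfl, rfl, rfl⟩
    · by_cases h1 : h ≤ 2 * m
      · have hb : ∃ b : Bool, ∃ j, h = 2 * j + 1 + b.toNat := by
          rcases Nat.even_or_odd' (h - 1) with ⟨k, hk | hk⟩
          · exact ⟨false, k, by simp; omega⟩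
          · exact ⟨true, k, by simp; omega⟩
        obtain ⟨b, j, hj⟩ := hb
        have hjm : j < m := by cases b <;> simp at hj <;> omega
        exact ⟨.hub (.mid b), ⟨j, hjm⟩, ⟨0, hn⟩, ⟨0, hm⟩, by simp only [toG, posH, hj], rfl, rfl⟩
      · have hb : ∃ b : Bool, h = 2 * m + 1 + b.toNat := by
          by_cases h2 : h = 2 * m + 1
          · exact ⟨false, by simp; omega⟩
          · exact ⟨true, by simp; omega⟩
        obtain ⟨b, hb⟩ := hb
        exact ⟨.hub (.z b), ⟨0, hm⟩, ⟨0, hn⟩, ⟨0, hm⟩, by simp only [toG, posH, hb], rfl, rfl, rfl⟩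
  · obtain ⟨k, j, i, rfl, h⟩ := comp_surj hm c
    refine ⟨.cl k b, j, i, p, rfl, ?_⟩
    rcases k with ⟨s, b'⟩ | b'
    · exact h _ _ rfl
    · trivial
  · obtain ⟨k, j, i, rfl, h⟩ := comp_surj hm c
    refine ⟨.pd k a, j, i, p, rfl, ?_⟩
    rcases k with ⟨s, b'⟩ | b'
    · exact h _ _ rfl
    · trivial

theorem toR_inj {κ κ' : RK} {j j' : Fin m} {i i' : Fin n} {p p' : Fin m}
    (hv : valR κ j.val i.val p.val) (hv' : valR κ' j'.val i'.val p'.val)
    (h : toR κ j i p = toR κ' j' i' p') : κ = κ' ∧ j = j' ∧ i = i' ∧ p = p' := by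
  rcases κ with b | ⟨c, b⟩ | ⟨c, a⟩ <;> rcases κ' with b' | ⟨c', b'⟩ | ⟨c', a'⟩ <;>
    simp only [toR, Sum.inl.injEq, Sum.inr.injEq, Prod.mk.injEq, reduceCtorEq, Fin.mk.injEq,
      and_false] at h
  · subst h
    simp only [valR] at hv hv'
    exact ⟨rfl, Fin.ext (by omega), Fin.ext (by omega), Fin.ext (by omega)⟩
  · obtain ⟨⟨rfl, rfl⟩, rfl, rfl⟩ := h
    simp only [valR] at hv hv'
    exact ⟨rfl, Fin.ext (by omega), rfl, rfl⟩
  · obtain ⟨⟨rfl, rfl⟩, rfl, rfl⟩ := h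
    simp only [valR] at hv hv'
    exact ⟨rfl, Fin.ext (by omega), rfl, rfl⟩

theorem toR_surj (hm : 0 < m) (hn : 0 < n) (v : VR m n) :
    ∃ κ j i p, toR κ j i p = v ∧ valR κ j.val i.val p.val := by
  rcases v with b | ⟨⟨i, c⟩, ⟨p, b⟩ | ⟨p, a⟩⟩
  · exact ⟨.hub b, ⟨0, hm⟩, ⟨0, hn⟩, ⟨0, hm⟩, rfl, rfl, rfl, rfl⟩
  · exact ⟨.cl c b, ⟨0, hm⟩, i, p, rfl, rfl⟩
  · exact ⟨.pd c a, ⟨0, hm⟩, i, p, rfl, rfl⟩

end Pool.Agent.Lib.MP_a950c6_lc
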