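import Pool.Agent.Lib.MP_a950c6_lc.Defs
import Pool.Agent.Lib.MP_75fd85_lc.Algo
import Pool.Agent.Lib.PolyTM.Comp

/-!
# Graphs as words and the language of the decision problem
-/

namespace Pool.Agent.Lib.MP_a950c6_lc

open Pool.Agent.Lib.MP_75fd85_lc (InNP InP Halts)
open Pool.Agent.Lib.PolyTM (PolyFun)

open Classical in
/-- The word describing a graph on `{0, ..., n-1}`: the number `n` in unary followed by `false`,
and the rows of the adjacency matrix. -/
noncomputable def graphWord {n : ℕ} (G : SimpleGraph (Fin n)) : List Bool :=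
  List.replicate n true ++ false ::
    (List.finRange n).flatMap fun i => (List.finRange n).map fun j => decide (G.Adj i j)

/-- The decision problem ROLE ASSIGNMENT restricted to input pairs `(G, R)` in which `G` is an
interval graph, as a language. -/
def roleInterval : Set (List Bool) :=
  {w | ∃ (n k : ℕ) (G : SimpleGraph (Fin n)) (R : SimpleGraph (Fin k)),
    w = graphWord G ++ graphWord R ∧ IsIntervalGraph G ∧ ∃ r, IsRoleAssignment G R r}

/-- `L` is NP-hard: every language in NP is reducible to `L` by a function computable in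
polynomial time. -/
def NPHard (L : Set (List Bool)) : Prop :=
  ∀ L' : Set (List Bool), InNP L' → ∃ f : List Bool → List Bool, PolyFun f ∧
    ∀ x, x ∈ L' ↔ f x ∈ L

/-- `L` is NP-complete. -/
def NPComplete (L : Set (List Bool)) : Prop := InNP L ∧ NPHard L

/-- The machine `A` decides within time `p(|V_G| + |V_R|)` whether `G` has an `R`-role assignment,
for all input pairs `(G, R)` in which `G` is an interval graph (nothing is required for other
inputs). -/
def DecidesRoles (A : Turing.TM2ComputableAux Bool Bool) (p : Polynomial ℕ) : Prop :=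
  ∀ (n k : ℕ) (G : SimpleGraph (Fin n)) (R : SimpleGraph (Fin k)), IsIntervalGraph G →
    ((∃ r, IsRoleAssignment G R r) →
      Halts A (graphWord G ++ graphWord R) [true] (p.eval (n + k))) ∧
    ((¬ ∃ r, IsRoleAssignment G R r) →
      Halts A (graphWord G ++ graphWord R) [false] (p.eval (n + k)))

/-- There is a polynomial-time algorithm for ROLE ASSIGNMENT restricted to input pairs `(G, R)` in
which `G` is an interval graph. -/
def PolynomialAlgorithm : Prop :=
  ∃ (A : Turing.TM2ComputableAux Bool Bool) (p : Polynomial ℕ), (∀ k, Finite (A.tm.Γ k)) ∧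
    DecidesRoles A p

/-! ### Unique decoding -/

theorem rep_inj {n n' : ℕ} {s s' : List Bool}
    (h : List.replicate n true ++ false :: s = List.replicate n' true ++ false :: s') :
    n = n' ∧ s = s' := by
  induction n generalizing n' with
  | zero =>
    cases n' with
    | zero => simpa using h
    | succ n' => simp [List.replicate_succ] at h
  | succ n ih =>
    cases n' with
    | zero => simp [List.replicate_succ] at h
    | succ n' =>
      simp only [List.replicate_succ, List.cons_append, List.cons.injEq, true_and] at h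
      obtain ⟨h1, h2⟩ := ih h
      exact ⟨by omega, h2⟩

theorem flatMap_inj {α β : Type} (l : List α) (f g : α → List β)
    (hl : ∀ x ∈ l, (f x).length = (g x).length) (s s' : List β)
    (h : l.flatMap f ++ s = l.flatMap g ++ s') : (∀ x ∈ l, f x = g x) ∧ s = s' := by
  induction l with
  | nil => simpa using h
  | cons x l ih =>
    simp only [List.flatMap_cons, List.append_assoc] at h
    obtain ⟨h1, h2⟩ := List.append_inj h (hl x (by simp))
    obtain ⟨h3, h4⟩ := ih (fun y hy => hl y (by simp [hy])) h2
    exact ⟨by simpa using ⟨h1, h3⟩, h4⟩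

theorem graphWord_inj {n n' : ℕ} {G : SimpleGraph (Fin n)} {G' : SimpleGraph (Fin n')}
    {s s' : List Bool} (h : graphWord G ++ s = graphWord G' ++ s') :
    n = n' ∧ HEq G G' ∧ s = s' := by
  classical
  unfold graphWord at h
  simp only [List.append_assoc, List.cons_append] at h
  obtain ⟨rfl, h2⟩ := rep_inj h
  obtain ⟨h3, h4⟩ := flatMap_inj _ _ _ (by simp) _ _ h2
  refine ⟨rfl, heq_of_eq ?_, h4⟩
  ext i j
  have h5 := h3 i (List.mem_finRange i)
  have h6 := List.map_inj_left.1 h5 j (List.mem_finRange j)
  rw [← decide_eq_decide]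
  exact h6

theorem mem_roleInterval {n k : ℕ} (G : SimpleGraph (Fin n)) (R : SimpleGraph (Fin k)) :
    graphWord G ++ graphWord R ∈ roleInterval ↔
      IsIntervalGraph G ∧ ∃ r, IsRoleAssignment G R r := by
  constructor
  · rintro ⟨n', k', G', R', h1, h2, h3⟩
    obtain ⟨rfl, h4, h5⟩ := graphWord_inj h1
    rw [← List.append_nil (graphWord R), ← List.append_nil (graphWord R')] at h5
    obtain ⟨rfl, h6, -⟩ := graphWord_inj h5
    cases h4
    cases h6
    exact ⟨h2, h3⟩
  · rintro ⟨h2, h3⟩
    exact ⟨n, k, G, R, rfl, h2, h3⟩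

/-! ### Isomorphic graphs -/

theorem isRole_comap {V W V' W' : Type} (G : SimpleGraph V) (R : SimpleGraph W) (e : V' ≃ V)
    (e' : W' ≃ W) (r : V' → W') :
    IsRoleAssignment (G.comap e) (R.comap e') r ↔
      IsRoleAssignment G R (fun v => e' (r (e.symm v))) := by
  constructor
  · intro h u
    ext w
    have h1 := Set.ext_iff.1 (h (e.symm u)) (e'.symm w)
    simp only [Set.mem_image, SimpleGraph.mem_neighborSet, SimpleGraph.comap_adj,
      Equiv.apply_symm_apply] at h1 ⊢
    rw [← h1]
    constructor
    · rintro ⟨v, hv, rfl⟩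
      exact ⟨e.symm v, by simpa using hv, by simp⟩
    · rintro ⟨v, hv, h2⟩
      exact ⟨e v, hv, by simp [h2]⟩
  · intro h u
    ext w
    have h1 := Set.ext_iff.1 (h (e u)) (e' w)
    simp only [Set.mem_image, SimpleGraph.mem_neighborSet, SimpleGraph.comap_adj,
      Equiv.symm_apply_apply] at h1 ⊢
    rw [← h1]
    constructor
    · rintro ⟨v, hv, rfl⟩
      exact ⟨e v, hv, by simp⟩
    · rintro ⟨v, hv, h2⟩
      exact ⟨e.symm v, by simpa using hv, e'.injective (by simpa using h2)⟩

theorem exists_role_comap {V W V' W' : Type} (G : SimpleGraph V) (R : SimpleGraph W)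
    (e : V' ≃ V) (e' : W' ≃ W) :
    (∃ r, IsRoleAssignment (G.comap e) (R.comap e') r) ↔ ∃ r, IsRoleAssignment G R r := by
  constructor
  · rintro ⟨r, hr⟩
    exact ⟨_, (isRole_comap G R e e' r).1 hr⟩
  · rintro ⟨r, hr⟩
    refine ⟨fun v => e'.symm (r (e v)), (isRole_comap G R e e' _).2 ?_⟩
    have h : (fun v => e' (e'.symm (r (e (e.symm v))))) = r := by
      funext v; simp
    rw [h]
    exact hr

theorem IsIntervalGraph.comap {V V' : Type} {G : SimpleGraph V} (h : IsIntervalGraph G)
    (e : V' ≃ V) : IsIntervalGraph (G.comap e) := by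
  obtain ⟨a, b, h1, h2⟩ := h
  refine ⟨a ∘ e, b ∘ e, fun v => h1 _, fun u v => ?_⟩
  rw [SimpleGraph.comap_adj, h2]
  simp

end Pool.Agent.Lib.MP_a950c6_lc
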