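import Pool.Agent.Lib.MP_a950c6_lc.EmitG
import Pool.Agent.Lib.MP_a950c6_lc.Verts
import Pool.Agent.Lib.MP_a950c6_lc.Words

/-!
# ROLE ASSIGNMENT on interval graphs is NP-hard
-/

namespace Pool.Agent.Lib.MP_a950c6_lc

set_option linter.unusedSectionVars false
set_option linter.unusedSimpArgs false

open Pool.Agent.Lib.PolyTM Pool.Agent.Lib.PolyTM.Tab Function Turing
open Pool.Agent.Lib.MP_75fd85_lc (Pn sc4 clauses mem_clauses idx_lt InNP Halts InP ar1)

/-! ### The word of a graph given by a list -/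

theorem flatMap_getD {A B : Type} (l : List A) (g : A → List B) :
    l.flatMap g = (List.finRange l.length).flatMap fun i => g (l.get i) := by
  conv_lhs => rw [← MP_75fd85_lc.map_get_finRange l]
  rw [List.flatMap_map]

theorem map_getD {A B : Type} (l : List A) (g : A → B) :
    l.map g = (List.finRange l.length).map fun i => g (l.get i) := by
  conv_lhs => rw [← MP_75fd85_lc.map_get_finRange l]
  rw [List.map_map]
  rfl

theorem listWord_eq {A V : Type} (l : List A) (adj : A → A → Prop) (G : SimpleGraph V)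
    (f : Fin l.length → V) (h : ∀ i j, adj (l.get i) (l.get j) ↔ G.Adj (f i) (f j)) :
    listWord l adj = graphWord (G.comap f) := by
  classical
  unfold listWord graphWord
  rw [flatMap_getD l]
  congr 2
  refine List.flatMap_congr fun i _ => ?_
  rw [map_getD l]
  refine List.map_congr_left fun j _ => ?_
  simp only [SimpleGraph.comap_adj]
  rw [decide_eq_decide]
  exact h i j

section Lists

variable {Kd V : Type} {m n : ℕ} (ks : List Kd) (val : Kd → ℕ → ℕ → ℕ → Prop)
  (adj : Kd → ℕ → ℕ → ℕ → Kd → ℕ → ℕ → ℕ → Prop) (G : SimpleGraph V)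
  (tv : Kd → Fin m → Fin n → Fin m → V)

open Classical in
theorem word_comap (hks : ks.Nodup) (hall : ∀ κ, κ ∈ ks)
    (hadj : ∀ κ j i p κ' j' i' p', G.Adj (tv κ j i p) (tv κ' j' i' p') ↔
      adj κ j.val i.val p.val κ' j'.val i'.val p'.val)
    (hinj : ∀ κ κ' j j' i i' p p', val κ j.val i.val p.val → val κ' j'.val i'.val p'.val →
      tv κ j i p = tv κ' j' i' p' → κ = κ' ∧ j = j' ∧ i = i' ∧ p = p')
    (hsurj : ∀ v, ∃ κ j i p, tv κ j i p = v ∧ val κ j.val i.val p.val) :
    ∃ (k : ℕ) (e : Fin k ≃ V), listWord ((QL ks m n).filter fun q =>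
      decide (val q.1 q.2.1.val q.2.2.1.val q.2.2.2.val))
        (fun q q' => adj q.1 q.2.1.val q.2.2.1.val q.2.2.2.val q'.1 q'.2.1.val q'.2.2.1.val
            q'.2.2.2.val) = graphWord (G.comap e) := by
  set l := (QL ks m n).filter fun q => decide (val q.1 q.2.1.val q.2.2.1.val q.2.2.2.val) with hl
  have hnd : l.Nodup := (nodup_QL hks m n).filter _
  let f : Fin l.length → V := fun i =>
    tv (l.get i).1 (l.get i).2.1 (l.get i).2.2.1 (l.get i).2.2.2
  have hval : ∀ i : Fin l.length, val (l.get i).1 (l.get i).2.1.val (l.get i).2.2.1.val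
      (l.get i).2.2.2.val := by
    intro i
    exact of_decide_eq_true (List.mem_filter.1 (List.get_mem l i)).2
  have hf : Function.Bijective f := by
    constructor
    · intro i j hij
      obtain ⟨h1, h2, h3, h4⟩ := hinj _ _ _ _ _ _ _ _ (hval i) (hval j) hij
      have h5 : l.get i = l.get j := Prod.ext h1 (Prod.ext h2 (Prod.ext h3 h4))
      exact (List.nodup_iff_injective_get.1 hnd) h5
    · intro v
      obtain ⟨κ, j, i, p, h1, h2⟩ := hsurj v
      have h3 : (κ, j, i, p) ∈ l := by
        rw [hl, List.mem_filter]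
        exact ⟨(mem_QL _).2 (hall _), decide_eq_true h2⟩
      obtain ⟨t, ht⟩ := List.get_of_mem h3
      refine ⟨t, ?_⟩
      change tv (l.get t).1 (l.get t).2.1 (l.get t).2.2.1 (l.get t).2.2.2 = v
      rw [ht]
      exact h1
  refine ⟨l.length, Equiv.ofBijective f hf, ?_⟩
  exact listWord_eq l _ G _ fun i j => (hadj _ _ _ _ _ _ _ _).symm

end Lists

/-! ### The formula -/

section Formula

variable {K : Type} {Γ : K → Type} {S : Type} {U : ℕ} {P : Pr} {cd : VT K Γ S ≃ Fin U}
  {cs : List (Sc K Γ S)} {x : List Bool}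

open Classical in
/-- The clauses, and the pair clause of every variable. -/
noncomputable def lstB (P : Pr) (cd : VT K Γ S ≃ Fin U) (cs : List (Sc K Γ S)) (x : List Bool) :
    Fin (mX P ((sc4 cs).length + U) x) → Fin (mX P U x) × Bool → Bool :=
  fun j t => decide (lstN P cd cs x j.val t.1.val t.2)

theorem lstB_iff (p : Fin (mX P ((sc4 cs).length + U) x)) (i : Fin (mX P U x)) (c : Bool) :
    lstB P cd cs x p (i, c) = true ↔ lstN P cd cs x p.val i.val c := by
  simp [lstB]

theorem satB_iff : Satisfiable (lstB P cd cs x) ↔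
    MP_75fd85_lc.Satisfiable (clauses cd cs ((x.length + 2) ^ P.D) (amP P x)) := by
  have e1 : mX P ((sc4 cs).length + U) x = (sc4 cs).length *
      ((x.length + 2) ^ P.D * (x.length + 2) ^ P.D) + mX P U x := by
    simp only [mX]; ring
  constructor
  · rintro ⟨v, hv⟩
    refine ⟨v, fun j => ?_⟩
    have hj := j.isLt
    obtain ⟨⟨k, b⟩, ht, hvt⟩ := hv ⟨j.val, by omega⟩
    rw [lstB_iff] at ht
    refine ⟨(k, b), ?_, hvt⟩
    rcases ht with ht | ht
    · rw [mem_clauses]
      exact ht
    · simp only at ht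
      omega
  · rintro ⟨v, hv⟩
    refine ⟨v, fun j => ?_⟩
    have hj := j.isLt
    by_cases h : j.val < (sc4 cs).length * ((x.length + 2) ^ P.D * (x.length + 2) ^ P.D)
    · obtain ⟨⟨k, b⟩, ht, hvt⟩ := hv ⟨j.val, h⟩
      rw [mem_clauses] at ht
      exact ⟨(k, b), (lstB_iff _ _ _).2 (Or.inl ht), hvt⟩
    · set k : Fin (mX P U x) := ⟨j.val - (sc4 cs).length *
        ((x.length + 2) ^ P.D * (x.length + 2) ^ P.D), by omega⟩ with hk
      refine ⟨(k, v k), (lstB_iff _ _ _).2 (Or.inr ?_), rfl⟩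
      simp only [hk]
      omega

theorem pairB (i : Fin (mX P U x)) : ∃ j, ∀ t, lstB P cd cs x j t = true ↔ t.1 = i := by
  have e1 : mX P ((sc4 cs).length + U) x = (sc4 cs).length *
      ((x.length + 2) ^ P.D * (x.length + 2) ^ P.D) + mX P U x := by
    simp only [mX]; ring
  have hi := i.isLt
  refine ⟨⟨(sc4 cs).length * ((x.length + 2) ^ P.D * (x.length + 2) ^ P.D) + i.val, by omega⟩,
    fun t => ?_⟩
  obtain ⟨k, b⟩ := t
  rw [lstB_iff]
  have hpos : 0 < (x.length + 2) ^ P.D * (x.length + 2) ^ P.D := by positivity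
  constructor
  · rintro (⟨q, v, h1, -⟩ | h)
    · exfalso
      obtain ⟨h2, -⟩ := List.getElem?_eq_some_iff.1 h1
      simp only at h2
      have h3 : (sc4 cs).length ≤ ((sc4 cs).length *
          ((x.length + 2) ^ P.D * (x.length + 2) ^ P.D) + i.val) /
          ((x.length + 2) ^ P.D * (x.length + 2) ^ P.D) :=
        (Nat.le_div_iff_mul_le hpos).2 (by omega)
      omega
    · simp only at h
      exact Fin.ext (by change k.val = i.val; omega)
  · intro h
    right
    change k = i at h
    simp only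
    rw [h]

end Formula

/-! ### The reduction -/

/-- The graphs of the reduction are written by a program. -/
theorem prog_exists {K : Type} {Γ : K → Type} {S : Type} {U : ℕ} (P : Pr)
    (cd : VT K Γ S ≃ Fin U) (cs : List (Sc K Γ S)) (hU : 0 < U) :
    ∃ S' : PrgV P, S'.wf ar1 [] = true ∧ ∀ x : List Bool,
      ∃ (n k : ℕ) (G : SimpleGraph (Fin n)) (R : SimpleGraph (Fin k)),
        S'.out (fun _ => true) (fun (_ : Unit) b => some b) (x ++ [true, true]) =
          graphWord G ++ graphWord R ∧ IsIntervalGraph G ∧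
        ((∃ r, IsRoleAssignment G R r) ↔
          MP_75fd85_lc.Satisfiable (clauses cd cs ((x.length + 2) ^ P.D) (amP P x))) := by
  classical
  set r := (sc4 cs).length + U with hr
  obtain ⟨SG, wG, eG⟩ := exists_prog (P := P) (r := r) (U := U) (Finset.univ : Finset GK).toList
    (fun _ => valG) (fun x => adjGN (mX P r x))
    (fun β κ σ u τ hσ hu hτ => Df.valG hσ hu hτ (inF_vV β fun y hy => hy) κ)
    (fun κ σ u τ κ' σ' u' τ' hσ hu hτ hσ' hu' hτ' => Df.adjG hσ hσ' hu hu' hτ hτ'
      (inF_vV false fun y hy => List.mem_append.2 (Or.inl hy))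
      (inF_vV true fun y hy => List.mem_append.2 (Or.inr hy)) κ κ')
  obtain ⟨SR, wR, eR⟩ := exists_prog (P := P) (r := r) (U := U) (Finset.univ : Finset RK).toList
    (fun _ => valR) (fun x => adjRN (lstN P cd cs x))
    (fun β κ σ u τ hσ hu hτ => Df.valR hσ hu hτ (inF_vV β fun y hy => hy) κ)
    (fun κ σ u τ κ' σ' u' τ' hσ hu hτ hσ' hu' hτ' => Df.adjR hr hσ hσ' hu hu' hτ hτ'
      (inF_vV false fun y hy => List.mem_append.2 (Or.inl hy))
      (inF_vV true fun y hy => List.mem_append.2 (Or.inr hy)) κ κ')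
  refine ⟨.seq SG SR, by simp only [Stmt.wf, Bool.and_eq_true]; exact ⟨wG, wR⟩, fun x => ?_⟩
  set N := x.length + 2 with hN
  have hNpos : 0 < N := by omega
  have hT : 0 < N ^ P.D * N ^ P.D := by positivity
  have hn : 0 < mX P U x := Nat.mul_pos hU hT
  have hm : 0 < mX P r x := Nat.mul_pos (by omega) hT
  set i₀ : Fin (mX P U x) := ⟨0, hn⟩ with hi₀
  obtain ⟨k1, e1, h1⟩ := word_comap (m := mX P r x) (n := mX P U x)
    (Finset.univ : Finset GK).toList valG
    (adjGN (mX P r x)) (graphG (segOf (m := mX P r x) (T := Fin (mX P U x) × Bool)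
      (I := Fin (mX P U x))) (specOf i₀)) toG (Finset.nodup_toList _) (by simp)
    (fun κ j i p κ' j' i' p' => adjG_iff i₀ rfl κ κ' j j' i i' p p')
    (fun κ κ' j j' i i' p p' h h' => toG_inj h h')
    (toG_surj hm hn)
  obtain ⟨k2, e2, h2⟩ := word_comap (m := mX P r x) (n := mX P U x)
    (Finset.univ : Finset RK).toList valR
    (adjRN (lstN P cd cs x)) (graphR (lstB P cd cs x)) toR (Finset.nodup_toList _) (by simp)
    (fun κ j i p κ' j' i' p' => adjR_iff lstB_iff κ κ' j j' i i' p p')
    (fun κ κ' j j' i i' p p' h h' => toR_inj h h')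
    (toR_surj hm hn)
  refine ⟨k1, k2, (graphG (segOf (m := mX P r x) (T := Fin (mX P U x) × Bool)
      (I := Fin (mX P U x))) (specOf i₀)).comap e1, (graphR (lstB P cd cs x)).comap e2,
      ?_, ?_, ?_⟩
  rotate_left
  · have : Nonempty (Fin (mX P U x)) := ⟨i₀⟩
    exact (graphG_interval hm _ _).comap e1
  · rw [exists_role_comap, ← satB_iff, sat_iff_role i₀ hm pairB]
  · have hcnt : (x ++ [true, true]).countP (fun _ => true) = N := by simp [hN]
    unfold Stmt.out
    rw [hcnt]
    have hg : GoodArr x (iniArr N (fun (_ : Unit) b => some b) (x ++ [true, true])) :=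
      fun t _ => MP_75fd85_lc.iniArr_one _ _ _
    have he : ∀ y : P.V, (fun _ => 0 : P.V → ℕ) y < x.length + 2 := fun _ => hNpos
    have key := (eG x _ (fun _ => 0) hg he).seq (eR x _ (fun _ => 0) hg he)
    rw [h1, h2] at key
    have h3 := key []
    rw [h3]
    rfl

/-- Every language in NP reduces in polynomial time to ROLE ASSIGNMENT on interval graphs; the
reduction always produces a pair of graphs `(G, R)` such that `G` is an interval graph. -/
theorem role_reduction (L : Set (List Bool)) (hL : InNP L) :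
    ∃ f : List Bool → List Bool, PolyFun f ∧
      ∀ x, ∃ (n k : ℕ) (G : SimpleGraph (Fin n)) (R : SimpleGraph (Fin k)),
        f x = graphWord G ++ graphWord R ∧ IsIntervalGraph G ∧
          (x ∈ L ↔ ∃ r, IsRoleAssignment G R r) := by
  classical
  obtain ⟨R, ⟨MV, pV, hfin, hR⟩, ⟨q, hq⟩, hLR⟩ := hL
  let tm := MV.tm
  let _ : Fintype tm.K := tm.kFin
  let _ : Fintype tm.σ := tm.σFin
  let _ : ∀ k, Fintype (tm.Γ k) := fun k => by
    have := hfin k
    exact Fintype.ofFinite _
  let S := Micro.MS tm.m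
  let act : S → Act tm.K tm.Γ S := Micro.act tm.m tm.k₁ (MV.outputAlphabet.invFun true)
  let start : S := Micro.mk tm.m (tm.m tm.main) tm.initialState
  let acc : S := .inr true
  let rej : S := .inr false
  let g : Bool ⊕ Bool → tm.Γ tm.k₀ := MV.inputAlphabet.invFun
  let cs := schemes act start rej tm.k₀ g
  let U := Fintype.card (VT tm.K tm.Γ S)
  let cd : VT tm.K tm.Γ S ≃ Fin U := Fintype.equivFin _
  have hU : 0 < U := Fintype.card_pos_iff.2 ⟨VT.dm true⟩
  let C := ∑ l : tm.Λ, Micro.depth (tm.m l)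
  obtain ⟨m2, hm2⟩ := MP_75fd85_lc.poly_pow_bound (q + Polynomial.X)
  obtain ⟨m1, hm1⟩ := MP_75fd85_lc.poly_pow_bound
    ((C : Polynomial ℕ) * pV.comp (Polynomial.X ^ (m2 + 1)) + 1)
  let P : Pr := ⟨m1 + 1, m2⟩
  have hPD : P.D = (m1 + 1) + m2 + 2 := rfl
  obtain ⟨S', wS, hS⟩ := prog_exists P cd cs hU
  refine ⟨S'.out (fun _ => true) (fun (_ : Unit) b => some b) ∘
    MP_75fd85_lc.padS.out (fun _ => true) (fun (_ : Unit) b => some b),
    (MP_75fd85_lc.polyFun_out _ wS).comp
      (MP_75fd85_lc.polyFun_out _ MP_75fd85_lc.padS_wf), fun x => ?_⟩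
  set N := x.length + 2 with hN
  have hN2 : 2 ≤ N := by omega
  have hNpos : 0 < N := by omega
  -- sizes
  have b1 : q.eval x.length + x.length ≤ N ^ (m2 + 1) := by
    have h1 := hm2 N hN2
    simp only [Polynomial.eval_add, Polynomial.eval_X] at h1
    have h2 : q.eval x.length ≤ q.eval N := poly_mono q (by omega)
    have h3 : N ^ m2 ≤ N ^ (m2 + 1) := Nat.pow_le_pow_right hNpos (by omega)
    omega
  have b2 : C * pV.eval (N ^ (m2 + 1)) + 1 ≤ Pn N P.D := by
    have h1 := hm1 N hN2
    simp only [Polynomial.eval_add, Polynomial.eval_mul, Polynomial.eval_natCast,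
      Polynomial.eval_comp, Polynomial.eval_pow, Polynomial.eval_X, Polynomial.eval_one] at h1
    refine h1.trans ?_
    rw [Pn]
    have h2 : N ^ m1 ≤ N ^ (P.D - 1) := Nat.pow_le_pow_right hNpos (by
      rw [hPD]; omega)
    have h3 : 1 * N ^ (P.D - 1) ≤ (N - 1) * N ^ (P.D - 1) := Nat.mul_le_mul_right _ (by omega)
    omega
  have b3 : Pn N P.D + N ^ (P.m2 + 1) < N ^ P.D := by
    have h2 : N ^ (P.m2 + 1) < N ^ (P.D - 1) := Nat.pow_lt_pow_right (by omega) (by
      rw [hPD]; change m2 + 1 < _; omega)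
    have h3 : N ^ P.D = N * N ^ (P.D - 1) := by
      rw [← pow_succ', Nat.sub_add_cancel (by rw [hPD]; omega)]
    rw [Pn, h3]
    have h4 : (N - 1) * N ^ (P.D - 1) + 1 * N ^ (P.D - 1) = N * N ^ (P.D - 1) := by
      rw [← Nat.add_mul, Nat.sub_add_cancel (by omega)]
    omega
  have b6 : 0 < N ^ P.D := pow_pos hNpos _
  -- the verifier
  have hrun : ∀ y : List Bool, Pn N P.D + x.length + y.length ≤ Pn N P.D + N ^ (P.m2 + 1) →
      ∃ stk, ∃ n ≤ Pn N P.D, ∀ n' ≥ n, run act start tm.k₀ g x y n' =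
        ⟨if decide (x.map Sum.inl ++ y.map Sum.inr ∈ R) then acc else rej, stk⟩ := by
    intro y hy
    have hw : Halts MV (x.map Sum.inl ++ y.map Sum.inr)
        [decide (x.map Sum.inl ++ y.map Sum.inr ∈ R)]
        (pV.eval (x.map Sum.inl ++ y.map Sum.inr).length) := by
      by_cases h : x.map Sum.inl ++ y.map Sum.inr ∈ R
      · rw [decide_eq_true h]; exact (hR _).1 h
      · rw [decide_eq_false h]; exact (hR _).2 h
    obtain ⟨stk, n, hn, hrun⟩ := MP_75fd85_lc.verifier_run MV x y _ _ hw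
    refine ⟨stk, n, ?_, hrun⟩
    have h1 : pV.eval (x.map (Sum.inl : Bool → Bool ⊕ Bool) ++ y.map Sum.inr).length ≤
        pV.eval (N ^ (m2 + 1)) := by
      refine poly_mono pV ?_
      simp only [List.length_append, List.length_map]
      change Pn N P.D + x.length + y.length ≤ Pn N P.D + N ^ (m2 + 1) at hy
      omega
    have h2 := Nat.mul_le_mul_left C h1
    exact hn.trans ((Nat.add_le_add_right h2 1).trans b2)
  -- satisfiability
  have hsat : MP_75fd85_lc.Satisfiable (clauses cd cs (N ^ P.D) (amP P x)) ↔ x ∈ L := by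
    rw [hLR]
    constructor
    · intro hs
      obtain ⟨α, hα⟩ := MP_75fd85_lc.satBy_of_satisfiable hs
      obtain ⟨y, -, hy⟩ := Tab.sound (acc := acc) (rej := rej)
        (fun y => decide (x.map Sum.inl ++ y.map Sum.inr ∈ R))
        (by have := b1; change _ ≤ Pn N P.D + N ^ (m2 + 1); omega) b3 le_rfl hrun hα
      exact ⟨y, of_decide_eq_true hy⟩
    · rintro ⟨y, hy⟩
      have hyl := hq x y hy
      have hlen : Pn N P.D + x.length + y.length ≤ Pn N P.D + N ^ (P.m2 + 1) := by
        change _ ≤ Pn N P.D + N ^ (m2 + 1)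
        omega
      obtain ⟨stk, hv⟩ := hrun y hlen
      rw [decide_eq_true hy] at hv
      have hj : act rej = .jump rej := rfl
      have hne : acc ≠ rej := fun h => absurd (Sum.inr.inj h) (by simp)
      exact MP_75fd85_lc.satisfiable_of_satBy b6 (Tab.complete hj hne le_rfl hlen hv)
  obtain ⟨n, k, G, R', h1, h2, h3⟩ := hS x
  refine ⟨n, k, G, R', ?_, h2, ?_⟩
  · rw [Function.comp_apply, MP_75fd85_lc.padS_out, h1]
  · rw [h3, hsat]

/-- **NP-hardness**. -/
theorem roleInterval_hard : NPHard roleInterval := by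
  intro L hL
  obtain ⟨f, hf, h⟩ := role_reduction L hL
  refine ⟨f, hf, fun x => ?_⟩
  obtain ⟨n, k, G, R, h1, h2, h3⟩ := h x
  rw [h1, mem_roleInterval, h3]
  exact ⟨fun h => ⟨h2, h⟩, fun h => h.2⟩

theorem length_graphWord {n : ℕ} (G : SimpleGraph (Fin n)) : n ≤ (graphWord G).length := by
  classical
  unfold graphWord
  simp only [List.length_append, List.length_replicate]
  omega

/-- A polynomial-time algorithm would imply that P = NP. -/
theorem poly_of_algorithm (h : PolynomialAlgorithm) (L : Set (List Bool)) (hL : InNP L) :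
    InP L := by
  obtain ⟨A, pA, hAfin, hA⟩ := h
  obtain ⟨f, ⟨Mf, pf, hffin, hf⟩, hred⟩ := role_reduction L hL
  obtain ⟨M, hfin, hM⟩ := comp_outputs Mf A
  obtain ⟨Cf, hCf⟩ := Outputs.length_le Mf
  set pl : Polynomial ℕ := Polynomial.X + (Cf : Polynomial ℕ) * pf with hpl
  refine ⟨M, pf + 2 * (pl + 1) + pA.comp pl, hfin hffin hAfin, fun x => ?_⟩
  obtain ⟨n, k, G, R, h1, h2, h3⟩ := hred x
  have o1 : Outputs Mf x (graphWord G ++ graphWord R) (pf.eval x.length) := h1 ▸ hf x
  have c1 : (graphWord G ++ graphWord R).length ≤ pl.eval x.length := by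
    have := hCf _ _ _ o1
    simp only [hpl, Polynomial.eval_add, Polynomial.eval_X, Polynomial.eval_mul,
      Polynomial.eval_natCast]
    exact this
  have c2 : n + k ≤ pl.eval x.length := by
    have h4 := length_graphWord G
    have h5 := length_graphWord R
    rw [List.length_append] at c1
    omega
  have c3 : pA.eval (n + k) ≤ (pA.comp pl).eval x.length := by
    rw [Polynomial.eval_comp]
    exact poly_mono pA c2
  have key : ∀ b : Bool, Halts A (graphWord G ++ graphWord R) [b] (pA.eval (n + k)) →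
      Halts M x [b] ((pf + 2 * (pl + 1) + pA.comp pl).eval x.length) := by
    intro b hb
    obtain ⟨⟨o5, o6⟩⟩ := hM _ _ _ _ _ o1 hb
    refine ⟨⟨o5, o6.trans ?_⟩⟩
    simp only [Polynomial.eval_add, Polynomial.eval_mul, Polynomial.eval_ofNat,
      Polynomial.eval_one] at c1 c2 c3 ⊢
    omega
  obtain ⟨a1, a2⟩ := hA n k G R h2
  exact ⟨fun hx => key true (a1 (h3.1 hx)), fun hx => key false (a2 fun h => hx (h3.2 h))⟩

end Pool.Agent.Lib.MP_a950c6_lc
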