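import Pool.Agent.Lib.MP_a950c6_lc.Nums

/-!
# Numerical description of the adjacency of the two graphs
-/

namespace Pool.Agent.Lib.MP_a950c6_lc

set_option linter.unusedSectionVars false
set_option linter.unusedSimpArgs false

open Pool.Agent.Lib.PolyTM Pool.Agent.Lib.PolyTM.Tab Function
open Pool.Agent.Lib.MP_75fd85_lc (dx nv DV PosV Twin ar1 radP_dx good_dx dvar_dx nv_lt nv_append
  idx idx_lt idx_div idx_mid idx_mod consts spx Sc4 sc4 Mem memF Pn shape_spx consts_dx
  consts_append radS_spx vars_spx eval_ff0 eval_memF inS_dx wf_memF)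

/-- Kinds of hubs of `G`. -/
inductive HK
  | a
  | mid (b : Bool)
  | z (b : Bool)
  deriving DecidableEq, Fintype

/-- Kinds of components of `G`. -/
inductive CK
  | ext (s b : Bool)
  | mid (b : Bool)
  deriving DecidableEq, Fintype

/-- Kinds of vertices of `G`. -/
inductive GK
  | hub (h : HK)
  | cl (c : CK) (b : Bool)
  | pd (c : CK) (a : Fin 6)
  deriving DecidableEq, Fintype

/-- Kinds of vertices of `R`. -/
inductive RK
  | hub (b : Bool)
  | cl (c b : Bool)
  | pd (c : Bool) (a : Fin 5)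
  deriving DecidableEq, Fintype

/-- The first hub of the segment of a component. -/
def CK.hk : CK → HK
  | .ext false _ => .a
  | .ext true _ => .z false
  | .mid b => .mid b

/-- Position of a hub. -/
def posH (m : ℕ) : HK → ℕ → ℕ
  | .a, _ => 0
  | .mid b, j => 2 * j + 1 + b.toNat
  | .z b, _ => 2 * m + 1 + b.toNat

/-- Equality of components. -/
def ceq : CK → ℕ → ℕ → CK → ℕ → ℕ → Prop
  | .ext s b, _, i, .ext s' b', _, i' => s = s' ∧ b = b' ∧ i = i'
  | .mid b, j, i, .mid b', j', i' => b = b' ∧ j = j' ∧ i = i'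
  | _, _, _, _, _, _ => False

/-- The level of a pendant vertex is at most the level of a clique vertex. -/
def lowP (one : Prop) (p' p : ℕ) (b : Bool) : Prop := p' < p ∨ (p' = p ∧ (one → b = true))

/-- The pendant vertex of `G` has odd level. -/
def oneG (c : CK) (a : Fin 6) (j i p : ℕ) : Prop :=
  2 ≤ a.val ∧ (a.val < 5 ∨ (c = .mid true ∧ p = j ∧ i = 0))

/-- Adjacency in `G`. -/
def adjGN (m : ℕ) : GK → ℕ → ℕ → ℕ → GK → ℕ → ℕ → ℕ → Prop
  | .hub h, j, _, _, .hub h', j', _, _ =>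
      posH m h j + 1 = posH m h' j' ∨ posH m h' j' + 1 = posH m h j
  | .hub h, j, _, _, .cl c _, j', _, _ =>
      posH m c.hk j' = posH m h j ∨ posH m c.hk j' + 1 = posH m h j
  | .hub h, j, _, _, .pd c _, j', _, _ =>
      posH m c.hk j' = posH m h j ∨ posH m c.hk j' + 1 = posH m h j
  | .cl c _, j', _, _, .hub h, j, _, _ =>
      posH m c.hk j' = posH m h j ∨ posH m c.hk j' + 1 = posH m h j
  | .pd c _, j', _, _, .hub h, j, _, _ =>
      posH m c.hk j' = posH m h j ∨ posH m c.hk j' + 1 = posH m h j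
  | .cl c b, j, i, p, .cl c' b', j', i', p' => ceq c j i c' j' i' ∧ ¬(p = p' ∧ b = b')
  | .cl c b, j, i, p, .pd c' a, j', i', p' =>
      ceq c j i c' j' i' ∧ lowP (oneG c' a j' i' p') p' p b
  | .pd c' a, j', i', p', .cl c b, j, i, p =>
      ceq c j i c' j' i' ∧ lowP (oneG c' a j' i' p') p' p b
  | .pd _ _, _, _, _, .pd _ _, _, _, _ => False

/-- The indices are used by the kind of vertex of `G`. -/
def valG : GK → ℕ → ℕ → ℕ → Prop
  | .hub (.mid _), _, i, p => i = 0 ∧ p = 0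
  | .hub _, j, i, p => j = 0 ∧ i = 0 ∧ p = 0
  | .cl (.ext _ _) _, j, _, _ => j = 0
  | .pd (.ext _ _) _, j, _, _ => j = 0
  | _, _, _, _ => True

/-- Adjacency in `R`. -/
def adjRN (lst : ℕ → ℕ → Bool → Prop) : RK → ℕ → ℕ → ℕ → RK → ℕ → ℕ → ℕ → Prop
  | .hub b, _, _, _, .hub b', _, _, _ => b ≠ b'
  | .hub _, _, _, _, _, _, _, _ => True
  | _, _, _, _, .hub _, _, _, _ => True
  | .cl c b, _, i, p, .cl c' b', _, i', p' => (c = c' ∧ i = i') ∧ ¬(p = p' ∧ b = b')
  | .cl c b, _, i, p, .pd c' a, _, i', p' =>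
      (c = c' ∧ i = i') ∧ lowP (2 ≤ a.val ∧ (a.val < 4 ∨ lst p' i' c')) p' p b
  | .pd c' a, _, i', p', .cl c b, _, i, p =>
      (c = c' ∧ i = i') ∧ lowP (2 ≤ a.val ∧ (a.val < 4 ∨ lst p' i' c')) p' p b
  | .pd _ _, _, _, _, .pd _ _, _, _, _ => False

/-- The indices are used by the kind of vertex of `R`. -/
def valR : RK → ℕ → ℕ → ℕ → Prop
  | .hub _, j, i, p => j = 0 ∧ i = 0 ∧ p = 0
  | _, j, _, _ => j = 0

/-! ### Definability -/

section Defin

variable {P : Pr} {U r u u' σ σ' τ τ' : ℕ} {f f' g g' : Fam} {F : List P.V}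

/-- The index of a clause in an environment. -/
abbrev nJ (P : Pr) (r : ℕ) (f : Fam) (σ : ℕ) (x : List Bool) (e : P.V → ℕ) : ℕ :=
  PolyTM.num (x.length + 2) e (dJ P r f σ)
/-- The index of a variable in an environment. -/
abbrev nK (P : Pr) (U : ℕ) (f : Fam) (u : ℕ) (x : List Bool) (e : P.V → ℕ) : ℕ :=
  PolyTM.num (x.length + 2) e (dK P U f u)
/-- Number of clauses. -/
abbrev mX (P : Pr) (r : ℕ) (x : List Bool) : ℕ :=
  r * ((x.length + 2) ^ P.D * (x.length + 2) ^ P.D)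

theorem nJ_lt (hσ : σ < r) {x : List Bool} {e : P.V → ℕ} (he : ∀ y, e y < x.length + 2) :
    nJ P r f σ x e < mX P r x := by
  have := num_lt (good_dJ (P := P) (r := r) f hσ _ e he)
  rwa [radP_dJ] at this

theorem nK_lt (hu : u < U) {x : List Bool} {e : P.V → ℕ} (he : ∀ y, e y < x.length + 2) :
    nK P U f u x e < mX P U x := by
  have := num_lt (good_dK (P := P) (U := U) f hu _ e he)
  rwa [radP_dK] at this

theorem Df.posEq (hσ : σ < r) (hσ' : σ' < r) (hf : f ≠ f') (hF : ∀ y ∈ P.vJ f, y ∈ F)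
    (hF' : ∀ y ∈ P.vJ f', y ∈ F) (h h' : HK) :
    Df F fun x e => posH (mX P r x) h (nJ P r f σ x e) = posH (mX P r x) h' (nJ P r f' σ' x e) := by
  rcases h with _ | b | b <;> rcases h' with _ | b' | b'
  · exact Df.tru.congr fun x e _ => by simp [posH]
  · exact (Df.const False).congr fun x e _ => by simp only [posH, false_iff]; omega
  · exact (Df.const False).congr fun x e _ => by simp only [posH, false_iff]; omega
  · exact (Df.const False).congr fun x e _ => by simp only [posH, false_iff]; omega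
  · refine ((Df.eqJ hσ hσ' hf hF hF').and (Df.const (b = b'))).congr fun x e he => ?_
    simp only [posH]
    cases b <;> cases b' <;> simp <;> omega
  · refine (Df.const False).congr fun x e he => ?_
    have := nJ_lt (f := f) hσ he
    simp only [posH]
    cases b <;> cases b' <;> simp <;> omega
  · exact (Df.const False).congr fun x e _ => by simp only [posH, false_iff]; omega
  · refine (Df.const False).congr fun x e he => ?_
    have := nJ_lt (f := f') hσ' he
    simp only [posH]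
    cases b <;> cases b' <;> simp <;> omega
  · refine (Df.const (b = b')).congr fun x e he => ?_
    simp only [posH]
    cases b <;> cases b' <;> simp

theorem Df.posSuc (hσ : σ < r) (hσ' : σ' < r) (hf : f ≠ f') (hF : ∀ y ∈ P.vJ f, y ∈ F)
    (hF' : ∀ y ∈ P.vJ f', y ∈ F) (h h' : HK) :
    Df F fun x e => posH (mX P r x) h (nJ P r f σ x e) + 1 =
      posH (mX P r x) h' (nJ P r f' σ' x e) := by
  rcases h with _ | b | b <;> rcases h' with _ | b' | b'
  · exact (Df.const False).congr fun x e _ => by simp only [posH, false_iff]; omega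
  · refine ((Df.zeroJ hσ' hF').and (Df.const (b' = false))).congr fun x e he => ?_
    simp only [posH, nJ]
    cases b' <;> simp <;> omega
  · refine (Df.const False).congr fun x e he => ?_
    have := nJ_lt (f := f) hσ he
    simp only [posH]
    cases b' <;> simp <;> omega
  · exact (Df.const False).congr fun x e _ => by simp only [posH, false_iff]; omega
  · refine (((Df.eqJ hσ hσ' hf hF hF').and (Df.const (b = false ∧ b' = true))).or
      ((Df.sucJ hσ hσ' hf hF hF').and (Df.const (b = true ∧ b' = false)))).congr fun x e he => ?_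
    simp only [posH, nJ]
    cases b <;> cases b' <;> simp <;> omega
  · refine ((Df.maxJ hσ hF).and (Df.const (b = true ∧ b' = false))).congr fun x e he => ?_
    have := nJ_lt (f := f) hσ he
    simp only [posH, nJ, mX] at this ⊢
    cases b <;> cases b' <;> simp <;> omega
  · exact (Df.const False).congr fun x e _ => by simp only [posH, false_iff]; omega
  · refine (Df.const False).congr fun x e he => ?_
    have := nJ_lt (f := f') hσ' he
    simp only [posH]
    cases b <;> cases b' <;> simp <;> omega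
  · refine (Df.const (b = false ∧ b' = true)).congr fun x e he => ?_
    simp only [posH]
    cases b <;> cases b' <;> simp <;> omega

theorem Df.ceq (hσ : σ < r) (hσ' : σ' < r) (hu : u < U) (hu' : u' < U) (hf : f ≠ f')
    (hF : ∀ y ∈ P.vJ f, y ∈ F) (hF' : ∀ y ∈ P.vJ f', y ∈ F)
    (hG : ∀ y ∈ P.vI f, y ∈ F) (hG' : ∀ y ∈ P.vI f', y ∈ F) (c c' : CK) :
    Df F fun x e => MP_a950c6_lc.ceq c (nJ P r f σ x e) (nK P U f u x e) c' (nJ P r f' σ' x e)
      (nK P U f' u' x e) := by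
  have hK := Df.eqK hu hu' hf hG hG'
  have hJ := Df.eqJ hσ hσ' hf hF hF'
  rcases c with ⟨s, b⟩ | b <;> rcases c' with ⟨s', b'⟩ | b'
  · exact (Df.const (s = s')).and ((Df.const (b = b')).and hK)
  · exact Df.const False
  · exact Df.const False
  · exact (Df.const (b = b')).and (hJ.and hK)

theorem Df.lowP {one : List Bool → (P.V → ℕ) → Prop} (hone : Df F one) (hτ : τ < r) (hτ' : τ' < r)
    (hf : f ≠ f') (hF : ∀ y ∈ P.vJ f, y ∈ F) (hF' : ∀ y ∈ P.vJ f', y ∈ F) (b : Bool) :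
    Df F fun x e => MP_a950c6_lc.lowP (one x e) (nJ P r f τ x e) (nJ P r f' τ' x e) b := by
  refine ((Df.ltJ hτ hτ' hf hF hF').or ((Df.eqJ hτ hτ' hf hF hF').and
    (hone.not.or (Df.const (b = true))))).congr fun x e _ => ?_
  rw [MP_a950c6_lc.lowP]
  refine or_congr Iff.rfl (and_congr Iff.rfl ?_)
  tauto

theorem Df.oneG (hσ : σ < r) (hτ : τ < r) (hu : u < U) (hf : g ≠ f)
    (hF : ∀ y ∈ P.vJ f, y ∈ F) (hG : ∀ y ∈ P.vI f, y ∈ F) (hL : ∀ y ∈ P.vJ g, y ∈ F)
    (c : CK) (a : Fin 6) :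
    Df F fun x e => MP_a950c6_lc.oneG c a (nJ P r f σ x e) (nK P U f u x e) (nJ P r g τ x e) :=
  (Df.const (2 ≤ a.val)).and ((Df.const (a.val < 5)).or ((Df.const (c = .mid true)).and
    ((Df.eqJ hτ hσ hf hL hF).and (Df.zeroK hu hG))))

/-- Families of the variables of a vertex. -/
abbrev fc (β : Bool) : Fam := (β, false)
abbrev fl (β : Bool) : Fam := (β, true)

variable (P) in
/-- The variables of a vertex are in scope. -/
def InF (F : List P.V) (β : Bool) : Prop :=
  (∀ y ∈ P.vJ (fc β), y ∈ F) ∧ (∀ y ∈ P.vI (fc β), y ∈ F) ∧ ∀ y ∈ P.vJ (fl β), y ∈ F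

theorem Df.adjG (hσ : σ < r) (hσ' : σ' < r) (hu : u < U) (hu' : u' < U) (hτ : τ < r)
    (hτ' : τ' < r) (hF : InF P F false) (hF' : InF P F true) (κ κ' : GK) :
    Df F fun x e => adjGN (mX P r x) κ (nJ P r (fc false) σ x e) (nK P U (fc false) u x e)
      (nJ P r (fl false) τ x e) κ' (nJ P r (fc true) σ' x e) (nK P U (fc true) u' x e)
      (nJ P r (fl true) τ' x e) := by
  obtain ⟨a1, a2, a3⟩ := hF
  obtain ⟨b1, b2, b3⟩ := hF'
  have n1 : (fc false) ≠ (fc true) := by decide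
  have n2 : (fc true) ≠ (fc false) := by decide
  have n3 : (fl false) ≠ (fl true) := by decide
  have n4 : (fl true) ≠ (fl false) := by decide
  have hc : ∀ c c' : CK, Df F fun x e => MP_a950c6_lc.ceq c (nJ P r (fc false) σ x e)
      (nK P U (fc false) u x e) c' (nJ P r (fc true) σ' x e) (nK P U (fc true) u' x e) :=
    fun c c' => Df.ceq hσ hσ' hu hu' n1 a1 b1 a2 b2 c c'
  have hc' : ∀ c c' : CK, Df F fun x e => MP_a950c6_lc.ceq c (nJ P r (fc true) σ' x e)
      (nK P U (fc true) u' x e) c' (nJ P r (fc false) σ x e) (nK P U (fc false) u x e) :=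
    fun c c' => Df.ceq hσ' hσ hu' hu n2 b1 a1 b2 a2 c c'
  rcases κ with h | ⟨c, b⟩ | ⟨c, a⟩ <;> rcases κ' with h' | ⟨c', b'⟩ | ⟨c', a'⟩
  · exact (Df.posSuc hσ hσ' n1 a1 b1 h h').or (Df.posSuc hσ' hσ n2 b1 a1 h' h)
  · exact (Df.posEq hσ' hσ n2 b1 a1 _ _).or (Df.posSuc hσ' hσ n2 b1 a1 _ _)
  · exact (Df.posEq hσ' hσ n2 b1 a1 _ _).or (Df.posSuc hσ' hσ n2 b1 a1 _ _)
  · exact (Df.posEq hσ hσ' n1 a1 b1 _ _).or (Df.posSuc hσ hσ' n1 a1 b1 _ _)
  · exact (hc c c').and ((Df.eqJ hτ hτ' n3 a3 b3).and (Df.const (b = b'))).not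
  · exact (hc c c').and (Df.lowP (Df.oneG hσ' hτ' hu' (by decide) b1 b2 b3 c' a') hτ' hτ n4 b3 a3 b)
  · exact (Df.posEq hσ hσ' n1 a1 b1 _ _).or (Df.posSuc hσ hσ' n1 a1 b1 _ _)
  · exact (hc' c' c).and (Df.lowP (Df.oneG hσ hτ hu (by decide) a1 a2 a3 c a) hτ hτ' n3 a3 b3 b')
  · exact Df.const False

theorem Df.valG {β : Bool} (hσ : σ < r) (hu : u < U) (hτ : τ < r) (hF : InF P F β) (κ : GK) :
    Df F fun x e => MP_a950c6_lc.valG κ (nJ P r (fc β) σ x e) (nK P U (fc β) u x e)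
      (nJ P r (fl β) τ x e) := by
  obtain ⟨a1, a2, a3⟩ := hF
  rcases κ with (_ | b | b) | ⟨⟨s, b'⟩ | b', b⟩ | ⟨⟨s, b'⟩ | b', a⟩
  · exact (Df.zeroJ hσ a1).and ((Df.zeroK hu a2).and (Df.zeroJ hτ a3))
  · exact (Df.zeroK hu a2).and (Df.zeroJ hτ a3)
  · exact (Df.zeroJ hσ a1).and ((Df.zeroK hu a2).and (Df.zeroJ hτ a3))
  · exact Df.zeroJ hσ a1
  · exact Df.tru
  · exact Df.zeroJ hσ a1
  · exact Df.tru

theorem Df.valR {β : Bool} (hσ : σ < r) (hu : u < U) (hτ : τ < r) (hF : InF P F β) (κ : RK) :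
    Df F fun x e => MP_a950c6_lc.valR κ (nJ P r (fc β) σ x e) (nK P U (fc β) u x e)
      (nJ P r (fl β) τ x e) := by
  obtain ⟨a1, a2, a3⟩ := hF
  rcases κ with b | ⟨c, b⟩ | ⟨c, a⟩
  · exact (Df.zeroJ hσ a1).and ((Df.zeroK hu a2).and (Df.zeroJ hτ a3))
  · exact Df.zeroJ hσ a1
  · exact Df.zeroJ hσ a1

variable {K : Type} {Γ : K → Type} {S : Type} {cd : VT K Γ S ≃ Fin U} {cs : List (Sc K Γ S)}

theorem Df.adjR (hr : r = (sc4 cs).length + U) (hσ : σ < r) (hσ' : σ' < r) (hu : u < U)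
    (hu' : u' < U) (hτ : τ < r) (hτ' : τ' < r) (hF : InF P F false) (hF' : InF P F true)
    (κ κ' : RK) :
    Df F fun x e => adjRN (lstN P cd cs x) κ (nJ P r (fc false) σ x e) (nK P U (fc false) u x e)
      (nJ P r (fl false) τ x e) κ' (nJ P r (fc true) σ' x e) (nK P U (fc true) u' x e)
      (nJ P r (fl true) τ' x e) := by
  subst hr
  obtain ⟨a1, a2, a3⟩ := hF
  obtain ⟨b1, b2, b3⟩ := hF'
  have n1 : (fc false) ≠ (fc true) := by decide
  have n2 : (fc true) ≠ (fc false) := by decide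
  have n3 : (fl false) ≠ (fl true) := by decide
  have n4 : (fl true) ≠ (fl false) := by decide
  rcases κ with b | ⟨c, b⟩ | ⟨c, a⟩ <;> rcases κ' with b' | ⟨c', b'⟩ | ⟨c', a'⟩
  · exact Df.const _
  · exact Df.tru
  · exact Df.tru
  · exact Df.tru
  · exact ((Df.const (c = c')).and (Df.eqK hu hu' n1 a2 b2)).and
      ((Df.eqJ hτ hτ' n3 a3 b3).and (Df.const (b = b'))).not
  · exact ((Df.const (c = c')).and (Df.eqK hu hu' n1 a2 b2)).and
      (Df.lowP ((Df.const (2 ≤ a'.val)).and ((Df.const (a'.val < 4)).or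
        (Df.lst hτ' hu' b3 b2 c'))) hτ' hτ n4 b3 a3 b)
  · exact Df.tru
  · exact ((Df.const (c' = c)).and (Df.eqK hu' hu n2 b2 a2)).and
      (Df.lowP ((Df.const (2 ≤ a.val)).and ((Df.const (a.val < 4)).or
        (Df.lst hτ hu a3 a2 c))) hτ hτ' n3 a3 b3 b')
  · exact Df.const False

end Defin

end Pool.Agent.Lib.MP_a950c6_lc
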