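import Pool.Agent.Lib.MP_a950c6_lc.VerForm
import Pool.Agent.Lib.MP_a950c6_lc.Words
import Pool.Agent.Lib.MP_a950c6_lc.Interval
import Pool.Agent.Lib.PolyTM.Emit

/-!
# Certificates for ROLE ASSIGNMENT on interval graphs: general lemmas
-/

namespace Pool.Agent.Lib.MP_a950c6_lc

set_option linter.unusedSectionVars false
set_option linter.unusedSimpArgs false

/-! ### Enumerations of pairs -/

theorem pair_lt {k c d : ℕ} (hc : c < k) (hd : d < k) : c * k + d < k * k := by
  have := Nat.mul_le_mul_right k (show c + 1 ≤ k from hc)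
  rw [Nat.add_mul] at this
  omega

theorem pair_div {k c d : ℕ} (hd : d < k) : (c * k + d) / k = c := by
  rw [Nat.mul_comm, Nat.mul_add_div (by omega), Nat.div_eq_of_lt hd, Nat.add_zero]

theorem pair_mod {k c d : ℕ} (hd : d < k) : (c * k + d) % k = d := by
  rw [Nat.mul_comm, Nat.mul_add_mod, Nat.mod_eq_of_lt hd]

theorem pair_lex {k c d c' d' : ℕ} (hd : d < k) (hd' : d' < k) :
    c * k + d < c' * k + d' ↔ c < c' ∨ (c = c' ∧ d < d') := by
  constructor
  · intro h
    rcases Nat.lt_trichotomy c c' with h1 | h1 | h1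
    · exact Or.inl h1
    · subst h1
      exact Or.inr ⟨rfl, by omega⟩
    · exfalso
      have := Nat.mul_le_mul_right k (show c' + 1 ≤ c from h1)
      rw [Nat.add_mul] at this
      omega
  · rintro (h1 | ⟨rfl, h1⟩)
    · have := Nat.mul_le_mul_right k (show c + 1 ≤ c' from h1)
      rw [Nat.add_mul] at this
      omega
    · omega

theorem pair_inj {k c d c' d' : ℕ} (hd : d < k) (hd' : d' < k)
    (h : c * k + d = c' * k + d') : c = c' ∧ d = d' := by
  have h1 := pair_div (c := c) hd
  have h2 := pair_mod (c := c) hd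
  rw [h, pair_div hd'] at h1
  rw [h, pair_mod hd'] at h2
  exact ⟨h1.symm, h2.symm⟩

theorem enum_sound {C : ℕ → ℕ → ℕ → Prop} {k q e : ℕ} (hq : q ≤ e)
    (e1 : ∀ c d, c < k → d < k → ∃ p, q ≤ p ∧ p < e ∧ C c d p)
    (e2 : ∀ p, q ≤ p → p < e → ∃ c d, c < k ∧ d < k ∧ C c d p)
    (e3 : ∀ c d c' d' p p', c < k → d < k → c' < k → d' < k → q ≤ p → p < e → q ≤ p' → p' < e →
      C c d p → C c' d' p' → (p < p' ↔ (c < c' ∨ (c = c' ∧ d < d')))) :
    e = q + k * k ∧ ∀ c d, c < k → d < k → ∀ p, q ≤ p → p < e →
      (C c d p ↔ p = q + (c * k + d)) := by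
  have hdiv : ∀ i, i < k * k → i / k < k ∧ i % k < k := by
    intro i hi
    have hk : 0 < k := by
      rcases Nat.eq_zero_or_pos k with h | h
      · subst h; simp at hi
      · exact h
    exact ⟨Nat.div_lt_of_lt_mul hi, Nat.mod_lt _ hk⟩
  have ex : ∀ i, ∃ p, i < k * k → q ≤ p ∧ p < e ∧ C (i / k) (i % k) p := by
    intro i
    by_cases hi : i < k * k
    · obtain ⟨p, hp⟩ := e1 _ _ (hdiv i hi).1 (hdiv i hi).2
      exact ⟨p, fun _ => hp⟩
    · exact ⟨0, fun h => absurd h hi⟩
  choose h hh using ex
  have mono : ∀ i j, i < k * k → j < k * k → i < j → h i < h j := by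
    intro i j hi hj hij
    obtain ⟨a1, a2, a3⟩ := hh i hi
    obtain ⟨b1, b2, b3⟩ := hh j hj
    refine (e3 _ _ _ _ _ _ (hdiv i hi).1 (hdiv i hi).2 (hdiv j hj).1 (hdiv j hj).2 a1 a2 b1 b2
      a3 b3).2 ?_
    rw [← pair_lex (hdiv i hi).2 (hdiv j hj).2]
    have c1 := Nat.div_add_mod i k
    have c2 := Nat.div_add_mod j k
    rw [Nat.mul_comm] at c1 c2
    omega
  have func : ∀ c d p p', c < k → d < k → q ≤ p → p < e → q ≤ p' → p' < e → C c d p →
      C c d p' → p = p' := by
    intro c d p p' hc hd h1 h2 h3 h4 h5 h6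
    have k1 := e3 _ _ _ _ _ _ hc hd hc hd h1 h2 h3 h4 h5 h6
    have k2 := e3 _ _ _ _ _ _ hc hd hc hd h3 h4 h1 h2 h6 h5
    simp only [lt_irrefl, and_false, or_false, iff_false, not_lt] at k1 k2
    omega
  have hits : ∀ p, q ≤ p → p < e → ∃ j < k * k, h j = p := by
    intro p h1 h2
    obtain ⟨c, d, hc, hd, hC⟩ := e2 p h1 h2
    refine ⟨c * k + d, pair_lt hc hd, ?_⟩
    obtain ⟨a1, a2, a3⟩ := hh _ (pair_lt hc hd)
    rw [pair_div hd, pair_mod hd] at a3
    exact func _ _ _ _ hc hd a1 a2 h1 h2 a3 hC
  have hval : ∀ i, i < k * k → h i = q + i := by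
    intro i
    induction i using Nat.strong_induction_on with
    | _ i ih =>
      intro hi
      obtain ⟨a1, a2, -⟩ := hh i hi
      have hge : q + i ≤ h i := by
        rcases Nat.eq_zero_or_pos i with h0 | h0
        · subst h0; omega
        · have := ih (i - 1) (by omega) (by omega)
          have := mono (i - 1) i (by omega) hi (by omega)
          omega
      by_contra hne
      obtain ⟨j, hj, hjp⟩ := hits (q + i) (by omega) (by omega)
      rcases Nat.lt_trichotomy j i with h1 | h1 | h1
      · have := ih j h1 hj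
        omega
      · subst h1; exact hne hjp
      · have := mono i j hi hj h1
        omega
  have hend : e = q + k * k := by
    have h1 : q + k * k ≤ e := by
      rcases Nat.eq_zero_or_pos (k * k) with h0 | h0
      · omega
      · have := hval (k * k - 1) (by omega)
        have := (hh (k * k - 1) (by omega)).2.1
        omega
    by_contra hne
    obtain ⟨j, hj, hjp⟩ := hits (q + k * k) (by omega) (by omega)
    have := hval j hj
    omega
  refine ⟨hend, fun c d hc hd p hp1 hp2 => ?_⟩
  obtain ⟨a1, a2, a3⟩ := hh _ (pair_lt hc hd)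
  rw [pair_div hd, pair_mod hd] at a3
  rw [hval _ (pair_lt hc hd)] at a1 a2 a3
  constructor
  · intro hC
    exact func _ _ _ _ hc hd hp1 hp2 a1 a2 hC a3
  · rintro rfl
    exact a3

/-! ### Words of graphs -/

theorem range_pairs (n : ℕ) (g : ℕ → Bool) :
    ((List.finRange n).flatMap fun i => (List.finRange n).map fun j => g (i.val * n + j.val)) =
      (List.range (n * n)).map g := by
  have h1 := PolyTM.range_mul_flatMap n n (fun t => [g t])
  have h2 : ∀ l : List ℕ, (l.flatMap fun t => [g t]) = l.map g := by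
    intro l
    induction l with
    | nil => rfl
    | cons x l ih => rw [List.flatMap_cons, ih]; rfl
  rw [← h2, h1]
  have h3 : List.range n = (List.finRange n).map (fun k => k.val) := by
    apply List.ext_getElem <;> simp
  rw [h3, List.flatMap_map]
  refine List.flatMap_congr fun i _ => ?_
  rw [List.flatMap_map]
  generalize List.finRange n = l
  induction l with
  | nil => rfl
  | cons x l ih => rw [List.flatMap_cons, ← ih]; rfl

theorem graphWord_eq {n : ℕ} (G : SimpleGraph (Fin n)) (g : ℕ → Bool)
    (h1 : ∀ t < n, g t = true) (h2 : g n = false)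
    (h3 : ∀ u v : Fin n, (g (n + 1 + (u.val * n + v.val)) = true ↔ G.Adj u v)) :
    graphWord G = (List.range (n + 1 + n * n)).map g := by
  classical
  unfold graphWord
  rw [List.range_add, List.map_append, List.range_succ, List.map_append, List.map_map]
  have e1 : (List.range n).map g = List.replicate n true := by
    rw [List.eq_replicate_iff]
    refine ⟨by simp, fun b hb => ?_⟩
    obtain ⟨t, ht, rfl⟩ := List.mem_map.1 hb
    exact h1 t (List.mem_range.1 ht)
  have e2 : (List.finRange n).flatMap (fun i => (List.finRange n).map fun j =>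
      decide (G.Adj i j)) = (List.range (n * n)).map (g ∘ fun x => n + 1 + x) := by
    rw [← range_pairs]
    refine List.flatMap_congr fun i _ => List.map_congr_left fun j _ => ?_
    rw [Bool.eq_iff_iff, decide_eq_true_iff]
    exact (h3 i j).symm
  rw [e1, e2]
  simp [h2]

open Classical in
/-- The letters of the word of a graph. -/
noncomputable def bit {n : ℕ} (G : SimpleGraph (Fin n)) (t : ℕ) : Bool :=
  if t < n then true else if t = n then false else
    decide (∃ u v : Fin n, t = n + 1 + (u.val * n + v.val) ∧ G.Adj u v)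

theorem bit_lt {n : ℕ} (G : SimpleGraph (Fin n)) {t : ℕ} (h : t < n) : bit G t = true := by
  simp [bit, h]

theorem bit_eq {n : ℕ} (G : SimpleGraph (Fin n)) : bit G n = false := by
  simp [bit]

theorem bit_adj {n : ℕ} (G : SimpleGraph (Fin n)) (u v : Fin n) :
    bit G (n + 1 + (u.val * n + v.val)) = true ↔ G.Adj u v := by
  classical
  unfold bit
  rw [if_neg (by omega), if_neg (by omega), decide_eq_true_iff]
  constructor
  · rintro ⟨u', v', h1, h2⟩
    obtain ⟨h3, h4⟩ := pair_inj v.isLt v'.isLt (show u.val * n + v.val = u'.val * n + v'.val by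
      omega)
    rw [Fin.ext h3, Fin.ext h4]
    exact h2
  · intro h
    exact ⟨u, v, rfl, h⟩

theorem graphWord_bit {n : ℕ} (G : SimpleGraph (Fin n)) :
    graphWord G = (List.range (n + 1 + n * n)).map (bit G) :=
  graphWord_eq G _ (fun _ h => bit_lt G h) (bit_eq G) (bit_adj G)

theorem getD_map_range (g : ℕ → Bool) {m t : ℕ} (h : t < m) :
    ((List.range m).map g).getD t false = g t := by
  rw [List.getD_eq_getElem?_getD, List.getElem?_map, List.getElem?_range h]
  rfl

/-! ### Interval representations with small endpoints -/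

theorem interval_nat {n : ℕ} {G : SimpleGraph (Fin n)} (h : IsIntervalGraph G) :
    ∃ a b : Fin n → ℕ, (∀ v, a v ≤ b v) ∧ (∀ v, b v < n) ∧
      ∀ u v, G.Adj u v ↔ u ≠ v ∧ a u ≤ b v ∧ a v ≤ b u := by
  classical
  obtain ⟨a, b, hab, hG⟩ := h
  let A : Fin n → ℕ := fun v => (Finset.univ.filter fun w => a w < a v).card
  let B : Fin n → ℕ := fun v => (Finset.univ.filter fun w => a w ≤ b v).card
  have hB : ∀ v, 1 ≤ B v := fun v => Finset.card_pos.2 ⟨v, by simpa using hab v⟩
  have hBn : ∀ v, B v ≤ n := fun v => by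
    simpa using Finset.card_le_univ (Finset.univ.filter fun w => a w ≤ b v)
  have key : ∀ u v, A u ≤ B v - 1 ↔ a u ≤ b v := by
    intro u v
    have hv := hB v
    constructor
    · intro h
      by_contra hcon
      push Not at hcon
      have h1 : B v ≤ A u := by
        refine Finset.card_le_card fun w hw => ?_
        simp only [Finset.mem_filter, Finset.mem_univ, true_and] at hw ⊢
        exact lt_of_le_of_lt hw hcon
      omega
    · intro h
      have h1 : A u < B v := by
        refine Finset.card_lt_card ?_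
        rw [Finset.ssubset_iff_of_subset]
        · refine ⟨u, by simpa using h, by simp⟩
        · intro w hw
          simp only [Finset.mem_filter, Finset.mem_univ, true_and] at hw ⊢
          exact hw.le.trans h
      omega
  refine ⟨A, fun v => B v - 1, fun v => (key v v).2 (hab v), fun v => ?_, fun u v => ?_⟩
  · have := hB v
    have := hBn v
    show B v - 1 < n
    omega
  · rw [hG, key, key]
    refine and_congr_right fun _ => ?_
    constructor
    · rintro ⟨y, ⟨h1, h2⟩, h3, h4⟩
      exact ⟨h1.trans h4, h3.trans h2⟩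
    · rintro ⟨h1, h2⟩
      exact ⟨max (a u) (a v), ⟨le_max_left _ _, max_le (hab u) h2⟩,
        ⟨le_max_right _ _, max_le h1 (hab v)⟩⟩

end Pool.Agent.Lib.MP_a950c6_lc
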