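import Pool.Agent.Lib.MP_a950c6_lc.Member

/-!
# ROLE ASSIGNMENT on interval graphs is in NP
-/

namespace Pool.Agent.Lib.MP_a950c6_lc

set_option linter.unusedSectionVars false
set_option linter.unusedSimpArgs false

open Pool.Agent.Lib.MP_75fd85_lc (InNP)

/-! ### Soundness -/

section Sound

variable {N q0 q1 q2 : ℕ} {X : ℕ → Bool} {C : ℕ → ℕ → ℕ → Bool}

theorem enm_false (h0 : q0 < N) (h1 : q1 < N) (h01 : q0 < q1)
    (h : enmP N C q0 q1 q2 false) :
    q1 = q0 + 1 + q0 * q0 ∧ ∀ c d, c < q0 → d < q0 → ∀ p, q0 + 1 ≤ p → p < q1 →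
      (C c d p = true ↔ p = q0 + 1 + (c * q0 + d)) := by
  simp only [enmP, blkP, rngP, Bool.false_eq_true, if_false] at h
  obtain ⟨a1, a2, a3⟩ := h
  refine enum_sound (C := fun c d p => C c d p = true) (by omega) (fun c d hc hd => ?_)
    (fun p hp hp' => ?_) fun c d c' d' p p' hc hd hc' hd' hp hpe hp' hpe' => ?_
  · obtain ⟨p, -, ⟨h2, h3⟩, h4⟩ := a1 c (by omega) d (by omega) hc hd
    exact ⟨p, by omega, h3, h4⟩
  · obtain ⟨c, -, d, -, h2, h3, h4⟩ := a2 p (by omega) ⟨by omega, hp'⟩
    exact ⟨c, d, h2, h3, h4⟩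
  · exact a3 c (by omega) d (by omega) c' (by omega) d' (by omega) p (by omega) p' (by omega)
      hc hd hc' hd' ⟨by omega, hpe⟩ ⟨by omega, hpe'⟩

theorem enm_true (h2 : q2 < N) (h12 : q1 ≤ q2) (h : enmP N C q0 q1 q2 true) :
    N = q2 + 1 + (q2 - q1) * (q2 - q1) ∧ ∀ c d, c < q2 - q1 → d < q2 - q1 → ∀ p, q2 + 1 ≤ p →
      p < N → (C (q1 + c) (q1 + d) p = true ↔ p = q2 + 1 + (c * (q2 - q1) + d)) := by
  simp only [enmP, blkP, rngP, if_true] at h
  obtain ⟨a1, a2, a3⟩ := h
  refine enum_sound (C := fun c d p => C (q1 + c) (q1 + d) p = true) (by omega)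
    (fun c d hc hd => ?_)
    (fun p hp hp' => ?_) fun c d c' d' p p' hc hd hc' hd' hp hpe hp' hpe' h5 h6 => ?_
  · obtain ⟨p, h3, h4, h5⟩ := a1 (q1 + c) (by omega) (q1 + d) (by omega) (by omega) (by omega)
    exact ⟨p, by omega, h3, h5⟩
  · obtain ⟨c, -, d, -, h3, h4, h5⟩ := a2 p (by omega) (by omega)
    refine ⟨c - q1, d - q1, by omega, by omega, ?_⟩
    rw [Nat.add_sub_cancel' h3.1, Nat.add_sub_cancel' h4.1]
    exact h5
  · rw [a3 (q1 + c) (by omega) (q1 + d) (by omega) (q1 + c') (by omega) (q1 + d') (by omega) p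
      (by omega) p' (by omega) (by omega) (by omega) (by omega) (by omega) (by omega) (by omega)
      h5 h6]
    omega

theorem sound {x : List Bool} (hC : mainP x.length (fun t => x.getD t false) C) :
    x ∈ roleInterval := by
  classical
  obtain ⟨q0, h0, q1, h1, q2, h2, ⟨u1, u2, u3, u4, u5, u6⟩, g1, g2, g3, g4, g5, g6⟩ := hC
  set N := x.length with hN
  obtain ⟨f1, f2⟩ := enm_false h0 h1 u3 g1
  obtain ⟨f3, f4⟩ := enm_true h2 u4 g2
  set n := q0 with hn
  set k := q2 - q1 with hk
  set X : ℕ → Bool := fun t => x.getD t false with hX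
  -- adjacency
  have adj1 : ∀ u v, u < n → v < n →
      (adjP N X C n q1 q2 false u v ↔ X (n + 1 + (u * n + v)) = true) := by
    intro u v hu hv
    have hlt := pair_lt hu hv
    simp only [adjP, rngP, Bool.false_eq_true, if_false]
    constructor
    · rintro ⟨p, -, ⟨h3, h4⟩, h5, h6⟩
      rw [f2 u v hu hv p (by omega) h4] at h5
      rw [← h5]; exact h6
    · intro h
      exact ⟨_, by omega, ⟨by omega, by omega⟩, (f2 u v hu hv _ (by omega) (by omega)).2 rfl, h⟩
  have adj2 : ∀ c d, c < k → d < k →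
      (adjP N X C n q1 q2 true (q1 + c) (q1 + d) ↔ X (q2 + 1 + (c * k + d)) = true) := by
    intro u v hu hv
    have hlt := pair_lt hu hv
    simp only [adjP, rngP, if_true]
    constructor
    · rintro ⟨p, h3, h4, h5, h6⟩
      rw [f4 u v hu hv p (by omega) h3] at h5
      rw [← h5]; exact h6
    · intro h
      exact ⟨_, by omega, by omega, (f4 u v hu hv _ (by omega) (by omega)).2 rfl, h⟩
  -- the graphs
  let G : SimpleGraph (Fin n) :=
    { Adj := fun u v => adjP N X C n q1 q2 false u.val v.val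
      symm := ⟨fun u v h => g3.2 u.val (by omega) v.val (by omega) u.isLt v.isLt h⟩
      loopless := ⟨fun u h => g3.1 u.val (by omega) u.isLt h⟩ }
  let R : SimpleGraph (Fin k) :=
    { Adj := fun u v => adjP N X C n q1 q2 true (q1 + u.val) (q1 + v.val)
      symm := ⟨fun u v h => g4.2 (q1 + u.val) (by omega) (q1 + v.val) (by omega)
        ⟨by omega, by omega⟩ ⟨by omega, by omega⟩ h⟩
      loopless := ⟨fun u h => g4.1 (q1 + u.val) (by omega) ⟨by omega, by omega⟩ h⟩ }
  refine ⟨n, k, G, R, ?_, ?_, ?_⟩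
  · -- the word
    have e1 : graphWord G = (List.range (n + 1 + n * n)).map X :=
      graphWord_eq G X (fun t ht => u1 t (by omega) ht) (Bool.eq_false_iff.2 u2)
        fun u v => (adj1 u.val v.val u.isLt v.isLt).symm
    have e2 : graphWord R = (List.range (k + 1 + k * k)).map (fun t => X (q1 + t)) := by
      refine graphWord_eq R _ (fun t ht => u5 (q1 + t) (by omega) ⟨by omega, by omega⟩) ?_
        fun u v => ?_
      · have : q1 + k = q2 := by omega
        simp only [this]
        exact Bool.eq_false_iff.2 u6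
      · have : q1 + (k + 1 + (u.val * k + v.val)) = q2 + 1 + (u.val * k + v.val) := by omega
        simp only [this]
        exact (adj2 u.val v.val u.isLt v.isLt).symm
    have e3 : x = (List.range N).map X := by
      apply List.ext_getElem
      · simp [hN]
      · intro t h3 h4
        simp [hX, List.getD_eq_getElem?_getD, List.getElem?_eq_getElem h3]
    have e4 : N = (n + 1 + n * n) + (k + 1 + k * k) := by omega
    rw [e1, e2]
    conv_lhs => rw [e3, e4, List.range_add, List.map_append, List.map_map]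
    congr 1
    refine List.map_congr_left fun t _ => ?_
    simp only [Function.comp_apply]
    rw [← f1]
  · -- the intervals
    obtain ⟨i1, i2, i3⟩ := g5
    simp only [blkP, Bool.false_eq_true, if_false] at i1 i2 i3
    let S : Fin n → Finset ℕ := fun v => (Finset.range n).filter fun s => C v.val s n = true
    have hS : ∀ v, (S v).Nonempty := by
      intro v
      obtain ⟨s, -, h3, h4⟩ := i1 v.val (by omega) v.isLt
      exact ⟨s, by simp [S, h3, h4]⟩
    have conv : ∀ (v : Fin n) (s : ℕ), (S v).min' (hS v) ≤ s → s ≤ (S v).max' (hS v) →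
        C v.val s n = true ∧ s < n := by
      intro v s h3 h4
      have m1 := (S v).min'_mem (hS v)
      have m2 := (S v).max'_mem (hS v)
      have m3 : (S v).min' (hS v) < n ∧ C v.val ((S v).min' (hS v)) n = true := by
        simpa [S] using m1
      have m4 : (S v).max' (hS v) < n ∧ C v.val ((S v).max' (hS v)) n = true := by
        simpa [S] using m2
      refine ⟨?_, by omega⟩
      rcases Nat.eq_or_lt_of_le h3 with h5 | h5
      · rw [← h5]; exact m3.2
      · rcases Nat.eq_or_lt_of_le h4 with h6 | h6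
        · rw [h6]; exact m4.2
        · exact i2 v.val (by omega) _ (by omega) s (by omega) _ (by omega) v.isLt h5 h6 m4.1
            m3.2 m4.2
    refine isIntervalGraph_of_nat (fun v => (S v).min' (hS v)) (fun v => (S v).max' (hS v))
      (fun v => (S v).min'_le _ ((S v).max'_mem (hS v))) fun u v => ?_
    constructor
    · intro h
      have hne : u ≠ v := h.ne
      refine ⟨hne, ?_⟩
      have hne' : ¬ u.val = v.val := fun h' => hne (Fin.ext h')
      obtain ⟨s, -, h3, h4, h5⟩ := (i3 u.val (by omega) v.val (by omega) u.isLt v.isLt hne').1 h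
      have k1 : s ∈ S u := by simp [S, h3, h4]
      have k2 : s ∈ S v := by simp [S, h3, h5]
      exact ⟨((S u).min'_le _ k1).trans ((S v).le_max' _ k2),
        ((S v).min'_le _ k2).trans ((S u).le_max' _ k1)⟩
    · rintro ⟨hne, h3, h4⟩
      have hne' : ¬ u.val = v.val := fun h' => hne (Fin.ext h')
      refine (i3 u.val (by omega) v.val (by omega) u.isLt v.isLt hne').2 ?_
      have m1 := (S u).min'_le _ ((S u).max'_mem (hS u))
      have m2 := (S v).min'_le _ ((S v).max'_mem (hS v))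
      have k1 := conv u (max ((S u).min' (hS u)) ((S v).min' (hS v))) (le_max_left _ _)
        (max_le m1 h4)
      have k2 := conv v (max ((S u).min' (hS u)) ((S v).min' (hS v))) (le_max_right _ _)
        (max_le h3 m2)
      exact ⟨_, by omega, k1.2, k1.1, k2.1⟩
  · -- the role assignment
    obtain ⟨r1, r2, r3⟩ := g6
    simp only [blkP, Bool.false_eq_true, if_false, if_true] at r1 r2 r3
    have hex : ∀ u : Fin n, ∃ c : Fin k, C u.val (q1 + c.val) n = true := by
      intro u
      obtain ⟨c, -, h3, h4⟩ := r1 u.val (by omega) u.isLt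
      refine ⟨⟨c - q1, by omega⟩, ?_⟩
      simp only
      rw [Nat.add_sub_cancel' h3.1]
      exact h4
    choose r hr using hex
    have hru : ∀ (u : Fin n) (c : Fin k), C u.val (q1 + c.val) n = true ↔ r u = c := by
      intro u c
      constructor
      · intro h
        have := r2 u.val (by omega) (q1 + (r u).val) (by omega) (q1 + c.val) (by omega) u.isLt
          ⟨by omega, by omega⟩ ⟨by omega, by omega⟩ (hr u) h
        exact Fin.ext (by omega)
      · rintro rfl
        exact hr u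
    refine ⟨r, fun u => ?_⟩
    ext d
    have key := r3 u.val (by omega) (q1 + (r u).val) (by omega) (q1 + d.val) (by omega) u.isLt
      ⟨by omega, by omega⟩ ⟨by omega, by omega⟩ (hr u)
    rw [SimpleGraph.mem_neighborSet]
    constructor
    · rintro ⟨v, hv, rfl⟩
      exact key.2 ⟨v.val, by omega, v.isLt, hv, hr v⟩
    · intro h
      obtain ⟨v, -, hv, h3, h4⟩ := key.1 h
      exact ⟨⟨v, hv⟩, h3, (hru ⟨v, hv⟩ d).1 h4⟩

end Sound

/-! ### Completeness -/

section Complete

theorem complete {x : List Bool} (hx : x ∈ roleInterval) :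
    0 < x.length ∧ ∃ C : ℕ → ℕ → ℕ → Bool, (∀ c, c + 1 = x.length → C c c c = false) ∧
      mainP x.length (fun t => x.getD t false) C := by
  classical
  obtain ⟨n, k, G, R, hxe, hG, r, hr⟩ := hx
  obtain ⟨a, b, hab, hbn, hadj⟩ := interval_nat hG
  obtain ⟨q1, hq1⟩ : ∃ q1, q1 = n + 1 + n * n := ⟨_, rfl⟩
  obtain ⟨q2, hq2⟩ : ∃ q2, q2 = q1 + k := ⟨_, rfl⟩
  obtain ⟨N, hN⟩ : ∃ N, N = x.length := ⟨_, rfl⟩
  have hx2 : x = (List.range q1).map (bit G) ++ (List.range (k + 1 + k * k)).map (bit R) := by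
    rw [hxe, graphWord_bit, graphWord_bit, hq1]
  have hNe : N = q2 + 1 + k * k := by
    rw [hN, hx2, List.length_append, List.length_map, List.length_map, List.length_range,
      List.length_range, hq2]
    ring
  obtain ⟨X, hXd⟩ : ∃ X : ℕ → Bool, X = fun t => x.getD t false := ⟨_, rfl⟩
  rw [← hXd, ← hN]
  have hX1 : ∀ t < q1, X t = bit G t := by
    intro t ht
    rw [hXd]
    simp only
    rw [hx2, List.getD_append _ _ _ _ (by simpa using ht), getD_map_range _ ht]
  have hX2 : ∀ t < k + 1 + k * k, X (q1 + t) = bit R t := by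
    intro t ht
    rw [hXd]
    simp only
    rw [hx2, List.getD_append_right _ _ _ _ (by simp)]
    simp only [List.length_map, List.length_range, Nat.add_sub_cancel_left]
    rw [getD_map_range _ ht]
  obtain ⟨C, hC⟩ : ∃ C : ℕ → ℕ → ℕ → Prop, C = fun c d p =>
      (c < n ∧ d < n ∧ p = n + 1 + (c * n + d)) ∨
      (q1 ≤ c ∧ c < q2 ∧ q1 ≤ d ∧ d < q2 ∧ p = q2 + 1 + ((c - q1) * k + (d - q1))) ∨
      (p = n ∧ ∃ h : c < n, (d < n ∧ a ⟨c, h⟩ ≤ d ∧ d ≤ b ⟨c, h⟩) ∨
        d = q1 + (r ⟨c, h⟩).val) := ⟨_, rfl⟩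
  have C1 : ∀ c d p, c < n → d < n → n < p → (C c d p ↔ p = n + 1 + (c * n + d)) := by
    intro c d p hc hd hp
    rw [hC]
    constructor
    · rintro (h | h | h)
      · exact h.2.2
      · omega
      · omega
    · intro h
      exact Or.inl ⟨hc, hd, h⟩
  have C2 : ∀ c d p, q1 ≤ c → c < q2 → q1 ≤ d → d < q2 → (C c d p ↔
      p = q2 + 1 + ((c - q1) * k + (d - q1))) := by
    intro c d p hc hc' hd hd'
    rw [hC]
    constructor
    · rintro (h | h | ⟨h, h', -⟩)
      · omega
      · exact h.2.2.2.2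
      · omega
    · intro h
      exact Or.inr (Or.inl ⟨hc, hc', hd, hd', h⟩)
  have C3 : ∀ (c : Fin n) d, d < n → (C c.val d n ↔ a c ≤ d ∧ d ≤ b c) := by
    intro c d hd
    have := c.isLt
    rw [hC]
    constructor
    · rintro (h | h | ⟨-, h', h | h⟩)
      · omega
      · omega
      · exact h.2
      · omega
    · intro h
      exact Or.inr (Or.inr ⟨rfl, c.isLt, Or.inl ⟨hd, h⟩⟩)
  have C4 : ∀ (c : Fin n) d, q1 ≤ d → (C c.val d n ↔ d = q1 + (r c).val) := by
    intro c d hd
    have := c.isLt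
    rw [hC]
    constructor
    · rintro (h | h | ⟨-, h', h | h⟩)
      · omega
      · omega
      · omega
      · exact h
    · intro h
      exact Or.inr (Or.inr ⟨rfl, c.isLt, Or.inr h⟩)
  -- adjacency
  have adj1 : ∀ u v : Fin n, adjP N X (fun c d p => decide (C c d p)) n q1 q2 false u.val v.val ↔
      G.Adj u v := by
    intro u v
    have hlt := pair_lt u.isLt v.isLt
    simp only [adjP, rngP, Bool.false_eq_true, if_false, decide_eq_true_eq]
    constructor
    · rintro ⟨p, -, ⟨h3, h4⟩, h5, h6⟩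
      rw [C1 _ _ _ u.isLt v.isLt h3] at h5
      subst h5
      rw [hX1 _ h4, bit_adj] at h6
      exact h6
    · intro h
      refine ⟨n + 1 + (u.val * n + v.val), by omega, ⟨by omega, by omega⟩,
        (C1 _ _ _ u.isLt v.isLt (by omega)).2 rfl, ?_⟩
      rw [hX1 _ (by omega), bit_adj]
      exact h
  have adj2 : ∀ u v : Fin k, adjP N X (fun c d p => decide (C c d p)) n q1 q2 true (q1 + u.val)
      (q1 + v.val) ↔ R.Adj u v := by
    intro u v
    have hlt := pair_lt u.isLt v.isLt
    have hu := u.isLt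
    have hv := v.isLt
    simp only [adjP, rngP, if_true, decide_eq_true_eq]
    have e1 : q2 + 1 + ((q1 + u.val - q1) * k + (q1 + v.val - q1)) =
        q1 + (k + 1 + (u.val * k + v.val)) := by
      rw [Nat.add_sub_cancel_left, Nat.add_sub_cancel_left]; omega
    constructor
    · rintro ⟨p, -, h3, h5, h6⟩
      rw [C2 _ _ _ (by omega) (by omega) (by omega) (by omega), e1] at h5
      subst h5
      rw [hX2 _ (by omega), bit_adj] at h6
      exact h6
    · intro h
      refine ⟨q1 + (k + 1 + (u.val * k + v.val)), by omega, by omega,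
        (C2 _ _ _ (by omega) (by omega) (by omega) (by omega)).2 e1.symm, ?_⟩
      rw [hX2 _ (by omega), bit_adj]
      exact h
  refine ⟨by omega, fun c d p => decide (C c d p), fun c hc => ?_, n, by omega, q1, by omega, q2,
    by omega, ⟨?_, ?_, by omega, by omega, ?_, ?_⟩, ?_, ?_, ?_, ?_, ?_, ?_⟩
  · rw [decide_eq_false_iff_not, hC]
    rintro (h | h | ⟨h, h', -⟩)
    · omega
    · omega
    · omega
  · intro t _ ht
    rw [hX1 t (by omega)]
    exact bit_lt G ht
  · rw [hX1 n (by omega), bit_eq]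
    simp
  · intro t _ ht
    obtain ⟨s, rfl⟩ : ∃ s, t = q1 + s := ⟨t - q1, by omega⟩
    rw [hX2 s (by omega)]
    exact bit_lt R (by omega)
  · rw [hq2, hX2 k (by omega), bit_eq]
    simp
  · -- enumeration of the first matrix
    simp only [enmP, blkP, rngP, Bool.false_eq_true, if_false, decide_eq_true_eq]
    refine ⟨fun c _ d _ hc hd => ?_, fun p _ hp => ?_, ?_⟩
    · have hlt := pair_lt hc hd
      exact ⟨n + 1 + (c * n + d), by omega, ⟨by omega, by omega⟩,
        (C1 c d _ hc hd (by omega)).2 rfl⟩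
    · have hn : 0 < n := by
        rcases Nat.eq_zero_or_pos n with h | h
        · subst h; omega
        · exact h
      have h1 : (p - (n + 1)) / n < n := Nat.div_lt_of_lt_mul (by omega)
      have h2 : (p - (n + 1)) % n < n := Nat.mod_lt _ hn
      have h3 := Nat.div_add_mod (p - (n + 1)) n
      rw [Nat.mul_comm] at h3
      exact ⟨_, by omega, _, by omega, h1, h2, (C1 _ _ _ h1 h2 hp.1).2 (by omega)⟩
    · intro c _ d _ c' _ d' _ p _ p' _ hc hd hc' hd' hp hp' h1 h2
      rw [C1 _ _ _ hc hd hp.1] at h1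
      rw [C1 _ _ _ hc' hd' hp'.1] at h2
      rw [← pair_lex hd hd']
      omega
  · -- enumeration of the second matrix
    simp only [enmP, blkP, rngP, if_true, decide_eq_true_eq]
    refine ⟨fun c _ d _ hc hd => ?_, fun p hpN hp => ?_, ?_⟩
    · have hlt := pair_lt (show c - q1 < k by omega) (show d - q1 < k by omega)
      exact ⟨q2 + 1 + ((c - q1) * k + (d - q1)), by omega, by omega,
        (C2 c d _ hc.1 hc.2 hd.1 hd.2).2 rfl⟩
    · have hk : 0 < k := by
        rcases Nat.eq_zero_or_pos k with h | h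
        · subst h; omega
        · exact h
      have h1 : (p - (q2 + 1)) / k < k := Nat.div_lt_of_lt_mul (by omega)
      have h2 : (p - (q2 + 1)) % k < k := Nat.mod_lt _ hk
      have h3 := Nat.div_add_mod (p - (q2 + 1)) k
      rw [Nat.mul_comm] at h3
      generalize (p - (q2 + 1)) / k = A at h1 h3
      generalize (p - (q2 + 1)) % k = B at h2 h3
      refine ⟨q1 + A, by omega, q1 + B, by omega,
        ⟨by omega, by omega⟩, ⟨by omega, by omega⟩,
        (C2 _ _ _ (by omega) (by omega) (by omega) (by omega)).2 ?_⟩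
      rw [Nat.add_sub_cancel_left, Nat.add_sub_cancel_left]
      omega
    · intro c _ d _ c' _ d' _ p _ p' _ hc hd hc' hd' hp hp' h1 h2
      rw [C2 _ _ _ hc.1 hc.2 hd.1 hd.2] at h1
      rw [C2 _ _ _ hc'.1 hc'.2 hd'.1 hd'.2] at h2
      have h3 := pair_lex (c := c - q1) (c' := c' - q1) (show d - q1 < k by omega)
        (show d' - q1 < k by omega)
      rw [h1, h2, Nat.add_lt_add_iff_left, h3]
      omega
  · -- symmetry
    refine ⟨fun c _ hc => ?_, fun c _ d _ hc hd h => ?_⟩
    · simp only [blkP, Bool.false_eq_true, if_false] at hc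
      have := adj1 ⟨c, hc⟩ ⟨c, hc⟩
      rw [this]
      exact G.loopless.irrefl _
    · simp only [blkP, Bool.false_eq_true, if_false] at hc hd
      exact (adj1 ⟨d, hd⟩ ⟨c, hc⟩).2 ((adj1 ⟨c, hc⟩ ⟨d, hd⟩).1 h).symm
  · refine ⟨fun c _ hc => ?_, fun c _ d _ hc hd h => ?_⟩
    · simp only [blkP, if_true] at hc
      obtain ⟨c, rfl⟩ : ∃ s, c = q1 + s := ⟨c - q1, by omega⟩
      have := adj2 ⟨c, by omega⟩ ⟨c, by omega⟩
      rw [this]
      exact R.loopless.irrefl _
    · simp only [blkP, if_true] at hc hd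
      obtain ⟨c, rfl⟩ : ∃ s, c = q1 + s := ⟨c - q1, by omega⟩
      obtain ⟨d, rfl⟩ : ∃ s, d = q1 + s := ⟨d - q1, by omega⟩
      exact (adj2 ⟨d, by omega⟩ ⟨c, by omega⟩).2
        ((adj2 ⟨c, by omega⟩ ⟨d, by omega⟩).1 h).symm
  · -- intervals
    refine ⟨fun c _ hc => ?_, fun c _ d _ c' _ d' _ hc h1 h2 h3 h4 h5 => ?_,
      fun c _ d _ hc hd hne => ?_⟩
    · simp only [blkP, Bool.false_eq_true, if_false] at hc ⊢
      have h1 := hab ⟨c, hc⟩
      have h2 := hbn ⟨c, hc⟩
      exact ⟨a ⟨c, hc⟩, by omega, by omega,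
        decide_eq_true ((C3 ⟨c, hc⟩ _ (by omega)).2 ⟨le_rfl, h1⟩)⟩
    · simp only [blkP, Bool.false_eq_true, if_false, decide_eq_true_eq] at hc h3 h4 h5 ⊢
      have k1 := (C3 ⟨c, hc⟩ d (by omega)).1 h4
      have k2 := (C3 ⟨c, hc⟩ d' (by omega)).1 h5
      exact (C3 ⟨c, hc⟩ c' (by omega)).2 ⟨by omega, by omega⟩
    · simp only [blkP, Bool.false_eq_true, if_false] at hc hd
      rw [adj1 ⟨c, hc⟩ ⟨d, hd⟩, hadj]
      simp only [blkP, Bool.false_eq_true, if_false, decide_eq_true_eq]
      have h1 := hbn ⟨c, hc⟩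
      have h2 := hbn ⟨d, hd⟩
      have h3 := hab ⟨c, hc⟩
      have h4 := hab ⟨d, hd⟩
      constructor
      · rintro ⟨-, h5, h6⟩
        refine ⟨max (a ⟨c, hc⟩) (a ⟨d, hd⟩), by omega, by omega,
          (C3 ⟨c, hc⟩ _ (by omega)).2 ⟨by omega, by omega⟩,
          (C3 ⟨d, hd⟩ _ (by omega)).2 ⟨by omega, by omega⟩⟩
      · rintro ⟨s, -, hs, h5, h6⟩
        have k1 := (C3 ⟨c, hc⟩ s hs).1 h5
        have k2 := (C3 ⟨d, hd⟩ s hs).1 h6
        refine ⟨fun h => hne (by simpa using h), by omega, by omega⟩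
  · -- the role assignment
    refine ⟨fun c _ hc => ?_, fun c _ d _ d' _ hc hd hd' h1 h2 => ?_,
      fun c _ d _ c' _ hc hd hc' h => ?_⟩
    · simp only [blkP, Bool.false_eq_true, if_false, if_true] at hc ⊢
      have := (r ⟨c, hc⟩).isLt
      exact ⟨q1 + (r ⟨c, hc⟩).val, by omega, ⟨by omega, by omega⟩,
        decide_eq_true ((C4 ⟨c, hc⟩ _ (by omega)).2 rfl)⟩
    · simp only [blkP, Bool.false_eq_true, if_false, if_true, decide_eq_true_eq] at hc hd hd' h1 h2
      have k1 := (C4 ⟨c, hc⟩ d hd.1).1 h1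
      have k2 := (C4 ⟨c, hc⟩ d' hd'.1).1 h2
      omega
    · simp only [blkP, Bool.false_eq_true, if_false, if_true, decide_eq_true_eq] at hc hd hc' h
      have k1 := (C4 ⟨c, hc⟩ d hd.1).1 h
      obtain ⟨e, rfl⟩ : ∃ s, c' = q1 + s := ⟨c' - q1, by omega⟩
      have he : e < k := by omega
      rw [k1, adj2 (r ⟨c, hc⟩) ⟨e, he⟩]
      have h3 := Set.ext_iff.1 (hr ⟨c, hc⟩) ⟨e, he⟩
      rw [SimpleGraph.mem_neighborSet] at h3
      rw [← h3]
      simp only [blkP, Bool.false_eq_true, if_false, decide_eq_true_eq]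
      constructor
      · rintro ⟨v, hv, hre⟩
        have hvl := v.isLt
        refine ⟨v.val, by omega, v.isLt, (adj1 ⟨c, hc⟩ v).2 hv, (C4 v _ (by omega)).2 ?_⟩
        rw [hre]
      · rintro ⟨v, -, hv, h4, h5⟩
        refine ⟨⟨v, hv⟩, (adj1 ⟨c, hc⟩ ⟨v, hv⟩).1 h4, ?_⟩
        have := (C4 ⟨v, hv⟩ _ (by omega)).1 h5
        exact Fin.ext (by simp only; omega)

end Complete

/-- ROLE ASSIGNMENT on interval graphs is in NP. -/
theorem roleInterval_np : InNP roleInterval := by
  have h : roleInterval = {x | 0 < x.length ∧ ∃ C : ℕ → ℕ → ℕ → Bool,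
      (∀ c, c + 1 = x.length → C c c c = false) ∧
      mainP x.length (fun t => x.getD t false) C} := by
    ext x
    exact ⟨complete, fun ⟨_, C, _, hC⟩ => sound hC⟩
  rw [h]
  exact certs_np

end Pool.Agent.Lib.MP_a950c6_lc
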