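import Pool.Agent.Lib.MP_a950c6_lc.Digits

/-!
# Definable relations between indices of clauses and variables
-/

namespace Pool.Agent.Lib.MP_a950c6_lc

set_option linter.unusedSectionVars false
set_option linter.unusedSimpArgs false

open Pool.Agent.Lib.PolyTM Pool.Agent.Lib.PolyTM.Tab Function
open Pool.Agent.Lib.MP_75fd85_lc (dx nv DV PosV Twin ar1 radP_dx good_dx dvar_dx nv_lt nv_append
  idx idx_lt idx_div idx_mid idx_mod consts spx Sc4 sc4 Mem memF Pn shape_spx consts_dx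
  consts_append radS_spx vars_spx eval_ff0 eval_memF inS_dx wf_memF)

variable (P : Pr)

/-- Digits of the index of a variable; `U` is the number of kinds of variables. -/
def dK (U : ℕ) (f : Fam) (u : ℕ) : List (Dg P.V) := .c U u :: dx (P.vI f)
/-- Digits of the index of a clause; `r` is the number of kinds of clauses. -/
def dJ (r : ℕ) (f : Fam) (σ : ℕ) : List (Dg P.V) := .c r σ :: dx (P.vJ f)

variable {P} {U r u u' σ σ' : ℕ} {f f' : Fam} {F : List P.V}

theorem num_dK {N : ℕ} {e : P.V → ℕ} (f : Fam) (u : ℕ) : PolyTM.num N e (dK P U f u) =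
    idx (N ^ P.D) u (nv N e (P.xT f)) (nv N e (P.xI f)) := by
  rw [dK, PolyTM.num, radP_dx, ← nv, Pr.vI, nv_append, List.length_append, P.xT_length,
    P.xI_length, idx, pow_add]
  rfl

theorem num_dJ {N : ℕ} {e : P.V → ℕ} (f : Fam) (σ : ℕ) : PolyTM.num N e (dJ P r f σ) =
    idx (N ^ P.D) σ (nv N e (P.zT f)) (nv N e (P.pz f).all) := by
  rw [dJ, PolyTM.num, radP_dx, ← nv, Pr.vJ, nv_append, List.length_append, P.zT_length,
    P.pz_length, idx, pow_add]
  rfl

theorem radP_dK {N : ℕ} (f : Fam) (u : ℕ) : radP N (dK P U f u) = U * (N ^ P.D * N ^ P.D) := by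
  rw [dK, radP_cons, radP_dx, P.vI_length, pow_add]
  rfl

theorem radP_dJ {N : ℕ} (f : Fam) (σ : ℕ) : radP N (dJ P r f σ) = r * (N ^ P.D * N ^ P.D) := by
  rw [dJ, radP_cons, radP_dx, P.vJ_length, pow_add]
  rfl

theorem good_dK (f : Fam) (hu : u < U) (N : ℕ) (e : P.V → ℕ) (he : ∀ y, e y < N) :
    Good N e (dK P U f u) := by
  intro d hd
  rcases List.mem_cons.1 hd with rfl | hd
  · exact hu
  · exact good_dx he _ d hd

theorem good_dJ (f : Fam) (hσ : σ < r) (N : ℕ) (e : P.V → ℕ) (he : ∀ y, e y < N) :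
    Good N e (dJ P r f σ) := by
  intro d hd
  rcases List.mem_cons.1 hd with rfl | hd
  · exact hσ
  · exact good_dx he _ d hd

theorem dvar_dK (f : Fam) : Dvar (dK P U f u) := by
  intro x hx
  simp only [dK, List.mem_cons, reduceCtorEq, false_or] at hx
  exact dvar_dx (P.dv_vI f) x hx

theorem dvar_dJ (f : Fam) : Dvar (dJ P r f σ) := by
  intro x hx
  simp only [dJ, List.mem_cons, reduceCtorEq, false_or] at hx
  exact dvar_dx (P.dv_vJ f) x hx

theorem inS_dK (h : ∀ y ∈ P.vI f, y ∈ F) : InS F (dK P U f u) := by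
  intro x hx
  simp only [dK, List.mem_cons, reduceCtorEq, false_or] at hx
  exact inS_dx h x hx

theorem inS_dJ (h : ∀ y ∈ P.vJ f, y ∈ F) : InS F (dJ P r f σ) := by
  intro x hx
  simp only [dJ, List.mem_cons, reduceCtorEq, false_or] at hx
  exact inS_dx h x hx

theorem sim_dK (hf : f ≠ f') : List.Forall₂ Sim (dK P U f u) (dK P U f' u') :=
  .cons rfl (P.twin_vI hf).sim

theorem sim_dJ (hf : f ≠ f') : List.Forall₂ Sim (dJ P r f σ) (dJ P r f' σ') :=
  .cons rfl (P.twin_vJ hf).sim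

theorem Df.eqK (hu : u < U) (hu' : u' < U) (hf : f ≠ f') (hF : ∀ y ∈ P.vI f, y ∈ F)
    (hF' : ∀ y ∈ P.vI f', y ∈ F) :
    Df F fun x e => PolyTM.num (x.length + 2) e (dK P U f u) =
      PolyTM.num (x.length + 2) e (dK P U f' u') :=
  Df.eqT (sim_dK hf) (good_dK f hu) (good_dK f' hu') (inS_dK hF) (inS_dK hF')

theorem Df.eqJ (hσ : σ < r) (hσ' : σ' < r) (hf : f ≠ f') (hF : ∀ y ∈ P.vJ f, y ∈ F)
    (hF' : ∀ y ∈ P.vJ f', y ∈ F) :
    Df F fun x e => PolyTM.num (x.length + 2) e (dJ P r f σ) =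
      PolyTM.num (x.length + 2) e (dJ P r f' σ') :=
  Df.eqT (sim_dJ hf) (good_dJ f hσ) (good_dJ f' hσ') (inS_dJ hF) (inS_dJ hF')

theorem Df.sucJ (hσ : σ < r) (hσ' : σ' < r) (hf : f ≠ f') (hF : ∀ y ∈ P.vJ f, y ∈ F)
    (hF' : ∀ y ∈ P.vJ f', y ∈ F) :
    Df F fun x e => PolyTM.num (x.length + 2) e (dJ P r f σ) + 1 =
      PolyTM.num (x.length + 2) e (dJ P r f' σ') :=
  Df.sucT (sim_dJ hf) (dvar_dJ f) (dvar_dJ f') (good_dJ f hσ) (good_dJ f' hσ') (inS_dJ hF)
    (inS_dJ hF')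

theorem Df.ltJ (hσ : σ < r) (hσ' : σ' < r) (hf : f ≠ f') (hF : ∀ y ∈ P.vJ f, y ∈ F)
    (hF' : ∀ y ∈ P.vJ f', y ∈ F) :
    Df F fun x e => PolyTM.num (x.length + 2) e (dJ P r f σ) <
      PolyTM.num (x.length + 2) e (dJ P r f' σ') :=
  Df.ltT (sim_dJ hf) (good_dJ f hσ) (good_dJ f' hσ') (inS_dJ hF) (inS_dJ hF')

theorem Df.zeroJ (hσ : σ < r) (hF : ∀ y ∈ P.vJ f, y ∈ F) :
    Df F fun x e => PolyTM.num (x.length + 2) e (dJ P r f σ) = 0 :=
  Df.zeroT (dvar_dJ f) (good_dJ f hσ) (inS_dJ hF)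

theorem Df.zeroK (hu : u < U) (hF : ∀ y ∈ P.vI f, y ∈ F) :
    Df F fun x e => PolyTM.num (x.length + 2) e (dK P U f u) = 0 :=
  Df.zeroT (dvar_dK f) (good_dK f hu) (inS_dK hF)

theorem Df.maxJ (hσ : σ < r) (hF : ∀ y ∈ P.vJ f, y ∈ F) :
    Df F fun x e => PolyTM.num (x.length + 2) e (dJ P r f σ) + 1 =
      r * ((x.length + 2) ^ P.D * (x.length + 2) ^ P.D) :=
  (Df.maxT (dvar_dJ f) (good_dJ f hσ) (inS_dJ hF)).congr fun x e _ => by rw [radP_dJ]

/-! ### Clauses -/

variable {K : Type} {Γ : K → Type} {S : Type} (cd : VT K Γ S ≃ Fin U) (cs : List (Sc K Γ S))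

/-- Predicates on positions. -/
abbrev amP (P : Pr) (x : List Bool) : GW → ℕ → Prop :=
  Am (Pn (x.length + 2) P.D) (Pn (x.length + 2) P.D + (x.length + 2) ^ (P.m2 + 1)) x

variable (P) in
/-- The literal `(k, b)` belongs to the clause `p`. -/
def lstN (x : List Bool) (p k : ℕ) (b : Bool) : Prop :=
  (∃ q v, (sc4 cs)[p / ((x.length + 2) ^ P.D * (x.length + 2) ^ P.D)]? = some q ∧
    (cd v).val = k / ((x.length + 2) ^ P.D * (x.length + 2) ^ P.D) ∧
    Mem ((x.length + 2) ^ P.D) (amP P x) q (p / (x.length + 2) ^ P.D % (x.length + 2) ^ P.D)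
      (p % (x.length + 2) ^ P.D) v (k / (x.length + 2) ^ P.D % (x.length + 2) ^ P.D)
      (k % (x.length + 2) ^ P.D) b) ∨
  p = (sc4 cs).length * ((x.length + 2) ^ P.D * (x.length + 2) ^ P.D) + k

/-- The clause is the pair clause of the variable. -/
theorem Df.pair {s : ℕ} (hσ : σ < s + U) (hu : u < U) (hF : ∀ y ∈ P.vJ f, y ∈ F)
    (hF' : ∀ y ∈ P.vI f', y ∈ F) :
    Df F fun x e => PolyTM.num (x.length + 2) e (dJ P (s + U) f σ) =
      s * ((x.length + 2) ^ P.D * (x.length + 2) ^ P.D) +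
        PolyTM.num (x.length + 2) e (dK P U f' u) := by
  have h1 : Df F fun x e => PolyTM.num (x.length + 2) e (dx (P.vI f')) =
      PolyTM.num (x.length + 2) e (dx (P.vJ f)) :=
    Df.eqT (P.twin_vIJ f' f).sim (fun N e he => good_dx he _) (fun N e he => good_dx he _)
      (inS_dx hF') (inS_dx hF)
  refine ((Df.const (σ = s + u)).and h1).congr fun x e he => ?_
  have g1 := nv_lt he (P.vI f')
  have g2 := nv_lt he (P.vJ f)
  rw [P.vI_length, pow_add] at g1
  rw [P.vJ_length, pow_add] at g2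
  rw [dJ, dK, PolyTM.num, PolyTM.num, radP_dx, radP_dx, P.vI_length, P.vJ_length, pow_add]
  simp only [Dg.val, nv] at g1 g2 ⊢
  set A := PolyTM.num (x.length + 2) e (dx (P.vI f'))
  set B := PolyTM.num (x.length + 2) e (dx (P.vJ f))
  set T := (x.length + 2) ^ P.D * (x.length + 2) ^ P.D
  constructor
  · rintro ⟨rfl, h⟩
    rw [h, Nat.add_mul]; omega
  · intro h
    have h2 : σ = s + u := by
      rcases Nat.lt_trichotomy σ (s + u) with h3 | h3 | h3
      · have := Nat.mul_le_mul_right T (show σ + 1 ≤ s + u by omega)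
        rw [Nat.add_mul, Nat.add_mul] at this
        omega
      · exact h3
      · have := Nat.mul_le_mul_right T (show s + u + 1 ≤ σ by omega)
        rw [Nat.add_mul, Nat.add_mul] at this
        omega
    refine ⟨h2, ?_⟩
    rw [h2, Nat.add_mul] at h
    omega

variable {cd cs}

/-- Membership of literals in clauses is definable. -/
theorem Df.lst (hσ : σ < (sc4 cs).length + U) (hu : u < U) (hF : ∀ y ∈ P.vJ f, y ∈ F)
    (hF' : ∀ y ∈ P.vI f', y ∈ F) (b : Bool) :
    Df F fun x e => lstN P cd cs x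
      (PolyTM.num (x.length + 2) e (dJ P ((sc4 cs).length + U) f σ))
      (PolyTM.num (x.length + 2) e (dK P U f' u)) b := by
  refine Df.or ?_ (Df.pair hσ hu hF hF')
  have key : ∀ (x : List Bool) (e : P.V → ℕ), (∀ y, e y < x.length + 2) →
      ((∃ q v, (sc4 cs)[PolyTM.num (x.length + 2) e (dJ P ((sc4 cs).length + U) f σ) /
        ((x.length + 2) ^ P.D * (x.length + 2) ^ P.D)]? = some q ∧
        (cd v).val = PolyTM.num (x.length + 2) e (dK P U f' u) /
          ((x.length + 2) ^ P.D * (x.length + 2) ^ P.D) ∧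
        Mem ((x.length + 2) ^ P.D) (amP P x) q
          (PolyTM.num (x.length + 2) e (dJ P ((sc4 cs).length + U) f σ) /
            (x.length + 2) ^ P.D % (x.length + 2) ^ P.D)
          (PolyTM.num (x.length + 2) e (dJ P ((sc4 cs).length + U) f σ) % (x.length + 2) ^ P.D) v
          (PolyTM.num (x.length + 2) e (dK P U f' u) / (x.length + 2) ^ P.D %
            (x.length + 2) ^ P.D)
          (PolyTM.num (x.length + 2) e (dK P U f' u) % (x.length + 2) ^ P.D) b) ↔
      ∃ h : σ < (sc4 cs).length, Mem ((x.length + 2) ^ P.D) (amP P x) ((sc4 cs)[σ]'h)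
        (nv (x.length + 2) e (P.zT f)) (nv (x.length + 2) e (P.pz f).all) (cd.symm ⟨u, hu⟩)
        (nv (x.length + 2) e (P.xT f')) (nv (x.length + 2) e (P.xI f')) b) := by
    intro x e he
    have h1 : nv (x.length + 2) e (P.xT f') < (x.length + 2) ^ P.D := by
      have := nv_lt he (P.xT f'); rwa [P.xT_length] at this
    have h2 : nv (x.length + 2) e (P.xI f') < (x.length + 2) ^ P.D := by
      have := nv_lt he (P.xI f'); rwa [P.xI_length] at this
    have h3 : nv (x.length + 2) e (P.zT f) < (x.length + 2) ^ P.D := by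
      have := nv_lt he (P.zT f); rwa [P.zT_length] at this
    have h4 : nv (x.length + 2) e (P.pz f).all < (x.length + 2) ^ P.D := by
      have := nv_lt he (P.pz f).all; rwa [P.pz_length] at this
    rw [num_dK, num_dJ, idx_div h1 h2, idx_mid h1 h2, idx_mod h2, idx_div h3 h4, idx_mid h3 h4,
      idx_mod h4]
    constructor
    · rintro ⟨q, v, h5, h6, h7⟩
      obtain ⟨h8, h9⟩ := List.getElem?_eq_some_iff.1 h5
      have h10 : v = cd.symm ⟨u, hu⟩ := by
        rw [Equiv.eq_symm_apply]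
        exact Fin.ext h6
      refine ⟨h8, ?_⟩
      rw [h9, ← h10]
      exact h7
    · rintro ⟨h8, h9⟩
      exact ⟨_, _, List.getElem?_eq_getElem h8, by simp, h9⟩
  by_cases hs : σ < (sc4 cs).length
  · refine Df.congr (P := fun x e => Mem ((x.length + 2) ^ P.D) (amP P x) ((sc4 cs)[σ]'hs)
        (nv (x.length + 2) e (P.zT f)) (nv (x.length + 2) e (P.pz f).all) (cd.symm ⟨u, hu⟩)
        (nv (x.length + 2) e (P.xT f')) (nv (x.length + 2) e (P.xI f')) b) ?_ fun x e he => by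
        rw [key x e he]
        exact ⟨fun h => ⟨hs, h⟩, fun ⟨_, h⟩ => h⟩
    refine ⟨memF ((sc4 cs)[σ]'hs) (P.zT f) (P.pz f) (cd.symm ⟨u, hu⟩) (P.xT f') (P.xI f') b,
      fun F' hS hFF => ?_, fun x a e ha he => ?_⟩
    · exact wf_memF hS
        (fun y hy => hFF y (hF y (List.mem_append.2 (Or.inr hy))))
        (fun y hy => hFF y (hF y (List.mem_append.2 (Or.inl hy))))
        (fun y hy => hFF y (hF' y (List.mem_append.2 (Or.inl hy))))
        (fun y hy => hFF y (hF' y (List.mem_append.2 (Or.inr hy))))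
        (P.twin_zx f f') (P.twin_pz f f') _ _ _
    · have := eval_memF (N := x.length + 2) rfl ha he (P.zT_length f) (P.pz_length f)
        (P.dv_grp _ _ _) (P.dv_pz _) ((sc4 cs)[σ]'hs) (cd.symm ⟨u, hu⟩) b (P.twin_zx f f')
        (P.twin_pz f f')
      rw [P.mid_length] at this
      exact this
  · refine (Df.const False).congr fun x e he => ?_
    rw [key x e he]
    simp [hs]

end Pool.Agent.Lib.MP_a950c6_lc
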