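import Pool.Agent.Lib.MP_a950c6_lc.Defs

/-!
# NP-completeness and the decision problem ROLE ASSIGNMENT on interval graphs

Machines are Mathlib's finite multi-stack machines (`Turing.FinTM2`).
-/

namespace Pool.Agent.Lib.MP_a950c6_lc.Problem

open Turing

/-- Started on the word `w`, the machine `M` halts with output `w'` after at most `T` steps. -/
def Halts {α β : Type} (M : TM2ComputableAux α β) (w : List α) (w' : List β) (T : ℕ) : Prop :=
  Nonempty (TM2OutputsInTime M.tm (w.map M.inputAlphabet.invFun)
    (some (w'.map M.outputAlphabet.invFun)) T)

/-- The function `f` is computed in polynomial time by a machine with finite alphabets. -/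
def PolyTime {α β : Type} (f : List α → List β) : Prop :=
  ∃ (M : TM2ComputableAux α β) (p : Polynomial ℕ), (∀ k, Finite (M.tm.Γ k)) ∧
    ∀ w, Halts M w (f w) (p.eval w.length)

/-- The language `L` is decidable in polynomial time. -/
def InP {α : Type} (L : Set (List α)) : Prop :=
  ∃ (M : TM2ComputableAux α Bool) (p : Polynomial ℕ), (∀ k, Finite (M.tm.Γ k)) ∧
    ∀ w, (w ∈ L → Halts M w [true] (p.eval w.length)) ∧
      (w ∉ L → Halts M w [false] (p.eval w.length))

/-- The language `L` is in NP: there is a polynomially balanced relation `R`, decidable in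
polynomial time, such that `x ∈ L` if and only if `(x, y) ∈ R` for some `y`. The pair `(x, y)` is
written as the word `x` in the first copy of the alphabet followed by `y` in the second copy. -/
def InNP (L : Set (List Bool)) : Prop :=
  ∃ R : Set (List (Bool ⊕ Bool)), InP R ∧
    (∃ q : Polynomial ℕ, ∀ x y : List Bool, x.map Sum.inl ++ y.map Sum.inr ∈ R →
      y.length ≤ q.eval x.length) ∧
    ∀ x, x ∈ L ↔ ∃ y : List Bool, x.map Sum.inl ++ y.map Sum.inr ∈ R

/-- The language `L` is NP-hard: every language in NP is reducible to `L` by a function computable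
in polynomial time. -/
def NPHard (L : Set (List Bool)) : Prop :=
  ∀ L' : Set (List Bool), InNP L' → ∃ f : List Bool → List Bool, PolyTime f ∧
    ∀ x, x ∈ L' ↔ f x ∈ L

/-- The language `L` is NP-complete. -/
def NPComplete (L : Set (List Bool)) : Prop := InNP L ∧ NPHard L

open Classical in
/-- The word describing a graph on `{0, ..., n-1}`: the number `n` in unary followed by `false`,
and the rows of the adjacency matrix. -/
noncomputable def graphWord {n : ℕ} (G : SimpleGraph (Fin n)) : List Bool :=
  List.replicate n true ++ false ::
    (List.finRange n).flatMap fun i => (List.finRange n).map fun j => decide (G.Adj i j)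

/-- The decision problem ROLE ASSIGNMENT restricted to input pairs `(G, R)` in which `G` is an
interval graph, as a language. -/
def roleInterval : Set (List Bool) :=
  {w | ∃ (n k : ℕ) (G : SimpleGraph (Fin n)) (R : SimpleGraph (Fin k)),
    w = graphWord G ++ graphWord R ∧ IsIntervalGraph G ∧ ∃ r, IsRoleAssignment G R r}

/-- The machine `A` decides within time `p(|V_G| + |V_R|)` whether `G` has an `R`-role assignment,
for all input pairs `(G, R)` in which `G` is an interval graph (nothing is required for other
inputs). -/
def DecidesRoles (A : TM2ComputableAux Bool Bool) (p : Polynomial ℕ) : Prop :=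
  ∀ (n k : ℕ) (G : SimpleGraph (Fin n)) (R : SimpleGraph (Fin k)), IsIntervalGraph G →
    ((∃ r, IsRoleAssignment G R r) →
      Halts A (graphWord G ++ graphWord R) [true] (p.eval (n + k))) ∧
    ((¬ ∃ r, IsRoleAssignment G R r) →
      Halts A (graphWord G ++ graphWord R) [false] (p.eval (n + k)))

/-- There is a polynomial-time algorithm for ROLE ASSIGNMENT restricted to input pairs `(G, R)` in
which `G` is an interval graph. -/
def PolynomialAlgorithm : Prop :=
  ∃ (A : TM2ComputableAux Bool Bool) (p : Polynomial ℕ), (∀ k, Finite (A.tm.Γ k)) ∧
    DecidesRoles A p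

end Pool.Agent.Lib.MP_a950c6_lc.Problem
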