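import Pool.Agent.Lib.PolyTM.Rules
import Pool.Agent.Lib.MP_75fd85_lc.Algo
import Pool.Agent.Lib.PolyTM.Comp

/-!
# The formula checking a certificate
-/

namespace Pool.Agent.Lib.MP_a950c6_lc

set_option linter.unusedSectionVars false
set_option linter.unusedSimpArgs false

open Pool.Agent.Lib.PolyTM Function Turing
open Pool.Agent.Lib.MP_75fd85_lc (InNP InP Halts)

/-- Variables of the formula. -/
inductive VN
  | z0 | p1 | z1 | c | d | c' | d' | p | p'
  deriving DecidableEq

instance : Fintype VN := Fintype.ofList [.z0, .p1, .z1, .c, .d, .c', .d', .p, .p']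
  (by intro v; cases v <;> simp)

/-- Arrays: the input word, the certificate and its domain. -/
inductive WN
  | x | C | E
  deriving DecidableEq

instance : Fintype WN := Fintype.ofList [.x, .C, .E] (by intro v; cases v <;> simp)

/-- Arities. -/
def arN : WN → ℕ
  | .x => 1
  | .C => 3
  | .E => 3

abbrev FN : Type := Fml VN WN

section Derived

variable {N : ℕ} {a : Arr WN} {e : VN → ℕ}

def impF (φ ψ : FN) : FN := .not (.and φ (.not ψ))
def allF (x : VN) (φ : FN) : FN := .not (.ex x (.not φ))
def iffF (φ ψ : FN) : FN := .and (impF φ ψ) (impF ψ φ)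

theorem eval_impF (φ ψ : FN) : (impF φ ψ).eval N a e = true ↔
    (φ.eval N a e = true → ψ.eval N a e = true) := by
  rw [impF, Fml.eval_not, Fml.eval_and, Fml.eval_not]
  tauto

theorem eval_allF (x : VN) (φ : FN) : (allF x φ).eval N a e = true ↔
    ∀ t < N, φ.eval N a (update e x t) = true := by
  rw [allF, Fml.eval_not, Fml.eval_ex]
  simp only [Fml.eval_not, not_exists, not_and, not_not]

theorem eval_iffF (φ ψ : FN) : (iffF φ ψ).eval N a e = true ↔
    (φ.eval N a e = true ↔ ψ.eval N a e = true) := by
  rw [iffF, Fml.eval_and, eval_impF, eval_impF]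
  tauto

theorem eval_leF (x y : VN) : (Fml.le x y : FN).eval N a e = true ↔ e x ≤ e y := by
  simp [Fml.eval]

end Derived

open VN

/-- The two blocks of vertices and the two blocks of matrix entries. -/
def blkF (β : Bool) (v : VN) : FN := if β then .and (.le p1 v) (.lt v z1) else .lt v z0
def rngF (β : Bool) (v : VN) : FN := if β then .lt z1 v else .and (.lt z0 v) (.lt v p1)

/-- Adjacency, using the variable `p`. -/
def adjF (β : Bool) (u v : VN) : FN :=
  .ex p (.and (rngF β p) (.and (.arr .C [u, v, p]) (.arr .x [p])))

/-- The certificate enumerates the pairs of a block by the positions of the matrix entries. -/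
def enmF (β : Bool) : FN :=
  .and (allF c (allF d (impF (blkF β c) (impF (blkF β d)
    (.ex p (.and (rngF β p) (.arr .C [c, d, p])))))))
  (.and (allF p (impF (rngF β p) (.ex c (.ex d (.and (blkF β c) (.and (blkF β d)
    (.arr .C [c, d, p])))))))
  (allF c (allF d (allF c' (allF d' (allF p (allF p' (impF (blkF β c) (impF (blkF β d)
    (impF (blkF β c') (impF (blkF β d') (impF (rngF β p) (impF (rngF β p')
    (impF (.arr .C [c, d, p]) (impF (.arr .C [c', d', p'])
      (iffF (.lt p p') (.or (.lt c c') (.and (.eq c c') (.lt d d')))))))))))))))))))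

/-- The matrix is symmetric with zero diagonal. -/
def symF (β : Bool) : FN :=
  .and (allF c (impF (blkF β c) (.not (adjF β c c))))
    (allF c (allF d (impF (blkF β c) (impF (blkF β d) (impF (adjF β c d) (adjF β d c))))))

/-- The certificate contains an interval representation of the first graph. -/
def intF : FN :=
  .and (allF c (impF (blkF false c) (.ex d (.and (blkF false d) (.arr .C [c, d, z0])))))
  (.and (allF c (allF d (allF c' (allF d' (impF (blkF false c) (impF (.lt d c') (impF (.lt c' d')
    (impF (blkF false d') (impF (.arr .C [c, d, z0]) (impF (.arr .C [c, d', z0])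
      (.arr .C [c, c', z0])))))))))))
  (allF c (allF d (impF (blkF false c) (impF (blkF false d) (impF (.not (.eq c d))
    (iffF (adjF false c d) (.ex c' (.and (blkF false c') (.and (.arr .C [c, c', z0])
      (.arr .C [d, c', z0])))))))))))

/-- The certificate contains a role assignment. -/
def rolF : FN :=
  .and (allF c (impF (blkF false c) (.ex d (.and (blkF true d) (.arr .C [c, d, z0])))))
  (.and (allF c (allF d (allF d' (impF (blkF false c) (impF (blkF true d) (impF (blkF true d')
    (impF (.arr .C [c, d, z0]) (impF (.arr .C [c, d', z0]) (.eq d d')))))))))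
  (allF c (allF d (allF c' (impF (blkF false c) (impF (blkF true d) (impF (blkF true c')
    (impF (.arr .C [c, d, z0]) (iffF (adjF true d c')
      (.ex d' (.and (blkF false d') (.and (adjF false c d') (.arr .C [d', c', z0])))))))))))))

/-- The two unary blocks. -/
def unaF : FN :=
  .and (allF c (impF (.lt c z0) (.arr .x [c]))) (.and (.not (.arr .x [z0]))
    (.and (.lt z0 p1) (.and (.le p1 z1) (.and (allF c (impF (.and (.le p1 c) (.lt c z1))
      (.arr .x [c]))) (.not (.arr .x [z1]))))))

/-- The certificate is not too long. -/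
def lenF : FN := .ex c (.and (allF d (.le d c)) (.not (.arr .E [c, c, c])))

/-- The sentence. -/
def mainF : FN :=
  .and lenF (.ex z0 (.ex p1 (.ex z1 (.and unaF (.and (enmF false) (.and (enmF true)
    (.and (symF false) (.and (symF true) (.and intF rolF)))))))))

theorem wf_mainF : mainF.wf arN [] = true := by decide

/-! ### Semantics -/

variable (N : ℕ) (X : ℕ → Bool) (C : ℕ → ℕ → ℕ → Bool) (q0 q1 q2 : ℕ)

/-- Blocks of vertices, for the positions `q0`, `q1`, `q2` of the first zero, of the beginning of
the second word and of its first zero. -/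
def blkP (β : Bool) (v : ℕ) : Prop := if β then q1 ≤ v ∧ v < q2 else v < q0
def rngP (β : Bool) (v : ℕ) : Prop := if β then q2 < v else q0 < v ∧ v < q1

def adjP (β : Bool) (u v : ℕ) : Prop :=
  ∃ p < N, rngP q0 q1 q2 β p ∧ C u v p = true ∧ X p = true

def enmP (β : Bool) : Prop :=
  (∀ c < N, ∀ d < N, blkP q0 q1 q2 β c → blkP q0 q1 q2 β d →
    ∃ p < N, rngP q0 q1 q2 β p ∧ C c d p = true) ∧
  (∀ p < N, rngP q0 q1 q2 β p → ∃ c < N, ∃ d < N, blkP q0 q1 q2 β c ∧ blkP q0 q1 q2 β d ∧
    C c d p = true) ∧
  ∀ c < N, ∀ d < N, ∀ c' < N, ∀ d' < N, ∀ p < N, ∀ p' < N, blkP q0 q1 q2 β c →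
    blkP q0 q1 q2 β d → blkP q0 q1 q2 β c' → blkP q0 q1 q2 β d' → rngP q0 q1 q2 β p →
    rngP q0 q1 q2 β p' → C c d p = true → C c' d' p' = true →
    (p < p' ↔ (c < c' ∨ (c = c' ∧ d < d')))

def symP (β : Bool) : Prop :=
  (∀ c < N, blkP q0 q1 q2 β c → ¬ adjP N X C q0 q1 q2 β c c) ∧
  ∀ c < N, ∀ d < N, blkP q0 q1 q2 β c → blkP q0 q1 q2 β d → adjP N X C q0 q1 q2 β c d →
    adjP N X C q0 q1 q2 β d c

def intP : Prop :=
  (∀ c < N, blkP q0 q1 q2 false c → ∃ d < N, blkP q0 q1 q2 false d ∧ C c d q0 = true) ∧
  (∀ c < N, ∀ d < N, ∀ c' < N, ∀ d' < N, blkP q0 q1 q2 false c → d < c' → c' < d' →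
    blkP q0 q1 q2 false d' → C c d q0 = true → C c d' q0 = true → C c c' q0 = true) ∧
  ∀ c < N, ∀ d < N, blkP q0 q1 q2 false c → blkP q0 q1 q2 false d → ¬ c = d →
    (adjP N X C q0 q1 q2 false c d ↔ ∃ c' < N, blkP q0 q1 q2 false c' ∧ C c c' q0 = true ∧
      C d c' q0 = true)

def rolP : Prop :=
  (∀ c < N, blkP q0 q1 q2 false c → ∃ d < N, blkP q0 q1 q2 true d ∧ C c d q0 = true) ∧
  (∀ c < N, ∀ d < N, ∀ d' < N, blkP q0 q1 q2 false c → blkP q0 q1 q2 true d →
    blkP q0 q1 q2 true d' → C c d q0 = true → C c d' q0 = true → d = d') ∧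
  ∀ c < N, ∀ d < N, ∀ c' < N, blkP q0 q1 q2 false c → blkP q0 q1 q2 true d →
    blkP q0 q1 q2 true c' → C c d q0 = true →
    (adjP N X C q0 q1 q2 true d c' ↔ ∃ d' < N, blkP q0 q1 q2 false d' ∧
      adjP N X C q0 q1 q2 false c d' ∧ C d' c' q0 = true)

def unaP : Prop :=
  (∀ c < N, c < q0 → X c = true) ∧ ¬ X q0 = true ∧ q0 < q1 ∧ q1 ≤ q2 ∧
  (∀ c < N, (q1 ≤ c ∧ c < q2) → X c = true) ∧ ¬ X q2 = true

/-- The conditions on the input and the certificate. -/
def mainP : Prop :=
  ∃ q0 < N, ∃ q1 < N, ∃ q2 < N, unaP N X q0 q1 q2 ∧ enmP N C q0 q1 q2 false ∧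
    enmP N C q0 q1 q2 true ∧ symP N X C q0 q1 q2 false ∧ symP N X C q0 q1 q2 true ∧
    intP N X C q0 q1 q2 ∧ rolP N X C q0 q1 q2

variable {N X C q0 q1 q2}

section Eval

variable {a : Arr WN} {e : VN → ℕ}

theorem eval_blkF (β : Bool) (v : VN) : (blkF β v).eval N a e = true ↔
    blkP (e z0) (e p1) (e z1) β (e v) := by
  cases β
  · simp [blkF, blkP, Fml.eval_lt]
  · simp only [blkF, blkP, if_true, Fml.eval_and, Fml.eval_lt, eval_leF]

theorem eval_rngF (β : Bool) (v : VN) : (rngF β v).eval N a e = true ↔
    rngP (e z0) (e p1) (e z1) β (e v) := by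
  cases β
  · simp only [rngF, rngP, Fml.eval_and, Fml.eval_lt, Bool.false_eq_true, if_false]
  · simp only [rngF, rngP, if_true, Fml.eval_lt]

variable (hX : ∀ t < N, a .x [t] = X t)
  (hC : ∀ t < N, ∀ t' < N, ∀ t'' < N, a .C [t, t', t''] = C t t' t'')

include hX hC

theorem eval_adjF (β : Bool) (u v : VN) (hu : u ≠ p) (hv : v ≠ p) (hun : e u < N)
    (hvn : e v < N) :
    (adjF β u v).eval N a e = true ↔ adjP N X C (e z0) (e p1) (e z1) β (e u) (e v) := by
  rw [adjF, Fml.eval_ex, adjP]
  refine exists_congr fun t => and_congr_right fun ht => ?_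
  rw [Fml.eval_and, Fml.eval_and, eval_rngF, Fml.eval_arr, Fml.eval_arr]
  simp only [List.map_cons, List.map_nil, update_self, ne_eq, hu, hv, not_false_eq_true,
    update_of_ne, reduceCtorEq]
  rw [hX t ht, hC _ hun _ hvn _ ht]

theorem eval_enmF (β : Bool) (h0 : e z0 < N) (h1 : e p1 < N) (h2 : e z1 < N) :
    (enmF β).eval N a e = true ↔ enmP N C (e z0) (e p1) (e z1) β := by
  unfold enmF enmP
  simp only [Fml.eval_and, eval_allF, eval_impF, Fml.eval_ex, eval_blkF, eval_rngF, eval_iffF,
    Fml.eval_lt, Fml.eval_or, Fml.eval_eq, Fml.eval_arr, List.map_cons, List.map_nil,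
    update_self, ne_eq, reduceCtorEq, not_false_eq_true, update_of_ne]
  refine and_congr ?_ (and_congr ?_ ?_)
  · refine forall₄_congr fun c hc d hd => ?_
    refine forall₂_congr fun _ _ => ?_
    refine exists_congr fun t => and_congr_right fun ht => and_congr_right fun _ => ?_
    rw [hC _ hc _ hd _ ht]
  · refine forall₃_congr fun t ht _ => ?_
    refine exists_congr fun c => and_congr_right fun hc => ?_
    refine exists_congr fun d => and_congr_right fun hd => ?_
    rw [hC _ hc _ hd _ ht]
  · refine forall₄_congr fun c hc d hd => ?_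
    refine forall₄_congr fun c' hc' d' hd' => ?_
    refine forall₄_congr fun t ht t' ht' => ?_
    refine forall₄_congr fun _ _ _ _ => ?_
    refine forall₂_congr fun _ _ => ?_
    rw [hC _ hc _ hd _ ht, hC _ hc' _ hd' _ ht']

theorem eval_symF (β : Bool) (h0 : e z0 < N) (h1 : e p1 < N) (h2 : e z1 < N) :
    (symF β).eval N a e = true ↔ symP N X C (e z0) (e p1) (e z1) β := by
  unfold symF symP
  simp only [Fml.eval_and, eval_allF, eval_impF, Fml.eval_not, eval_blkF,
    update_self, ne_eq, reduceCtorEq, not_false_eq_true, update_of_ne]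
  refine and_congr ?_ ?_
  · refine forall₃_congr fun t ht _ => ?_
    rw [eval_adjF hX hC β _ _ (by decide) (by decide) (by simpa using ht) (by simpa using ht)]
    simp
  · refine forall₄_congr fun t ht t' ht' => forall₂_congr fun _ _ => ?_
    rw [eval_adjF hX hC β _ _ (by decide) (by decide) (by simpa using ht) (by simpa using ht'),
      eval_adjF hX hC β _ _ (by decide) (by decide) (by simpa using ht') (by simpa using ht)]
    simp

theorem eval_intF (h0 : e z0 < N) (h1 : e p1 < N) (h2 : e z1 < N) :
    intF.eval N a e = true ↔ intP N X C (e z0) (e p1) (e z1) := by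
  unfold intF intP
  simp only [Fml.eval_and, eval_allF, eval_impF, Fml.eval_not, eval_blkF, Fml.eval_ex, eval_iffF,
    Fml.eval_lt, Fml.eval_or, Fml.eval_eq, Fml.eval_arr, List.map_cons, List.map_nil,
    update_self, ne_eq, reduceCtorEq, not_false_eq_true, update_of_ne]
  refine and_congr ?_ (and_congr ?_ ?_)
  · refine forall₃_congr fun t ht _ => ?_
    refine exists_congr fun d => and_congr_right fun hd => and_congr_right fun _ => ?_
    rw [hC _ ht _ hd _ h0]
  · refine forall₄_congr fun c hc d hd => ?_
    refine forall₄_congr fun c' hc' d' hd' => ?_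
    rw [hC _ hc _ hd _ h0, hC _ hc _ hd' _ h0, hC _ hc _ hc' _ h0]
  · refine forall₄_congr fun t ht t' ht' => forall₃_congr fun _ _ _ => ?_
    rw [eval_adjF hX hC false _ _ (by decide) (by decide) (by simpa using ht)
      (by simpa using ht')]
    simp only [update_self, ne_eq, reduceCtorEq, not_false_eq_true, update_of_ne]
    refine iff_congr Iff.rfl ?_
    refine exists_congr fun d => and_congr_right fun hd => and_congr_right fun _ => ?_
    rw [hC _ ht _ hd _ h0, hC _ ht' _ hd _ h0]

theorem eval_rolF (h0 : e z0 < N) (h1 : e p1 < N) (h2 : e z1 < N) :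
    rolF.eval N a e = true ↔ rolP N X C (e z0) (e p1) (e z1) := by
  unfold rolF rolP
  simp only [Fml.eval_and, eval_allF, eval_impF, Fml.eval_not, eval_blkF, Fml.eval_ex, eval_iffF,
    Fml.eval_lt, Fml.eval_or, Fml.eval_eq, Fml.eval_arr, List.map_cons, List.map_nil,
    update_self, ne_eq, reduceCtorEq, not_false_eq_true, update_of_ne]
  refine and_congr ?_ (and_congr ?_ ?_)
  · refine forall₃_congr fun t ht _ => ?_
    refine exists_congr fun d => and_congr_right fun hd => and_congr_right fun _ => ?_
    rw [hC _ ht _ hd _ h0]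
  · refine forall₄_congr fun c hc d hd => ?_
    refine forall₂_congr fun d' hd' => ?_
    rw [hC _ hc _ hd _ h0, hC _ hc _ hd' _ h0]
  · refine forall₄_congr fun t ht t' ht' => forall₂_congr fun t'' ht'' => ?_
    refine forall₃_congr fun _ _ _ => ?_
    rw [hC _ ht _ ht' _ h0]
    refine forall_congr' fun _ => ?_
    rw [eval_adjF hX hC true _ _ (by decide) (by decide) (by simpa using ht')
      (by simpa using ht'')]
    simp only [update_self, ne_eq, reduceCtorEq, not_false_eq_true, update_of_ne]
    refine iff_congr Iff.rfl ?_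
    refine exists_congr fun d => and_congr_right fun hd => and_congr_right fun _ => ?_
    rw [eval_adjF hX hC false _ _ (by decide) (by decide) (by simpa using ht)
      (by simpa using hd), hC _ hd _ ht'' _ h0]
    simp only [update_self, ne_eq, reduceCtorEq, not_false_eq_true, update_of_ne]

theorem eval_unaF (h0 : e z0 < N) (h1 : e p1 < N) (h2 : e z1 < N) :
    unaF.eval N a e = true ↔ unaP N X (e z0) (e p1) (e z1) := by
  unfold unaF unaP
  simp only [Fml.eval_and, eval_allF, eval_impF, Fml.eval_not, Fml.eval_lt, eval_leF,
    Fml.eval_arr, List.map_cons, List.map_nil,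
    update_self, ne_eq, reduceCtorEq, not_false_eq_true, update_of_ne]
  rw [hX _ h0, hX _ h2]
  refine and_congr ?_ (and_congr Iff.rfl (and_congr Iff.rfl (and_congr Iff.rfl
    (and_congr ?_ Iff.rfl))))
  · refine forall₃_congr fun t ht _ => ?_
    rw [hX _ ht]
  · refine forall₃_congr fun t ht _ => ?_
    rw [hX _ ht]

theorem eval_mainF : mainF.eval N a e = true ↔
    (∃ c < N, (∀ d < N, d ≤ c) ∧ ¬ a .E [c, c, c] = true) ∧ mainP N X C := by
  unfold mainF mainP
  rw [Fml.eval_and]
  refine and_congr ?_ ?_
  · unfold lenF
    simp only [Fml.eval_and, eval_allF, Fml.eval_not, eval_leF, Fml.eval_ex,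
      Fml.eval_arr, List.map_cons, List.map_nil,
      update_self, ne_eq, reduceCtorEq, not_false_eq_true, update_of_ne]
  · rw [Fml.eval_ex]
    refine exists_congr fun q0 => and_congr_right fun h0 => ?_
    rw [Fml.eval_ex]
    refine exists_congr fun q1 => and_congr_right fun h1 => ?_
    rw [Fml.eval_ex]
    refine exists_congr fun q2 => and_congr_right fun h2 => ?_
    have k0 : update (update (update e z0 q0) p1 q1) z1 q2 z0 < N := by simpa using h0
    have k1 : update (update (update e z0 q0) p1 q1) z1 q2 p1 < N := by simpa using h1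
    have k2 : update (update (update e z0 q0) p1 q1) z1 q2 z1 < N := by simpa using h2
    simp only [Fml.eval_and]
    rw [eval_unaF hX hC k0 k1 k2, eval_enmF hX hC _ k0 k1 k2, eval_enmF hX hC _ k0 k1 k2,
      eval_symF hX hC _ k0 k1 k2, eval_symF hX hC _ k0 k1 k2, eval_intF hX hC k0 k1 k2,
      eval_rolF hX hC k0 k1 k2]
    simp only [update_self, ne_eq, reduceCtorEq, not_false_eq_true, update_of_ne]

end Eval

theorem mainP_congr {C' : ℕ → ℕ → ℕ → Bool} (hN : 0 < N)
    (h : ∀ c < N, ∀ d < N, ∀ p < N, C c d p = C' c d p) : mainP N X C ↔ mainP N X C' := by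
  let a : Arr WN := fun w l => match w, l with
    | .x, [t] => X t
    | .C, [t, t', t''] => C t t' t''
    | _, _ => false
  have h1 := eval_mainF (N := N) (X := X) (C := C) (a := a) (e := fun _ => 0) (fun _ _ => rfl)
    (fun _ _ _ _ _ _ => rfl)
  have h2 := eval_mainF (N := N) (X := X) (C := C') (a := a) (e := fun _ => 0) (fun _ _ => rfl)
    (fun c hc d hd p hp => h c hc d hd p hp)
  have h3 : ∃ c < N, (∀ d < N, d ≤ c) ∧ ¬ a .E [c, c, c] = true :=
    ⟨N - 1, by omega, fun d hd => by omega, by simp [a]⟩
  rw [h1, and_iff_right h3, and_iff_right h3] at h2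
  exact h2

/-! ### The language of the sentence is in NP -/

/-- Which input letters are counted. -/
def cntN : Bool ⊕ Bool → Bool
  | .inl _ => true
  | .inr _ => false

/-- Initial contents of the arrays. -/
def iniN : WN → Bool ⊕ Bool → Option Bool
  | .x, .inl b => some b
  | .x, .inr _ => none
  | .C, .inl _ => none
  | .C, .inr b => some b
  | .E, .inl _ => none
  | .E, .inr _ => some true

theorem cntN_pair (x y : List Bool) :
    (x.map Sum.inl ++ y.map Sum.inr).countP cntN = x.length := by
  rw [List.countP_append, List.countP_map, List.countP_map]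
  have h1 : (cntN ∘ Sum.inl) = fun _ => true := rfl
  have h2 : (cntN ∘ Sum.inr) = fun _ => false := rfl
  rw [h1, h2]
  simp

theorem iniN_x (x y : List Bool) :
    (x.map Sum.inl ++ y.map Sum.inr).filterMap (iniN .x) = x := by
  rw [List.filterMap_append, List.filterMap_map, List.filterMap_map]
  have h1 : (iniN .x ∘ Sum.inl) = some := rfl
  have h2 : (iniN .x ∘ Sum.inr) = fun _ => none := rfl
  rw [h1, h2]
  simp

theorem iniN_C (x y : List Bool) :
    (x.map Sum.inl ++ y.map Sum.inr).filterMap (iniN .C) = y := by
  rw [List.filterMap_append, List.filterMap_map, List.filterMap_map]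
  have h1 : (iniN .C ∘ Sum.inl) = fun _ => none := rfl
  have h2 : (iniN .C ∘ Sum.inr) = some := rfl
  rw [h1, h2]
  simp

theorem iniN_E (x y : List Bool) :
    (x.map Sum.inl ++ y.map Sum.inr).filterMap (iniN .E) = y.map fun _ => true := by
  rw [List.filterMap_append, List.filterMap_map, List.filterMap_map]
  have h1 : (iniN .E ∘ Sum.inl) = fun _ => none := rfl
  have h2 : (iniN .E ∘ Sum.inr) = fun _ => some true := rfl
  rw [h1, h2]
  simp [List.filterMap_eq_map']

/-- The program checking certificates. -/
def verS : PolyTM.Stmt VN WN := .emit mainF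

theorem verS_out (w : List (Bool ⊕ Bool)) :
    verS.out cntN iniN w = [mainF.eval (w.countP cntN) (iniArr (w.countP cntN) iniN w)
      fun _ => 0] := rfl

/-- The conditions on the input word and the certificate word. -/
theorem ver_pair (x y : List Bool) :
    mainF.eval ((x.map Sum.inl ++ y.map Sum.inr).countP cntN)
      (iniArr ((x.map Sum.inl ++ y.map Sum.inr).countP cntN) iniN
        (x.map Sum.inl ++ y.map Sum.inr)) (fun _ => 0) = true ↔
    (0 < x.length ∧ y.length < x.length ^ 3) ∧
      mainP x.length (fun t => x.getD t false)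
        (fun c d p => y.getD (enc x.length [c, d, p]) false) := by
  rw [cntN_pair]
  rw [eval_mainF (X := fun t => x.getD t false)
    (C := fun c d p => y.getD (enc x.length [c, d, p]) false)]
  · refine and_congr ?_ Iff.rfl
    have hE : ∀ c, iniArr x.length iniN (x.map Sum.inl ++ y.map Sum.inr) .E [c, c, c] =
        decide (enc x.length [c, c, c] < y.length) := by
      intro c
      simp only [iniArr, iniN_E, cell]
      rw [List.getD_eq_getElem?_getD, List.getElem?_map]
      by_cases h : enc x.length [c, c, c] < y.length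
      · simp [h]
      · simp [h]
    have hpow : ∀ N c, c + 1 = N → enc N [c, c, c] + 1 = N ^ 3 := by
      rintro N c rfl
      simp only [enc, List.length_cons, List.length_nil]
      ring
    constructor
    · rintro ⟨c, hc, h1, h2⟩
      rw [hE, decide_eq_true_iff] at h2
      have h3 : c + 1 = x.length := by
        by_contra h4
        have := h1 (c + 1) (by omega)
        omega
      have := hpow _ _ h3
      omega
    · rintro ⟨h1, h2⟩
      refine ⟨x.length - 1, by omega, fun d hd => by omega, ?_⟩
      rw [hE, decide_eq_true_iff]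
      have := hpow x.length (x.length - 1) (by omega)
      omega
  · intro t _
    simp only [iniArr, iniN_x, cell, enc, List.length_nil, pow_zero, mul_one, add_zero]
  · intro t _ t' _ t'' _
    simp only [iniArr, iniN_C, cell]

/-- The language of all words with a certificate. -/
theorem certs_np : InNP {x | 0 < x.length ∧ ∃ C : ℕ → ℕ → ℕ → Bool,
    (∀ c, c + 1 = x.length → C c c c = false) ∧
    mainP x.length (fun t => x.getD t false) C} := by
  obtain ⟨M, p, hfin, hM⟩ := Stmt.polytime verS wf_mainF cntN iniN
  refine ⟨{w | mainF.eval (w.countP cntN) (iniArr (w.countP cntN) iniN w) (fun _ => 0) = true},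
    ⟨M, p, hfin, fun w => ⟨fun hw => ?_, fun hw => ?_⟩⟩, ⟨Polynomial.X ^ 3, fun x y hxy => ?_⟩,
    fun x => ?_⟩
  · have := hM w
    rw [verS_out, show mainF.eval (w.countP cntN) (iniArr (w.countP cntN) iniN w) (fun _ => 0)
      = true from hw] at this
    exact this
  · have := hM w
    rw [verS_out, show mainF.eval (w.countP cntN) (iniArr (w.countP cntN) iniN w) (fun _ => 0)
      = false from Bool.eq_false_iff.2 hw] at this
    exact this
  · have h := ((ver_pair x y).1 hxy).1.2
    simpa using h.le
  · constructor
    · rintro ⟨hx, C, hC, hm⟩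
      refine ⟨(List.range (x.length ^ 3 - 1)).map fun i =>
        C (i / (x.length * x.length)) (i / x.length % x.length) (i % x.length), ?_⟩
      refine (ver_pair x _).2 ⟨⟨hx, ?_⟩, ?_⟩
      · rw [List.length_map, List.length_range]
        have : 0 < x.length ^ 3 := by positivity
        omega
      · have key : ∀ c < x.length, ∀ d < x.length, ∀ p < x.length,
            ((List.range (x.length ^ 3 - 1)).map fun i =>
              C (i / (x.length * x.length)) (i / x.length % x.length) (i % x.length)).getD
                (enc x.length [c, d, p]) false = C c d p := by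
          intro c hc d hd p hp
          set N := x.length with hN
          have he : enc N [c, d, p] = N * (N * c + d) + p := by
            simp only [enc, List.length_cons, List.length_nil]
            ring
          have h1 : enc N [c, d, p] < N ^ 3 := by
            have := enc_lt (N := N) (ys := [c, d, p]) (by simp [hc, hd, hp])
            simpa using this
          have e1 : (N * (N * c + d) + p) / N = N * c + d := by
            rw [Nat.mul_add_div (by omega), Nat.div_eq_of_lt hp, Nat.add_zero]
          have e2 : (N * (N * c + d) + p) % N = p := by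
            rw [Nat.mul_add_mod, Nat.mod_eq_of_lt hp]
          have e3 : (N * c + d) / N = c := by
            rw [Nat.mul_add_div (by omega), Nat.div_eq_of_lt hd, Nat.add_zero]
          have e4 : (N * c + d) % N = d := by
            rw [Nat.mul_add_mod, Nat.mod_eq_of_lt hd]
          by_cases h2 : enc N [c, d, p] < N ^ 3 - 1
          · rw [List.getD_eq_getElem?_getD, List.getElem?_map,
              List.getElem?_range h2]
            simp only [Option.map_some, Option.getD_some]
            rw [he, ← Nat.div_div_eq_div_mul, e1, e2, e3, e4]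
          · have h3 : enc N [c, d, p] + 1 = N ^ 3 := by omega
            have h4 : c + 1 = N ∧ d + 1 = N ∧ p + 1 = N := by
              rw [he] at h3
              have h5 : N ^ 3 = N * (N * N) := by ring
              have h6 : N * c + d + 1 = N * N := by
                have : N * (N * c + d) + p + 1 = N * (N * N) := by omega
                have h7 : p + 1 = N := by
                  have h8 := congrArg (· % N) this
                  simp only [Nat.mul_mod_right] at h8
                  rw [show N * (N * c + d) + p + 1 = N * (N * c + d) + (p + 1) by ring,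
                    Nat.mul_add_mod] at h8
                  rcases Nat.lt_or_ge (p + 1) N with h9 | h9
                  · rw [Nat.mod_eq_of_lt h9] at h8; omega
                  · omega
                have h10 : N * (N * c + d + 1) = N * (N * N) := by
                  rw [Nat.mul_add, Nat.mul_one]; omega
                exact Nat.eq_of_mul_eq_mul_left (by omega) h10
              have h7 : d + 1 = N := by
                have h8 := congrArg (· % N) h6
                simp only [Nat.mul_mod_right] at h8
                rw [show N * c + d + 1 = N * c + (d + 1) by ring, Nat.mul_add_mod] at h8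
                rcases Nat.lt_or_ge (d + 1) N with h9 | h9
                · rw [Nat.mod_eq_of_lt h9] at h8; omega
                · omega
              have h8 : c + 1 = N := by
                have h10 : N * (c + 1) = N * N := by
                  rw [Nat.mul_add, Nat.mul_one]; omega
                exact Nat.eq_of_mul_eq_mul_left (by omega) h10
              refine ⟨h8, h7, ?_⟩
              have h11 : N * (N * c + d) + p + 1 = N * (N * N) := by omega
              rw [← h6] at h11
              have h12 : N * (N * c + d + 1) = N * (N * c + d) + N := by ring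
              omega
            obtain ⟨h5, h6, h7⟩ := h4
            have h8 : d = c := by omega
            have h9 : p = c := by omega
            subst h8 h9
            rw [hC _ h5, List.getD_eq_getElem?_getD, List.getElem?_map, List.getElem?_eq_none
              (by rw [List.length_range]; omega)]
            rfl
        exact (mainP_congr hx fun c hc d hd p hp => key c hc d hd p hp).2 hm
    · rintro ⟨y, hy⟩
      obtain ⟨⟨h1, h2⟩, h3⟩ := (ver_pair x y).1 hy
      refine ⟨h1, _, fun c hc => ?_, h3⟩
      have h4 : enc x.length [c, c, c] + 1 = x.length ^ 3 := by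
        rw [← hc]
        simp only [enc, List.length_cons, List.length_nil]
        ring
      rw [List.getD_eq_getElem?_getD, List.getElem?_eq_none (by omega)]
      rfl

end Pool.Agent.Lib.MP_a950c6_lc
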